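import Pool.Agent.Helper23M.Zas

/-!
Algebra of 2x2 matrices: commutators with a fixed matrix do not enter its normalizer.
-/

set_option autoImplicit false

open Set Filter Topology

namespace Pool.Agent.Helper23M

theorem alg_core {p q r p' q' r' α c : ℝ}
    (e11 : (α + p') * p + q' * r = c * (p * (α + p') + q * r'))
    (e12 : (α + p') * q - q' * p = c * (p * q' + q * (α - p')))
    (e21 : r' * p + (α - p') * r = c * (r * (α + p') - p * r'))
    (e22 : r' * q - (α - p') * p = c * (r * q' - p * (α - p')))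
    (hdet : p ^ 2 + q * r = p' ^ 2 + q' * r') (hα : α ≠ 0) :
    (p * q' = q * p' ∧ q * r' = r * q' ∧ p * r' = r * p') ∨ (p = 0 ∧ q = 0 ∧ r = 0) := by
  have ht : (1 - c) * (2 * p * p' + q' * r + r' * q) = 0 := by linear_combination e11 + e22
  rcases mul_eq_zero.1 ht with h1 | h1
  · left
    have hc : c = 1 := by linarith
    subst hc
    refine ⟨?_, ?_, ?_⟩
    · linear_combination -(1 / 2) * e12
    · linear_combination -e11
    · linear_combination (1 / 2) * e21
  · by_cases hc : c = 1
    · left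
      subst hc
      refine ⟨?_, ?_, ?_⟩
      · linear_combination -(1 / 2) * e12
      · linear_combination -e11
      · linear_combination (1 / 2) * e21
    right
    have hc' : 1 - c ≠ 0 := fun h => hc (by linarith)
    have E11 : (1 - c) * α * p = (c + 1) * (p * p' + q * r') := by
      linear_combination e11 - h1
    have E12 : (1 - c) * α * q = (c + 1) * (p * q' - q * p') := by
      linear_combination e12
    have E21 : (1 - c) * α * r = (c + 1) * (r * p' - p * r') := by
      linear_combination e21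
    have E22 : -((1 - c) * α * p) = (c + 1) * (r * q' + p * p') := by
      linear_combination e22 - h1
    have hD : p ^ 2 + q * r = 0 := by
      have h2 : 2 * (1 - c) * α * (p ^ 2 + q * r) = 0 := by
        linear_combination p * E11 + q * E21 + r * E12 - p * E22
      have h3 : 2 * (1 - c) * α ≠ 0 := mul_ne_zero (mul_ne_zero two_ne_zero hc') hα
      exact (mul_eq_zero.1 h2).resolve_left h3
    have hD' : p' ^ 2 + q' * r' = 0 := by rw [← hdet]; exact hD
    have hne : (1 - c) * α ≠ 0 := mul_ne_zero hc' hα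
    have f1 : p * p' + q * r' = 0 := by
      have h2 : (1 - c) * α * (p * p' + q * r') = 0 := by
        linear_combination p' * E11 + r' * E12 + (c + 1) * p * hD'
      exact (mul_eq_zero.1 h2).resolve_left hne
    have f2 : p * q' - q * p' = 0 := by
      have h2 : (1 - c) * α * (p * q' - q * p') = 0 := by
        linear_combination q' * E11 - p' * E12 + (c + 1) * q * hD'
      exact (mul_eq_zero.1 h2).resolve_left hne
    have f3 : r * p' - p * r' = 0 := by
      have h2 : (1 - c) * α * (r * p' - p * r') = 0 := by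
        linear_combination p' * E21 + r' * E22 + (c + 1) * r * hD'
      exact (mul_eq_zero.1 h2).resolve_left hne
    rw [f1, mul_zero] at E11
    rw [f2, mul_zero] at E12
    rw [f3, mul_zero] at E21
    exact ⟨(mul_eq_zero.1 E11).resolve_left hne, (mul_eq_zero.1 E12).resolve_left hne,
      (mul_eq_zero.1 E21).resolve_left hne⟩

/-- 2x2 real matrices -/
abbrev M2 : Type := Matrix (Fin 2) (Fin 2) ℝ

/-- `P` normalizes the line spanned by `N` -/
def Nz (N P : M2) : Prop := ∃ c : ℝ, P * N = c • (N * P)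

theorem alg_mat {N N' : M2} {α : ℝ} (hN : N.trace = 0) (hN' : N'.trace = 0) (hN0 : N ≠ 0)
    (hdet : N'.det = N.det) (hne : ¬ ∃ c : ℝ, N' = c • N) (hα : α ≠ 0) :
    ¬ Nz N (α • 1 + N') := by
  rintro ⟨c, hc⟩
  rw [Matrix.trace_fin_two] at hN hN'
  rw [Matrix.det_fin_two, Matrix.det_fin_two] at hdet
  have h11 : N 1 1 = -N 0 0 := by linarith
  have h11' : N' 1 1 = -N' 0 0 := by linarith
  have g := fun i j => congrArg (fun A : M2 => A i j) hc
  have g00 := g 0 0
  have g01 := g 0 1
  have g10 := g 1 0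
  have g11 := g 1 1
  simp [Matrix.mul_apply, Fin.sum_univ_two, Matrix.add_apply, Matrix.smul_apply] at g00 g01 g10 g11
  simp only [h11', h11] at g00 g01 g10 g11
  simp only [h11, h11'] at hdet
  have hcore := alg_core (p := N 0 0) (q := N 0 1) (r := N 1 0) (p' := N' 0 0) (q' := N' 0 1)
    (r' := N' 1 0) (α := α) (c := c) (by linear_combination g00) (by linear_combination g01)
    (by linear_combination g10) (by linear_combination g11) (by linear_combination hdet) hα
  rcases hcore with ⟨h1, h2, h3⟩ | ⟨h1, h2, h3⟩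
  · apply hne
    by_cases hp : N 0 0 = 0
    · by_cases hq : N 0 1 = 0
      · have hr : N 1 0 ≠ 0 := by
          intro hr
          apply hN0
          ext i j
          fin_cases i <;> fin_cases j
          · exact hp
          · exact hq
          · exact hr
          · show N 1 1 = 0
            rw [h11, hp, neg_zero]
        refine ⟨N' 1 0 / N 1 0, ?_⟩
        ext i j
        fin_cases i <;> fin_cases j
        · show N' 0 0 = N' 1 0 / N 1 0 * N 0 0
          rw [hp, mul_zero]
          rw [hp, zero_mul] at h3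
          exact (mul_eq_zero.1 h3.symm).resolve_left hr
        · show N' 0 1 = N' 1 0 / N 1 0 * N 0 1
          rw [hq, mul_zero]
          rw [hq, zero_mul] at h2
          exact (mul_eq_zero.1 h2.symm).resolve_left hr
        · show N' 1 0 = N' 1 0 / N 1 0 * N 1 0
          field_simp
        · show N' 1 1 = N' 1 0 / N 1 0 * N 1 1
          rw [h11, h11', hp, neg_zero, mul_zero]
          rw [hp, zero_mul] at h3
          rw [(mul_eq_zero.1 h3.symm).resolve_left hr, neg_zero]
      · refine ⟨N' 0 1 / N 0 1, ?_⟩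
        ext i j
        fin_cases i <;> fin_cases j
        · show N' 0 0 = N' 0 1 / N 0 1 * N 0 0
          field_simp
          linear_combination -h1
        · show N' 0 1 = N' 0 1 / N 0 1 * N 0 1
          field_simp
        · show N' 1 0 = N' 0 1 / N 0 1 * N 1 0
          field_simp
          linear_combination h2
        · show N' 1 1 = N' 0 1 / N 0 1 * N 1 1
          rw [h11, h11']
          field_simp
          linear_combination h1
    · refine ⟨N' 0 0 / N 0 0, ?_⟩
      ext i j
      fin_cases i <;> fin_cases j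
      · show N' 0 0 = N' 0 0 / N 0 0 * N 0 0
        field_simp
      · show N' 0 1 = N' 0 0 / N 0 0 * N 0 1
        field_simp
        linear_combination h1
      · show N' 1 0 = N' 0 0 / N 0 0 * N 1 0
        field_simp
        linear_combination h3
      · show N' 1 1 = N' 0 0 / N 0 0 * N 1 1
        rw [h11, h11']
        field_simp
  · apply hN0
    ext i j
    fin_cases i <;> fin_cases j
    · exact h1
    · exact h2
    · exact h3
    · show N 1 1 = 0
      rw [h11, h1, neg_zero]

/-- the trace free part -/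
noncomputable def tf (A : M2) : M2 := A - (A.trace / 2) • 1

theorem tf_trace (A : M2) : (tf A).trace = 0 := by
  unfold tf
  rw [Matrix.trace_sub, Matrix.trace_smul, Matrix.trace_one]
  simp

section hom
variable {Γ : Type} [Group Γ] (B : Γ →* M2)

theorem B_inv_mul (γ : Γ) : B γ⁻¹ * B γ = 1 := by rw [← map_mul, inv_mul_cancel, map_one]
theorem B_mul_inv (γ : Γ) : B γ * B γ⁻¹ = 1 := by rw [← map_mul, mul_inv_cancel, map_one]

theorem tf_conj (g h : Γ) : tf (B (h * g * h⁻¹)) = B h * tf (B g) * B h⁻¹ := by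
  unfold tf
  have h1 : (B (h * g * h⁻¹)).trace = (B g).trace := by
    rw [map_mul, map_mul, Matrix.trace_mul_comm, ← mul_assoc, B_inv_mul, one_mul]
  rw [h1, map_mul, map_mul, mul_sub, sub_mul, Matrix.mul_smul, Matrix.smul_mul, mul_one, B_mul_inv]

theorem inv_eq {g : Γ} (hg : (B g).det = 1) : B g⁻¹ = ((B g).trace / 2) • 1 - tf (B g) := by
  have h1 : B g * (((B g).trace / 2) • 1 - tf (B g)) = 1 := by
    unfold tf
    rw [Matrix.det_fin_two] at hg
    ext i j
    fin_cases i <;> fin_cases j <;>
      simp [Matrix.mul_apply, Fin.sum_univ_two, Matrix.trace_fin_two] <;> linarith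
  calc B g⁻¹ = B g⁻¹ * (B g * (((B g).trace / 2) • 1 - tf (B g))) := by rw [h1, mul_one]
    _ = _ := by rw [← mul_assoc, B_inv_mul, one_mul]

theorem not_par {g h : Γ} (hh : ¬ Nz (tf (B g)) (B h)) :
    ¬ ∃ c : ℝ, B h * tf (B g) * B h⁻¹ = c • tf (B g) := by
  rintro ⟨c, hc⟩
  apply hh
  refine ⟨c, ?_⟩
  calc B h * tf (B g) = B h * tf (B g) * B h⁻¹ * B h := by
        rw [mul_assoc (B h * tf (B g)), B_inv_mul, mul_one]
    _ = _ := by rw [hc, Matrix.smul_mul]

theorem det_conj (g h : Γ) : (B h * tf (B g) * B h⁻¹).det = (tf (B g)).det := by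
  have h1 : (B h).det * (B h⁻¹).det = 1 := by rw [← Matrix.det_mul, B_mul_inv, Matrix.det_one]
  rw [Matrix.det_mul, Matrix.det_mul]
  linear_combination (tf (B g)).det * h1

theorem trace_conj (g h : Γ) : (B h * tf (B g) * B h⁻¹).trace = 0 := by
  rw [Matrix.trace_mul_comm, ← mul_assoc, B_inv_mul, one_mul, tf_trace]

theorem tf_ne {g h : Γ} (hh : ¬ Nz (tf (B g)) (B h)) : tf (B g) ≠ 0 := by
  intro h0
  exact hh ⟨1, by rw [h0]; simp⟩

theorem step_conj {g h : Γ} (hα : (B g).trace ≠ 0) (hh : ¬ Nz (tf (B g)) (B h)) :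
    ¬ Nz (tf (B g)) (B (h * g * h⁻¹)) := by
  have h1 : B (h * g * h⁻¹) = ((B g).trace / 2) • 1 + B h * tf (B g) * B h⁻¹ := by
    rw [← tf_conj]
    unfold tf
    have h1 : (B (h * g * h⁻¹)).trace = (B g).trace := by
      rw [map_mul, map_mul, Matrix.trace_mul_comm, ← mul_assoc, B_inv_mul, one_mul]
    rw [h1]
    abel
  rw [h1]
  exact alg_mat (tf_trace _) (trace_conj B g h) (tf_ne B hh) (det_conj B g h) (not_par B hh)
    (div_ne_zero hα two_ne_zero)

theorem step_comm {g h : Γ} (hg : (B g).det = 1) (hα : (B g).trace ≠ 0)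
    (hh : ¬ Nz (tf (B g)) (B h)) : ¬ Nz (tf (B g)) (B (g * h * g⁻¹ * h⁻¹)) := by
  rintro ⟨c, hc⟩
  have h1 : B (h * g⁻¹ * h⁻¹) = ((B g).trace / 2) • 1 + -(B h * tf (B g) * B h⁻¹) := by
    rw [map_mul, map_mul, inv_eq B hg, mul_sub, sub_mul, Matrix.mul_smul, Matrix.smul_mul, mul_one,
      B_mul_inv, sub_eq_add_neg]
  have hcomm : tf (B g) * B g = B g * tf (B g) := by
    unfold tf
    rw [sub_mul, mul_sub, Matrix.smul_mul, Matrix.mul_smul, one_mul, mul_one]
  have h2 : Nz (tf (B g)) (B (h * g⁻¹ * h⁻¹)) := by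
    refine ⟨c, ?_⟩
    have h3 : B (g * h * g⁻¹ * h⁻¹) = B g * B (h * g⁻¹ * h⁻¹) := by
      rw [← map_mul]; congr 1; group
    rw [h3] at hc
    calc B (h * g⁻¹ * h⁻¹) * tf (B g) = B g⁻¹ * (B g * B (h * g⁻¹ * h⁻¹) * tf (B g)) := by
          rw [← mul_assoc, ← mul_assoc, B_inv_mul, one_mul]
      _ = B g⁻¹ * (c • (tf (B g) * (B g * B (h * g⁻¹ * h⁻¹)))) := by rw [hc]
      _ = c • (B g⁻¹ * B g * (tf (B g) * B (h * g⁻¹ * h⁻¹))) := by
          rw [Matrix.mul_smul, ← mul_assoc (tf (B g)), hcomm]
          simp only [mul_assoc]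
      _ = _ := by rw [B_inv_mul, one_mul]
  rw [h1] at h2
  refine alg_mat (tf_trace _) ?_ (tf_ne B hh) ?_ ?_ (div_ne_zero hα two_ne_zero) h2
  · rw [Matrix.trace_neg, trace_conj, neg_zero]
  · rw [Matrix.det_neg, det_conj]
    simp
  · rintro ⟨c, hc⟩
    apply not_par B hh
    refine ⟨-c, ?_⟩
    rw [neg_smul, ← hc, neg_neg]

/-- the iterated commutators are never trivial -/
theorem it_ne_one {g h : Γ} (hg : (B g).det = 1) (hα : (B g).trace ≠ 0)
    (hh : ¬ Nz (tf (B g)) (B h)) (k : ℕ) : B (it g (h * g * h⁻¹) k) ≠ 1 := by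
  have key : ∀ k, ¬ Nz (tf (B g)) (B (it g (h * g * h⁻¹) k)) := by
    intro k
    induction k with
    | zero => exact step_conj B hα hh
    | succ k ih => exact step_comm B hg hα ih
  intro h1
  apply key k
  refine ⟨1, ?_⟩
  rw [h1, one_mul, mul_one, one_smul]

end hom

end Pool.Agent.Helper23M
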