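import Pool.Agent.Helper23M.Disc

/-!
More algebra of 2x2 matrices: groups normalizing a line of trace free matrices are solvable.
-/

set_option autoImplicit false

open Set Filter Topology

namespace Pool.Agent.Helper23M

theorem par_of_cross {N T : M2} (hN : N.trace = 0) (hT : T.trace = 0) (hN0 : N ≠ 0)
    (h1 : N 0 0 * T 0 1 = N 0 1 * T 0 0) (h2 : N 0 1 * T 1 0 = N 1 0 * T 0 1)
    (h3 : N 0 0 * T 1 0 = N 1 0 * T 0 0) : ∃ c : ℝ, T = c • N := by
  rw [Matrix.trace_fin_two] at hN hT
  have h11 : N 1 1 = -N 0 0 := by linarith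
  have h11' : T 1 1 = -T 0 0 := by linarith
  have key : ∀ c : ℝ, T 0 0 = c * N 0 0 → T 0 1 = c * N 0 1 → T 1 0 = c * N 1 0 → T = c • N := by
    intro c a1 a2 a3
    ext i j
    fin_cases i <;> fin_cases j
    · exact a1
    · exact a2
    · exact a3
    · show T 1 1 = c * N 1 1
      rw [h11, h11', a1]; ring
  by_cases hp : N 0 0 = 0
  · by_cases hq : N 0 1 = 0
    · have hr : N 1 0 ≠ 0 := by
        intro hr
        apply hN0
        ext i j
        fin_cases i <;> fin_cases j
        · exact hp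
        · exact hq
        · exact hr
        · show N 1 1 = 0
          rw [h11, hp, neg_zero]
      refine ⟨T 1 0 / N 1 0, key _ ?_ ?_ ?_⟩
      · rw [hp, mul_zero]
        rw [hp, zero_mul] at h3
        exact (mul_eq_zero.1 h3.symm).resolve_left hr
      · rw [hq, mul_zero]
        rw [hq, zero_mul] at h2
        exact (mul_eq_zero.1 h2.symm).resolve_left hr
      · field_simp
    · refine ⟨T 0 1 / N 0 1, key _ ?_ ?_ ?_⟩
      · field_simp; linear_combination -h1
      · field_simp
      · field_simp; linear_combination h2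
  · refine ⟨T 0 0 / N 0 0, key _ ?_ ?_ ?_⟩
    · field_simp
    · field_simp; linear_combination h1
    · field_simp; linear_combination h3

/-- matrices commuting with a trace free matrix -/
theorem comm_par {N A : M2} (hN : N.trace = 0) (hN0 : N ≠ 0) (hA : A * N = N * A) :
    ∃ x y : ℝ, A = x • 1 + y • N := by
  have hN' := hN
  rw [Matrix.trace_fin_two] at hN'
  have h11 : N 1 1 = -N 0 0 := by linarith
  have g := fun i j => congrArg (fun A : M2 => A i j) hA
  have g00 := g 0 0
  have g01 := g 0 1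
  have g10 := g 1 0
  simp only [Matrix.mul_apply, Fin.sum_univ_two, h11] at g00 g01 g10
  have ht : ∀ i j, (tf A) i j = A i j - (A 0 0 + A 1 1) / 2 * (1 : M2) i j := by
    intro i j
    unfold tf
    rw [Matrix.sub_apply, Matrix.smul_apply, Matrix.trace_fin_two, smul_eq_mul]
  obtain ⟨c, hc⟩ := par_of_cross (T := tf A) hN (tf_trace A) hN0
    (by rw [ht, ht]; simp; linear_combination -(1 / 2) * g01)
    (by rw [ht, ht]; simp; linear_combination -g00)
    (by rw [ht, ht]; simp; linear_combination (1 / 2) * g10)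
  refine ⟨A.trace / 2, c, ?_⟩
  rw [← hc]
  unfold tf
  abel

theorem comm_comm {N A A' : M2} (hN : N.trace = 0) (hN0 : N ≠ 0) (hA : A * N = N * A)
    (hA' : A' * N = N * A') : A * A' = A' * A := by
  obtain ⟨x, y, rfl⟩ := comm_par hN hN0 hA
  rw [add_mul, mul_add, Matrix.smul_mul, Matrix.mul_smul, Matrix.smul_mul, Matrix.mul_smul,
    one_mul, mul_one, hA']

theorem sq_eq {N : M2} (hN : N.trace = 0) : N * N = (-N.det) • 1 := by
  rw [Matrix.trace_fin_two] at hN
  have h11 : N 1 1 = -N 0 0 := by linarith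
  rw [Matrix.det_fin_two]
  ext i j
  fin_cases i <;> fin_cases j <;>
    simp [Matrix.mul_apply, Fin.sum_univ_two, h11] <;> ring

/-- matrices annihilating a nilpotent matrix on both sides -/
theorem ann_par {N T : M2} (hN : N.trace = 0) (hN0 : N ≠ 0) (hd : N.det = 0) (h1 : T * N = 0)
    (h2 : N * T = 0) : ∃ c : ℝ, T = c • N := by
  obtain ⟨x, y, rfl⟩ := comm_par hN hN0 (by rw [h1, h2])
  have h3 := sq_eq hN
  rw [hd, neg_zero, zero_smul] at h3
  rw [add_mul, Matrix.smul_mul, Matrix.smul_mul, h3, one_mul, smul_zero, add_zero] at h1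
  have hx : x = 0 := (smul_eq_zero.1 h1).resolve_right hN0
  exact ⟨y, by rw [hx, zero_smul, zero_add]⟩

section hom
variable {Γ : Type} [Group Γ] (B : Γ →* M2)

theorem nz_nil {N : M2} (hN : N.trace = 0) (hN0 : N ≠ 0) (hd : N.det = 0) {h : Γ}
    (hh : Nz N (B h)) : ∃ a d : ℝ, B h * N = a • N ∧ N * B h = d • N := by
  obtain ⟨c, hc⟩ := hh
  have h3 := sq_eq hN
  rw [hd, neg_zero, zero_smul] at h3
  have hc0 : c ≠ 0 := by
    rintro rfl
    rw [zero_smul] at hc
    apply hN0
    calc N = B h⁻¹ * (B h * N) := by rw [← mul_assoc, B_inv_mul, one_mul]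
      _ = 0 := by rw [hc, mul_zero]
  obtain ⟨a, ha⟩ := ann_par (T := B h * N) hN hN0 hd (by rw [mul_assoc, h3, mul_zero])
    (by rw [hc, Matrix.mul_smul, ← mul_assoc, h3, zero_mul, smul_zero])
  refine ⟨a, c⁻¹ * a, ha, ?_⟩
  rw [mul_smul, ← ha, hc, smul_smul, inv_mul_cancel₀ hc0, one_smul]

theorem nz_ss {N : M2} (hN : N.trace = 0) (hd : N.det ≠ 0) {h : Γ} (hh : Nz N (B h)) :
    B h * N = N * B h ∨ B h * N = -(N * B h) := by
  obtain ⟨c, hc⟩ := hh
  have h1 := congrArg Matrix.det hc
  rw [Matrix.det_mul, Matrix.det_smul, Matrix.det_mul, Fintype.card_fin] at h1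
  have h2 : c ^ 2 = 1 := by
    have h3 : (c ^ 2 - 1) * (N.det * (B h).det) = 0 := by linear_combination -h1
    have h4 := (mul_eq_zero.1 h3).resolve_right (mul_ne_zero hd (detB_ne B h))
    linarith
  rcases sq_eq_one_iff_of_ne_zero_or h2 with h | h
  · left; rw [hc, h, one_smul]
  · right; rw [hc, h, neg_smul, one_smul]
where
  sq_eq_one_iff_of_ne_zero_or {c : ℝ} (h : c ^ 2 = 1) : c = 1 ∨ c = -1 := by
    have : (c - 1) * (c + 1) = 0 := by ring_nf; linarith
    rcases mul_eq_zero.1 this with h | h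
    · left; linarith
    · right; linarith

end hom

end Pool.Agent.Helper23M
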