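import Pool.Agent.Helper23M.Hyp
import Pool.Agent.Helper23M.Alg3
import Pool.Agent.Y449.MS.All

/-!
Three dimensional closed affine manifolds with reducible linear holonomy: block matrices.
-/

set_option autoImplicit false

open Set Filter Topology Metric
open Pool.Agent.W689.Mk

namespace Pool.Agent.Helper23M

attribute [local instance] Matrix.normedAddCommGroup Matrix.normedSpace

/-- 3x3 real matrices -/
abbrev M3 : Type := Matrix (Fin 3) (Fin 3) ℝ

section blk
variable {Γ E : Type} [Group Γ] [NormedAddCommGroup E] [NormedSpace ℝ E]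
  (b : Module.Basis (Fin 3) ℝ E) (hol : Γ →* (E ≃ᵃ[ℝ] E))

theorem lin_mul' (γ δ : Γ) : ((hol (γ * δ)).linear : E →ₗ[ℝ] E) =
    ((hol γ).linear : E →ₗ[ℝ] E) ∘ₗ ((hol δ).linear : E →ₗ[ℝ] E) :=
  LinearMap.ext fun v => lin_mul (hol := hol) γ δ v

/-- the matrices of the linear holonomy -/
noncomputable def Lm : Γ →* M3 where
  toFun γ := LinearMap.toMatrix b b ((hol γ).linear : E →ₗ[ℝ] E)
  map_one' := by
    rw [map_one]
    exact LinearMap.toMatrix_id b
  map_mul' γ δ := by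
    rw [lin_mul', LinearMap.toMatrix_comp b b b]

theorem Lm_apply (γ : Γ) (i j : Fin 3) : Lm b hol γ i j = b.repr ((hol γ).linear (b j)) i :=
  LinearMap.toMatrix_apply _ _ _ _ _

theorem hol_repr (γ : Γ) (p : E) (i : Fin 3) :
    b.repr (hol γ p) i = ∑ j, Lm b hol γ i j * b.repr p j + b.repr (hol γ 0) i := by
  have h1 : hol γ p = hol γ 0 + (hol γ).linear p := by
    have := hol_add (hol := hol) γ 0 p
    rwa [zero_add] at this
  have h2 : b.repr ((hol γ).linear p) i = ∑ j, Lm b hol γ i j * b.repr p j := by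
    have := congrFun (LinearMap.toMatrix_mulVec_repr b b ((hol γ).linear : E →ₗ[ℝ] E) p) i
    rw [Matrix.mulVec, dotProduct] at this
    exact this.symm
  rw [h1, map_add, Finsupp.add_apply, h2, add_comm]

/-- the translation parts -/
noncomputable def um (γ : Γ) : Matrix (Fin 3) Unit ℝ := Matrix.of fun i _ => b.repr (hol γ 0) i

/-- the matrices of the affine holonomy -/
noncomputable def Mm : Γ →* Matrix (Fin 3 ⊕ Unit) (Fin 3 ⊕ Unit) ℝ where
  toFun γ := Matrix.fromBlocks (Lm b hol γ) (um b hol γ) 0 1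
  map_one' := by
    have h1 : um b hol 1 = 0 := by
      ext i j
      show b.repr (hol 1 0) i = 0
      rw [map_one]
      show b.repr (0 : E) i = 0
      rw [map_zero]; rfl
    rw [h1, map_one, Matrix.fromBlocks_one]
  map_mul' γ δ := by
    rw [Matrix.fromBlocks_multiply]
    congr 1
    · rw [map_mul]; simp
    · ext i j
      rw [Matrix.add_apply, Matrix.mul_apply, Matrix.mul_one]
      have h1 : hol (γ * δ) 0 = hol γ (hol δ 0) := by rw [map_mul]; rfl
      show b.repr (hol (γ * δ) 0) i = ∑ j, Lm b hol γ i j * b.repr (hol δ 0) j + b.repr (hol γ 0) i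
      rw [h1, hol_repr]
    · simp
    · simp

/-- the linear holonomy is block triangular, with blocks `{0, 1}` and `{2}` -/
structure Blk (dd : Fin 3 → ℕ) : Prop where
  pos : ∀ i, 1 ≤ dd i
  eq01 : dd 0 = dd 1
  ne2 : dd 2 ≠ dd 0
  tri : ∀ (γ : Γ) (i j : Fin 3), dd i < dd j → Lm b hol γ i j = 0

variable {b hol} {dd : Fin 3 → ℕ}

theorem Blk.cases (h : Blk b hol dd) :
    (∀ γ, Lm b hol γ 2 0 = 0 ∧ Lm b hol γ 2 1 = 0) ∨
    (∀ γ, Lm b hol γ 0 2 = 0 ∧ Lm b hol γ 1 2 = 0) := by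
  rcases lt_or_gt_of_ne h.ne2 with h1 | h1
  · left
    exact fun γ => ⟨h.tri γ 2 0 h1, h.tri γ 2 1 (by rw [← h.eq01]; exact h1)⟩
  · right
    exact fun γ => ⟨h.tri γ 0 2 h1, h.tri γ 1 2 (by rw [← h.eq01]; exact h1)⟩

/-- the 2x2 block -/
noncomputable def Blk.Bm (h : Blk b hol dd) : Γ →* M2 where
  toFun γ := !![Lm b hol γ 0 0, Lm b hol γ 0 1; Lm b hol γ 1 0, Lm b hol γ 1 1]
  map_one' := by
    rw [map_one]
    ext i j
    fin_cases i <;> fin_cases j <;> simp
  map_mul' γ δ := by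
    rw [map_mul]
    rcases h.cases with h1 | h1
    · obtain ⟨h2, h3⟩ := h1 δ
      ext i j
      fin_cases i <;> fin_cases j <;>
        simp [Matrix.mul_apply, Fin.sum_univ_three, Fin.sum_univ_two, h2, h3]
    · obtain ⟨h2, h3⟩ := h1 γ
      ext i j
      fin_cases i <;> fin_cases j <;>
        simp [Matrix.mul_apply, Fin.sum_univ_three, Fin.sum_univ_two, h2, h3]

theorem Blk.Bm_apply (h : Blk b hol dd) (γ : Γ) : h.Bm γ =
    !![Lm b hol γ 0 0, Lm b hol γ 0 1; Lm b hol γ 1 0, Lm b hol γ 1 1] := rfl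

/-- the 1x1 block -/
noncomputable def Blk.Ch (h : Blk b hol dd) : Γ →* ℝ where
  toFun γ := Lm b hol γ 2 2
  map_one' := by
    rw [map_one]
    simp
  map_mul' γ δ := by
    rw [map_mul]
    rcases h.cases with h1 | h1
    · obtain ⟨h2, h3⟩ := h1 γ
      simp [Matrix.mul_apply, Fin.sum_univ_three, h2, h3]
    · obtain ⟨h2, h3⟩ := h1 δ
      simp [Matrix.mul_apply, Fin.sum_univ_three, h2, h3]

theorem Blk.Ch_apply (h : Blk b hol dd) (γ : Γ) : h.Ch γ = Lm b hol γ 2 2 := rfl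

theorem Blk.det_eq (h : Blk b hol dd) (γ : Γ) : (Lm b hol γ).det = (h.Bm γ).det * h.Ch γ := by
  rw [h.Bm_apply, h.Ch_apply, Matrix.det_fin_three, Matrix.det_fin_two_of]
  rcases h.cases with h1 | h1
  · obtain ⟨h2, h3⟩ := h1 γ
    rw [h2, h3]; ring
  · obtain ⟨h2, h3⟩ := h1 γ
    rw [h2, h3]; ring

end blk

section data
variable {X Γ E : Type} [TopologicalSpace X] [T2Space X] [SecondCountableTopology X] [Nonempty X]
  [Group Γ] [MulAction Γ X] [NormedAddCommGroup E] [NormedSpace ℝ E] [FiniteDimensional ℝ E]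
  {dev : X → E} {hol : Γ →* (E ≃ᵃ[ℝ] E)}

theorem freq_of_tendsto (D : AffData X Γ E dev hol) (hinj : Function.Injective dev) (x0 : X)
    {γ : ℕ → Γ} (h : Tendsto (fun k => hol (γ k) (dev x0)) atTop (𝓝 (dev x0))) :
    ∃ g : Γ, ∃ᶠ k in atTop, γ k = g := by
  have ho := D.loc.isOpenEmbedding_of_injective hinj
  have h1 : Tendsto (fun k => γ k • x0) atTop (𝓝 x0) := by
    rw [ho.isInducing.tendsto_nhds_iff]
    refine h.congr fun k => ?_
    exact (D.equi _ _).symm
  obtain ⟨N, hN, hNc⟩ := exists_cpt_nhd D x0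
  have h2 := D.pd N hNc
  have h3 : ∀ᶠ k in atTop, γ k ∈ {γ : Γ | ∃ x ∈ N, γ • x ∈ N} := by
    filter_upwards [h1.eventually_mem hN] with k hk
    exact ⟨x0, mem_of_mem_nhds hN, hk⟩
  by_contra hcon
  push Not at hcon
  have h4 : ∀ g : Γ, ∀ᶠ k in atTop, γ k ≠ g := fun g => hcon g
  have h5 : ∀ᶠ k in atTop, ∀ g ∈ {γ : Γ | ∃ x ∈ N, γ • x ∈ N}, γ k ≠ g :=
    (Filter.eventually_all_finite h2).2 fun g _ => h4 g
  obtain ⟨k, hk1, hk2⟩ := (h3.and h5).exists
  exact hk2 _ hk1 rfl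

theorem hol_tendsto (b : Module.Basis (Fin 3) ℝ E) {γ : ℕ → Γ}
    (h : ∀ i j, Tendsto (fun k => Mm b hol (γ k) i j) atTop
      (𝓝 ((1 : Matrix (Fin 3 ⊕ Unit) (Fin 3 ⊕ Unit) ℝ) i j))) (p : E) :
    Tendsto (fun k => hol (γ k) p) atTop (𝓝 p) := by
  have h1 : ∀ i, Tendsto (fun k => b.repr (hol (γ k) p) i) atTop (𝓝 (b.repr p i)) := by
    intro i
    have h2 : Tendsto (fun k => ∑ j, Lm b hol (γ k) i j * b.repr p j + b.repr (hol (γ k) 0) i)
        atTop (𝓝 (∑ j, (1 : M3) i j * b.repr p j + 0)) := by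
      refine (tendsto_finsetSum _ fun j _ => ?_).add ?_
      · have h3 := h (Sum.inl i) (Sum.inl j)
        have h4 : (1 : Matrix (Fin 3 ⊕ Unit) (Fin 3 ⊕ Unit) ℝ) (Sum.inl i) (Sum.inl j) =
            (1 : M3) i j := by
          simp [Matrix.one_apply]
        rw [h4] at h3
        exact h3.mul_const _
      · have h3 := h (Sum.inl i) (Sum.inr ())
        rw [Matrix.one_apply_ne (by simp)] at h3
        exact h3
    have h5 : ∑ j, (1 : M3) i j * b.repr p j + 0 = b.repr p i := by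
      simp [Matrix.one_apply]
    rw [h5] at h2
    exact h2.congr fun k => (hol_repr b hol (γ k) p i).symm
  have h6 : ∀ q : E, q = ∑ i, b.repr q i • b i := fun q => (b.sum_repr q).symm
  rw [h6 p]
  have h7 : (fun k => hol (γ k) (∑ i, b.repr p i • b i)) = fun k => ∑ i,
      b.repr (hol (γ k) p) i • b i := by
    funext k
    rw [← h6 p, ← h6 (hol (γ k) p)]
  rw [h7]
  exact tendsto_finsetSum _ fun i _ => (h1 i).smul_const _

variable {b : Module.Basis (Fin 3) ℝ E} {dd : Fin 3 → ℕ}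

theorem Blk.det_one (h : Blk b hol dd) (D : AffData X Γ E dev hol) (γ : Γ) :
    |(h.Bm γ).det * h.Ch γ| = 1 := by
  rw [← h.det_eq]
  show |(LinearMap.toMatrix b b ((hol γ).linear : E →ₗ[ℝ] E)).det| = 1
  rw [LinearMap.det_toMatrix]
  exact D.unimod γ

/-- the 2x2 blocks, up to scalars, form a discrete set -/
theorem Blk.disc (h : Blk b hol dd) (D : AffData X Γ E dev hol) (hinj : Function.Injective dev)
    (hNS : ∀ N : M2, N.trace = 0 → N ≠ 0 → ∃ g, ¬ Nz N (h.Bm g)) (C : ℝ) :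
    {P : M2 | (∃ γ, P = bar h.Bm γ) ∧ ‖P‖ ≤ C}.Finite := by
  refine Pool.Agent.Helper23M.disc h.Bm h.Ch hNS (ε := 1 / 100) (by norm_num) ?_ C
  intro g1 g2 hc1 hc2 hd1 hd2 hs1 hs2
  let d : Fin 3 ⊕ Unit → ℕ := Sum.elim dd fun _ => 0
  have hM : ∀ γ i j, d i < d j → Mm b hol γ i j = 0 := by
    rintro γ (i | i) (j | j) hij
    · exact h.tri γ i j hij
    · exact absurd hij (by simp [d])
    · rfl
    · exact absurd hij (by simp [d])
  have hgr : ∀ γ : Γ, h.Ch γ = 1 → (∀ i j, |h.Bm γ i j - (1 : M2) i j| < 1 / 100) →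
      ∀ i j, d i = d j → |Mm b hol γ i j -
        (1 : Matrix (Fin 3 ⊕ Unit) (Fin 3 ⊕ Unit) ℝ) i j| < 1 / 100 := by
    intro γ hc hs
    have h00 := hs 0 0
    have h01 := hs 0 1
    have h10 := hs 1 0
    have h11 := hs 1 1
    rintro (i | i) (j | j) hij
    · have h4 : (1 : Matrix (Fin 3 ⊕ Unit) (Fin 3 ⊕ Unit) ℝ) (Sum.inl i) (Sum.inl j) =
          (1 : M3) i j := by
        simp [Matrix.one_apply]
      rw [h4]
      show |Lm b hol γ i j - (1 : M3) i j| < 1 / 100
      have hij' : dd i = dd j := hij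
      have e01 := h.eq01
      have e2 := h.ne2
      fin_cases i <;> fin_cases j
      · simpa [h.Bm_apply] using h00
      · simpa [h.Bm_apply] using h01
      · exact absurd hij'.symm e2
      · simpa [h.Bm_apply] using h10
      · simpa [h.Bm_apply] using h11
      · exact absurd (hij'.symm.trans e01.symm) e2
      · exact absurd hij' e2
      · exact absurd (hij'.trans e01.symm) e2
      · show |Lm b hol γ 2 2 - (1 : M3) 2 2| < 1 / 100
        rw [← h.Ch_apply, hc, Matrix.one_apply_eq, sub_self, abs_zero]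
        norm_num
    · exfalso
      have h5 : dd i = 0 := hij
      have := h.pos i
      omega
    · exfalso
      have h5 : 0 = dd j := hij
      have := h.pos j
      omega
    · show |(1 : Matrix Unit Unit ℝ) i j - _| < 1 / 100
      simp
  have hlim := graded_zassenhaus d (Mm b hol) hM (ε := 1 / 100) (by norm_num)
    (by simp; norm_num) (hgr g1 hc1 hs1) (hgr g2 hc2 hs2)
  obtain ⟨x0⟩ := (inferInstance : Nonempty X)
  obtain ⟨g, hg⟩ := freq_of_tendsto D hinj x0 (hol_tendsto b hlim (dev x0))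
  obtain ⟨ψ, hψ, hψ'⟩ := extraction_of_frequently_atTop hg
  refine ⟨ψ 0, ?_⟩
  rw [hψ' 0]
  have h1 : ∀ i j : Fin 3, Lm b hol g i j = (1 : M3) i j := by
    intro i j
    have h2 := (hlim (Sum.inl i) (Sum.inl j)).comp hψ.tendsto_atTop
    have h4 : (1 : Matrix (Fin 3 ⊕ Unit) (Fin 3 ⊕ Unit) ℝ) (Sum.inl i) (Sum.inl j) =
        (1 : M3) i j := by
      simp [Matrix.one_apply]
    rw [h4] at h2
    refine tendsto_nhds_unique (tendsto_const_nhds.congr fun n => ?_) h2
    show _ = Mm b hol (it g1 g2 (ψ n)) (Sum.inl i) (Sum.inl j)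
    rw [hψ' n]
    rfl
  rw [h.Bm_apply, h1, h1, h1, h1]
  ext i j
  fin_cases i <;> fin_cases j <;> simp

end data

end Pool.Agent.Helper23M
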