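import Pool.Agent.Helper23M.Fix
import Pool.Agent.N520.RO.Plane

/-!
The case of an invariant plane.
-/

set_option autoImplicit false

open Set Filter Topology Metric
open Pool.Agent.W689.Mk

namespace Pool.Agent.Helper23M

section coord
variable {Γ E : Type} [Group Γ] [NormedAddCommGroup E] [NormedSpace ℝ E]
  (b : Module.Basis (Fin 3) ℝ E) (hol : Γ →* (E ≃ᵃ[ℝ] E))

/-- the last column of the linear part -/
noncomputable def sv (n : Γ) : Fin 2 → ℝ := ![Lm b hol n 0 2, Lm b hol n 1 2]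
/-- the first two coordinates of the translation part -/
noncomputable def wv (n : Γ) : Fin 2 → ℝ := ![b.repr (hol n 0) 0, b.repr (hol n 0) 1]
/-- the last coordinate of the translation part -/
noncomputable def rv (n : Γ) : ℝ := b.repr (hol n 0) 2
/-- the last row of the linear part -/
noncomputable def fv (n : Γ) : Fin 2 → ℝ := ![Lm b hol n 2 0, Lm b hol n 2 1]

variable {b hol}

theorem ext3 {p q : E} (h0 : b.repr p 0 = b.repr q 0) (h1 : b.repr p 1 = b.repr q 1)
    (h2 : b.repr p 2 = b.repr q 2) : p = q := by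
  apply b.repr.injective
  ext i
  fin_cases i
  · exact h0
  · exact h1
  · exact h2

theorem hol_mul_apply (γ δ : Γ) (p : E) : hol (γ * δ) p = hol γ (hol δ p) := by
  rw [map_mul]; rfl

theorem repr3 (γ : Γ) (p : E) (i : Fin 3) : b.repr (hol γ p) i =
    Lm b hol γ i 0 * b.repr p 0 + Lm b hol γ i 1 * b.repr p 1 + Lm b hol γ i 2 * b.repr p 2 +
      b.repr (hol γ 0) i := by
  rw [hol_repr, Fin.sum_univ_three]

theorem Lm_mul3 (γ δ : Γ) (i j : Fin 3) : Lm b hol (γ * δ) i j =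
    Lm b hol γ i 0 * Lm b hol δ 0 j + Lm b hol γ i 1 * Lm b hol δ 1 j +
      Lm b hol γ i 2 * Lm b hol δ 2 j := by
  rw [map_mul, Matrix.mul_apply, Fin.sum_univ_three]

theorem lin_repr (γ : Γ) (v : E) (i : Fin 3) : b.repr ((hol γ).linear v) i =
    Lm b hol γ i 0 * b.repr v 0 + Lm b hol γ i 1 * b.repr v 1 + Lm b hol γ i 2 * b.repr v 2 := by
  have h1 := congrFun (LinearMap.toMatrix_mulVec_repr b b ((hol γ).linear : E →ₗ[ℝ] E) v) i
  rw [Matrix.mulVec, dotProduct, Fin.sum_univ_three] at h1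
  exact h1.symm

variable {dd : Fin 3 → ℕ}

theorem Blk.conj_mem (h : Blk b hol dd) {n : Γ} (hn : n ∈ h.Ku) (γ : Γ) : γ * n * γ⁻¹ ∈ h.Ku := by
  obtain ⟨h1, h2⟩ := h.mem_Ku.1 hn
  refine ⟨?_, ?_⟩
  · show h.Bm (γ * n * γ⁻¹) = 1
    rw [map_mul, map_mul, h1, mul_one, B_mul_inv]
  · show h.Ch (γ * n * γ⁻¹) = 1
    rw [map_mul, map_mul, h2, mul_one, ← map_mul, mul_inv_cancel, map_one]

theorem Blk.comm_mem (h : Blk b hol dd) {n m : Γ} (hn : n ∈ h.Ku) (hm : m ∈ h.Ku) :
    n * m * n⁻¹ * m⁻¹ ∈ h.Ku :=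
  h.Ku.mul_mem (h.Ku.mul_mem (h.Ku.mul_mem hn hm) (h.Ku.inv_mem hn)) (h.Ku.inv_mem hm)

theorem Blk.ch_ne (h : Blk b hol dd) (γ : Γ) : h.Ch γ ≠ 0 := by
  intro h0
  have h1 : h.Ch γ * h.Ch γ⁻¹ = 1 := by rw [← map_mul, mul_inv_cancel, map_one]
  rw [h0, zero_mul] at h1
  exact zero_ne_one h1

end coord

section one
variable {Γ E : Type} [Group Γ] [NormedAddCommGroup E] [NormedSpace ℝ E]
  {b : Module.Basis (Fin 3) ℝ E} {hol : Γ →* (E ≃ᵃ[ℝ] E)} {dd : Fin 3 → ℕ}

/-- the first case -/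
def One (b : Module.Basis (Fin 3) ℝ E) (hol : Γ →* (E ≃ᵃ[ℝ] E)) : Prop :=
  ∀ γ, Lm b hol γ 2 0 = 0 ∧ Lm b hol γ 2 1 = 0

theorem one_mul' (h : Blk b hol dd) (h1 : One b hol) {n m : Γ} (hn : n ∈ h.Ku) (hm : m ∈ h.Ku) :
    sv b hol (n * m) = sv b hol n + sv b hol m ∧ rv b hol (n * m) = rv b hol n + rv b hol m ∧
      wv b hol (n * m) = wv b hol m + rv b hol m • sv b hol n + wv b hol n := by
  obtain ⟨a1, a2, a3, a4, a5⟩ := h.entries hn
  obtain ⟨b1, b2, b3, b4, b5⟩ := h.entries hm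
  obtain ⟨c1, c2⟩ := h1 n
  refine ⟨?_, ?_, ?_⟩
  · ext i
    fin_cases i
    · show Lm b hol (n * m) 0 2 = Lm b hol n 0 2 + Lm b hol m 0 2
      rw [Lm_mul3, a1, a2, b5]; ring
    · show Lm b hol (n * m) 1 2 = Lm b hol n 1 2 + Lm b hol m 1 2
      rw [Lm_mul3, a3, a4, b5]; ring
  · show b.repr (hol (n * m) 0) 2 = b.repr (hol n 0) 2 + b.repr (hol m 0) 2
    rw [hol_mul_apply, repr3, a5, c1, c2]; ring
  · ext i
    fin_cases i
    · show b.repr (hol (n * m) 0) 0 = b.repr (hol m 0) 0 + b.repr (hol m 0) 2 * Lm b hol n 0 2 +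
        b.repr (hol n 0) 0
      rw [hol_mul_apply, repr3, a1, a2]; ring
    · show b.repr (hol (n * m) 0) 1 = b.repr (hol m 0) 1 + b.repr (hol m 0) 2 * Lm b hol n 1 2 +
        b.repr (hol n 0) 1
      rw [hol_mul_apply, repr3, a3, a4]; ring

theorem one_conj (h : Blk b hol dd) (h1 : One b hol) {n : Γ} (hn : n ∈ h.Ku) (γ : Γ) :
    h.Ch γ • sv b hol (γ * n * γ⁻¹) = (h.Bm γ).mulVec (sv b hol n) ∧
    rv b hol (γ * n * γ⁻¹) = h.Ch γ * rv b hol n ∧
    (h.Bm γ).mulVec (wv b hol n) + rv b hol n • sv b hol γ =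
      rv b hol γ • sv b hol (γ * n * γ⁻¹) + wv b hol (γ * n * γ⁻¹) := by
  obtain ⟨a1, a2, a3, a4, a5⟩ := h.entries hn
  have hn' := h.conj_mem hn γ
  obtain ⟨m, hm⟩ : ∃ m, m = γ * n * γ⁻¹ := ⟨_, rfl⟩
  rw [← hm] at hn' ⊢
  obtain ⟨b1, b2, b3, b4, b5⟩ := h.entries hn'
  have he : m * γ = γ * n := by rw [hm]; group
  have hL : ∀ i j, Lm b hol (m * γ) i j = Lm b hol (γ * n) i j := fun i j => by rw [he]
  have hT : ∀ i, b.repr (hol (m * γ) 0) i = b.repr (hol (γ * n) 0) i := fun i => by rw [he]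
  obtain ⟨c1, c2⟩ := h1 γ
  obtain ⟨d1, d2⟩ := h1 m
  obtain ⟨e1, e2⟩ := h1 n
  refine ⟨?_, ?_, ?_⟩
  · ext i
    fin_cases i
    · show Lm b hol γ 2 2 * Lm b hol m 0 2 = (h.Bm γ).mulVec (sv b hol n) 0
      rw [Matrix.mulVec, dotProduct, Fin.sum_univ_two]
      show _ = Lm b hol γ 0 0 * Lm b hol n 0 2 + Lm b hol γ 0 1 * Lm b hol n 1 2
      have := hL 0 2
      rw [Lm_mul3, Lm_mul3, b1, b2, a5] at this
      linear_combination this
    · show Lm b hol γ 2 2 * Lm b hol m 1 2 = (h.Bm γ).mulVec (sv b hol n) 1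
      rw [Matrix.mulVec, dotProduct, Fin.sum_univ_two]
      show _ = Lm b hol γ 1 0 * Lm b hol n 0 2 + Lm b hol γ 1 1 * Lm b hol n 1 2
      have := hL 1 2
      rw [Lm_mul3, Lm_mul3, b3, b4, a5] at this
      linear_combination this
  · show b.repr (hol m 0) 2 = Lm b hol γ 2 2 * b.repr (hol n 0) 2
    have := hT 2
    rw [hol_mul_apply, hol_mul_apply, repr3 m, repr3 γ (hol n 0), b5, c1, c2, d1, d2] at this
    linear_combination this
  · ext i
    fin_cases i
    · show (h.Bm γ).mulVec (wv b hol n) 0 + b.repr (hol n 0) 2 * Lm b hol γ 0 2 =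
        b.repr (hol γ 0) 2 * Lm b hol m 0 2 + b.repr (hol m 0) 0
      rw [Matrix.mulVec, dotProduct, Fin.sum_univ_two]
      show Lm b hol γ 0 0 * b.repr (hol n 0) 0 + Lm b hol γ 0 1 * b.repr (hol n 0) 1 +
        b.repr (hol n 0) 2 * Lm b hol γ 0 2 =
        b.repr (hol γ 0) 2 * Lm b hol m 0 2 + b.repr (hol m 0) 0
      have := hT 0
      rw [hol_mul_apply, hol_mul_apply, repr3 m, repr3 γ (hol n 0), b1, b2] at this
      linear_combination -this
    · show (h.Bm γ).mulVec (wv b hol n) 1 + b.repr (hol n 0) 2 * Lm b hol γ 1 2 =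
        b.repr (hol γ 0) 2 * Lm b hol m 1 2 + b.repr (hol m 0) 1
      rw [Matrix.mulVec, dotProduct, Fin.sum_univ_two]
      show Lm b hol γ 1 0 * b.repr (hol n 0) 0 + Lm b hol γ 1 1 * b.repr (hol n 0) 1 +
        b.repr (hol n 0) 2 * Lm b hol γ 1 2 =
        b.repr (hol γ 0) 2 * Lm b hol m 1 2 + b.repr (hol m 0) 1
      have := hT 1
      rw [hol_mul_apply, hol_mul_apply, repr3 m, repr3 γ (hol n 0), b3, b4] at this
      linear_combination -this

theorem one_comm (h : Blk b hol dd) (h1 : One b hol) {n m : Γ} (hn : n ∈ h.Ku) (hm : m ∈ h.Ku) :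
    sv b hol (n * m * n⁻¹ * m⁻¹) = 0 ∧ rv b hol (n * m * n⁻¹ * m⁻¹) = 0 ∧
      wv b hol (n * m * n⁻¹ * m⁻¹) = rv b hol m • sv b hol n - rv b hol n • sv b hol m := by
  have hk := h.comm_mem hn hm
  set k := n * m * n⁻¹ * m⁻¹ with hk'
  have he : k * (m * n) = n * m := by rw [hk']; group
  obtain ⟨p1, p2, p3⟩ := one_mul' h h1 hk (h.Ku.mul_mem hm hn)
  rw [he] at p1 p2 p3
  obtain ⟨q1, q2, q3⟩ := one_mul' h h1 hn hm
  obtain ⟨r1, r2, r3⟩ := one_mul' h h1 hm hn
  have s1 : sv b hol k = 0 := by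
    have : sv b hol k = sv b hol (n * m) - sv b hol (m * n) := by rw [p1]; abel
    rw [this, q1, r1]; abel
  refine ⟨s1, ?_, ?_⟩
  · have : rv b hol k = rv b hol (n * m) - rv b hol (m * n) := by rw [p2]; ring
    rw [this, q2, r2]; ring
  · have : wv b hol k = wv b hol (n * m) - wv b hol (m * n) := by
      rw [p3, s1, smul_zero, add_zero]; abel
    rw [this, q3, r3]; abel

/-- elements without `s`, `r` and `w` are trivial -/
theorem one_triv (h : Blk b hol dd) (h1 : One b hol) {n : Γ} (hn : n ∈ h.Ku)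
    (hs : sv b hol n = 0) (hr : rv b hol n = 0) (hw : wv b hol n = 0) (p : E) : hol n p = p := by
  obtain ⟨a1, a2, a3, a4, a5⟩ := h.entries hn
  obtain ⟨c1, c2⟩ := h1 n
  have s0 : Lm b hol n 0 2 = 0 := congrFun hs 0
  have s1 : Lm b hol n 1 2 = 0 := congrFun hs 1
  have w0 : b.repr (hol n 0) 0 = 0 := congrFun hw 0
  have w1 : b.repr (hol n 0) 1 = 0 := congrFun hw 1
  have r0 : b.repr (hol n 0) 2 = 0 := hr
  refine ext3 (b := b) ?_ ?_ ?_
  · rw [repr3, a1, a2, s0, w0]; ring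
  · rw [repr3, a3, a4, s1, w1]; ring
  · rw [repr3, c1, c2, a5, r0]; ring

/-- elements without `s` are translations -/
theorem one_trans (h : Blk b hol dd) (h1 : One b hol) {n : Γ} (hn : n ∈ h.Ku)
    (hs : sv b hol n = 0) (p : E) : hol n p = p + hol n 0 := by
  obtain ⟨a1, a2, a3, a4, a5⟩ := h.entries hn
  obtain ⟨c1, c2⟩ := h1 n
  have s0 : Lm b hol n 0 2 = 0 := congrFun hs 0
  have s1 : Lm b hol n 1 2 = 0 := congrFun hs 1
  refine ext3 (b := b) ?_ ?_ ?_
  · rw [repr3, a1, a2, s0, map_add, Finsupp.add_apply]; ring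
  · rw [repr3, a3, a4, s1, map_add, Finsupp.add_apply]; ring
  · rw [repr3, c1, c2, a5, map_add, Finsupp.add_apply]; ring

/-- unipotent elements fix the vectors of the plane -/
theorem one_fix (h : Blk b hol dd) (h1 : One b hol) {n : Γ} (hn : n ∈ h.Ku) {v : E}
    (hv : b.repr v 2 = 0) : (hol n).linear v = v := by
  obtain ⟨a1, a2, a3, a4, a5⟩ := h.entries hn
  obtain ⟨c1, c2⟩ := h1 n
  refine ext3 (b := b) ?_ ?_ ?_
  · rw [lin_repr, a1, a2, hv]; ring
  · rw [lin_repr, a3, a4, hv]; ring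
  · rw [lin_repr, c1, c2, hv]; ring

theorem one_orb (h : Blk b hol dd) (h1 : One b hol) {n : Γ} (hn : n ∈ h.Ku) (p : E) :
    b.repr (orb hol p n) 2 = rv b hol n := by
  obtain ⟨a1, a2, a3, a4, a5⟩ := h.entries hn
  obtain ⟨c1, c2⟩ := h1 n
  unfold orb rv
  rw [map_sub, Finsupp.sub_apply, repr3, c1, c2, a5]
  ring

end one

/-- the plane of the first two coordinates -/
noncomputable def pl {E : Type} [NormedAddCommGroup E] [NormedSpace ℝ E]
    (b : Module.Basis (Fin 3) ℝ E) : Submodule ℝ E := LinearMap.ker (b.coord 2)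

theorem mem_pl {E : Type} [NormedAddCommGroup E] [NormedSpace ℝ E]
    {b : Module.Basis (Fin 3) ℝ E} {v : E} : v ∈ pl b ↔ b.repr v 2 = 0 := Iff.rfl

theorem finrank_pl {E : Type} [NormedAddCommGroup E] [NormedSpace ℝ E] [FiniteDimensional ℝ E]
    (b : Module.Basis (Fin 3) ℝ E) : Module.finrank ℝ (pl b) = 2 := by
  have h1 := LinearMap.finrank_range_add_finrank_ker (b.coord 2)
  have h2 : LinearMap.range (b.coord 2) = ⊤ := by
    rw [LinearMap.range_eq_top]
    intro t
    exact ⟨t • b 2, by simp⟩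
  rw [h2, finrank_top, finrank_three b, Module.finrank_self] at h1
  unfold pl
  omega

section data
variable {X Γ E : Type} [TopologicalSpace X] [T2Space X] [SecondCountableTopology X]
  [Group Γ] [MulAction Γ X] [NormedAddCommGroup E] [NormedSpace ℝ E] [FiniteDimensional ℝ E]
  {dev : X → E} {hol : Γ →* (E ≃ᵃ[ℝ] E)} {b : Module.Basis (Fin 3) ℝ E} {dd : Fin 3 → ℕ}

/-- translations along the plane make the quotient character trivial -/
theorem one_TW (h : Blk b hol dd) (h1 : One b hol) [Nonempty X] (D : AffData X Γ E dev hol)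
    (hinj : Function.Injective dev) (hV : ¬ VS hol)
    (hT : ∃ n ∈ h.Ku, sv b hol n = 0 ∧ rv b hol n = 0 ∧ wv b hol n ≠ 0) (γ : Γ) :
    |h.Ch γ| = 1 := by
  obtain ⟨x0⟩ := (inferInstance : Nonempty X)
  let K : Subgroup Γ :=
    { carrier := {n | n ∈ h.Ku ∧ sv b hol n = 0 ∧ rv b hol n = 0}
      mul_mem' := by
        rintro n m ⟨hn, s1, r1⟩ ⟨hm, s2, r2⟩
        obtain ⟨p1, p2, -⟩ := one_mul' h h1 hn hm
        exact ⟨h.Ku.mul_mem hn hm, by rw [p1, s1, s2, add_zero], by rw [p2, r1, r2, add_zero]⟩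
      one_mem' := by
        obtain ⟨p1, p2, -⟩ := one_mul' h h1 h.Ku.one_mem h.Ku.one_mem
        rw [mul_one] at p1 p2
        exact ⟨h.Ku.one_mem, by simpa using p1, by simpa using p2⟩
      inv_mem' := by
        rintro n ⟨hn, s1, r1⟩
        obtain ⟨p1, p2, -⟩ := one_mul' h h1 hn (h.Ku.inv_mem hn)
        obtain ⟨q1, q2, -⟩ := one_mul' h h1 h.Ku.one_mem h.Ku.one_mem
        rw [mul_one] at q1 q2
        rw [mul_inv_cancel, s1, zero_add] at p1
        rw [mul_inv_cancel, r1, zero_add] at p2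
        exact ⟨h.Ku.inv_mem hn, by rw [← p1]; simpa using q1, by rw [← p2]; simpa using q2⟩ }
  have hKm : ∀ n, n ∈ K ↔ n ∈ h.Ku ∧ sv b hol n = 0 ∧ rv b hol n = 0 := fun n => Iff.rfl
  have hf : ∀ n ∈ K, ∀ m ∈ K, orb hol (dev x0) (n * m) =
      orb hol (dev x0) n + orb hol (dev x0) m := by
    intro n hn m hm
    apply orb_mul
    apply one_fix h h1 hn.1
    rw [one_orb h h1 hm.1, hm.2.2]
  have hσ : ∀ n ∈ K, ∀ m ∈ K, wv b hol (n * m) = wv b hol n + wv b hol m := by
    intro n hn m hm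
    obtain ⟨-, -, p3⟩ := one_mul' h h1 hn.1 hm.1
    rw [p3, hn.2.1, smul_zero, add_zero, add_comm]
  have hconj : ∀ (g : Γ), ∀ n ∈ K, g * n * g⁻¹ ∈ K ∧
      (h.Bm g).mulVec (wv b hol n) = wv b hol (g * n * g⁻¹) := by
    intro g n hn
    obtain ⟨p1, p2, p3⟩ := one_conj h h1 hn.1 g
    rw [hn.2.1, Matrix.mulVec_zero] at p1
    have s1 := (smul_eq_zero.1 p1).resolve_left (h.ch_ne g)
    rw [hn.2.2, mul_zero] at p2
    rw [hn.2.2, zero_smul, add_zero, s1, smul_zero, zero_add] at p3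
    exact ⟨⟨h.conj_mem hn.1 g, s1, p2⟩, p3⟩
  have hspan : Submodule.span ℝ (wv b hol '' K) = ⊤ := by
    apply h.span_top hV
    · rintro g _ ⟨n, hn, rfl⟩
      obtain ⟨q1, q2⟩ := hconj g n hn
      exact ⟨1, _, ⟨_, q1, rfl⟩, by rw [one_smul, q2]⟩
    · obtain ⟨n, hn, hs, hr, hw⟩ := hT
      exact ⟨_, ⟨n, ⟨hn, hs, hr⟩, rfl⟩, hw⟩
  have hd := det_of_conj K (orb hol (dev x0)) (wv b hol) hf hσ (orb_inj D hinj x0 K _ hσ)
    (orb_disc D hinj x0 K hf) hspan (by
      have h2 : Submodule.span ℝ (orb hol (dev x0) '' K) ≤ pl b := by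
        rw [Submodule.span_le]
        rintro _ ⟨n, hn, rfl⟩
        show b.repr (orb hol (dev x0) n) 2 = 0
        rw [one_orb h h1 hn.1, hn.2.2]
      have h3 := Submodule.finrank_mono h2
      rw [finrank_pl] at h3
      simpa using h3)
    (Matrix.toLin' (h.Bm γ)) (Matrix.toLin' (h.Bm γ⁻¹))
    (fun n hn => ⟨γ * n * γ⁻¹, (hconj γ n hn).1, by
      rw [Matrix.toLin'_apply, (hconj γ n hn).2]⟩)
    (fun n hn => ⟨γ⁻¹ * n * γ⁻¹⁻¹, (hconj γ⁻¹ n hn).1, by
      rw [Matrix.toLin'_apply, (hconj γ⁻¹ n hn).2]⟩)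
    (fun v => by
      rw [Matrix.toLin'_apply, Matrix.toLin'_apply, Matrix.mulVec_mulVec, B_mul_inv,
        Matrix.one_mulVec])
  rw [LinearMap.det_toLin'] at hd
  have h2 := h.det_one D γ
  rw [abs_mul, hd, one_mul] at h2
  exact h2

/-- the case of the first type: the character of the quotient is trivial -/
theorem one_ch (h : Blk b hol dd) (h1 : One b hol) [Nonempty X] (D : AffData X Γ E dev hol)
    (hinj : Function.Injective dev) (hV : ¬ VS hol) (γ : Γ) :
    |h.Ch γ| = 1 := by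
  by_cases hT : ∃ n ∈ h.Ku, sv b hol n = 0 ∧ rv b hol n = 0 ∧ wv b hol n ≠ 0
  · exact one_TW h h1 D hinj hV hT γ
  push Not at hT
  obtain ⟨x0⟩ := (inferInstance : Nonempty X)
  obtain ⟨n1, hn1, p1, hp1⟩ := h.exists_unip D hinj hV
  have hcomm : ∀ n ∈ h.Ku, ∀ m ∈ h.Ku, rv b hol m • sv b hol n = rv b hol n • sv b hol m := by
    intro n hn m hm
    obtain ⟨q1, q2, q3⟩ := one_comm h h1 hn hm
    have h2 := hT _ (h.comm_mem hn hm) q1 q2
    rw [q3] at h2
    exact sub_eq_zero.1 h2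
  have hσ : ∀ n ∈ h.Ku, ∀ m ∈ h.Ku, sv b hol (n * m) = sv b hol n + sv b hol m :=
    fun n hn m hm => (one_mul' h h1 hn hm).1
  by_cases hr : ∀ n ∈ h.Ku, rv b hol n = 0
  · -- all elements preserve the leaves
    have hf : ∀ n ∈ h.Ku, ∀ m ∈ h.Ku, orb hol (dev x0) (n * m) =
        orb hol (dev x0) n + orb hol (dev x0) m := by
      intro n hn m hm
      apply orb_mul
      apply one_fix h h1 hn
      rw [one_orb h h1 hm, hr m hm]
    have hconj : ∀ (g : Γ), ∀ n ∈ h.Ku, ((h.Ch g)⁻¹ • h.Bm g).mulVec (sv b hol n) =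
        sv b hol (g * n * g⁻¹) := by
      intro g n hn
      obtain ⟨p1, -, -⟩ := one_conj h h1 hn g
      rw [Matrix.smul_mulVec, ← p1, smul_smul, inv_mul_cancel₀ (h.ch_ne g), one_smul]
    have hspan : Submodule.span ℝ (sv b hol '' h.Ku) = ⊤ := by
      apply h.span_top hV
      · rintro g _ ⟨n, hn, rfl⟩
        exact ⟨h.Ch g, _, ⟨_, h.conj_mem hn g, rfl⟩, (one_conj h h1 hn g).1.symm⟩
      · refine ⟨_, ⟨n1, hn1, rfl⟩, fun h0 => hp1 ?_⟩
        exact one_triv h h1 hn1 h0 (hr _ hn1) (hT n1 hn1 h0 (hr _ hn1)) p1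
    have hd := det_of_conj h.Ku (orb hol (dev x0)) (sv b hol) hf hσ
      (orb_inj D hinj x0 h.Ku _ hσ) (orb_disc D hinj x0 h.Ku hf) hspan (by
        have h2 : Submodule.span ℝ (orb hol (dev x0) '' h.Ku) ≤ pl b := by
          rw [Submodule.span_le]
          rintro _ ⟨n, hn, rfl⟩
          show b.repr (orb hol (dev x0) n) 2 = 0
          rw [one_orb h h1 hn, hr n hn]
        have h3 := Submodule.finrank_mono h2
        rw [finrank_pl] at h3
        simpa using h3)
      (Matrix.toLin' ((h.Ch γ)⁻¹ • h.Bm γ)) (Matrix.toLin' ((h.Ch γ⁻¹)⁻¹ • h.Bm γ⁻¹))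
      (fun n hn => ⟨γ * n * γ⁻¹, h.conj_mem hn γ, by
        rw [Matrix.toLin'_apply, hconj γ n hn]⟩)
      (fun n hn => ⟨γ⁻¹ * n * γ⁻¹⁻¹, h.conj_mem hn γ⁻¹, by
        rw [Matrix.toLin'_apply, hconj γ⁻¹ n hn]⟩)
      (fun v => by
        rw [Matrix.toLin'_apply, Matrix.toLin'_apply, Matrix.mulVec_mulVec, Matrix.smul_mul,
          Matrix.mul_smul, B_mul_inv, smul_smul, ← mul_inv, ← map_mul, mul_inv_cancel, map_one,
          inv_one, one_smul, Matrix.one_mulVec])
    rw [LinearMap.det_toLin', Matrix.det_smul, Fintype.card_fin, abs_mul, abs_pow, abs_inv] at hd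
    have h2 := h.det_one D γ
    rw [abs_mul] at h2
    have h3 : |h.Ch γ| ≠ 0 := abs_ne_zero.2 (h.ch_ne γ)
    have h4 : |(h.Bm γ).det| = |h.Ch γ| ^ 2 := by
      field_simp at hd
      exact hd
    rw [h4] at h2
    have h5 : |h.Ch γ| ^ 3 = 1 := by rw [← h2]; ring
    exact (pow_eq_one_iff_of_nonneg (abs_nonneg _) (by norm_num)).1 h5
  · push Not at hr
    obtain ⟨n0, hn0, hr0⟩ := hr
    -- the elements are translations
    have hs0 : sv b hol n0 = 0 := by
      by_contra hs0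
      obtain ⟨g, hg⟩ := h.irr hV hs0
      apply hg
      obtain ⟨q1, q2, -⟩ := one_conj h h1 hn0 g
      have h2 := hcomm _ (h.conj_mem hn0 g) _ hn0
      rw [q2] at h2
      refine ⟨h.Ch g * h.Ch g, ?_⟩
      rw [← q1, mul_smul]
      congr 1
      have h3 : rv b hol n0 • (sv b hol (g * n0 * g⁻¹)) = rv b hol n0 • (h.Ch g • sv b hol n0) := by
        rw [h2, smul_smul, mul_comm]
      exact smul_right_injective _ hr0 h3
    have hs : ∀ n ∈ h.Ku, sv b hol n = 0 := by
      intro n hn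
      have h2 := hcomm n hn n0 hn0
      rw [hs0, smul_zero] at h2
      exact (smul_eq_zero.1 h2).resolve_left hr0
    have htr : ∀ n ∈ h.Ku, ∀ p, hol n p = p + hol n 0 := fun n hn p => one_trans h h1 hn (hs n hn) p
    set P := Submodule.span ℝ ((fun n => hol n 0) '' (h.Ku : Set Γ)) with hP
    have hPtop : P ≠ ⊤ := fun h0 => hV (h.vs_of_span D hinj htr h0)
    have hPinv : ∀ g : Γ, ∀ v ∈ P, (hol g).linear v ∈ P := by
      intro g v hv
      have h2 : P ≤ P.comap ((hol g).linear : E →ₗ[ℝ] E) := by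
        rw [hP, Submodule.span_le]
        rintro _ ⟨n, hn, rfl⟩
        refine Submodule.subset_span ⟨g * n * g⁻¹, h.conj_mem hn g, ?_⟩
        show hol (g * n * g⁻¹) 0 = (hol g).linear (hol n 0)
        have h3 := htr _ (h.conj_mem hn g) (hol g 0)
        rw [← hol_mul_apply, inv_mul_cancel_right, hol_mul_apply] at h3
        have h4 := hol_add (hol := hol) g 0 (hol n 0)
        rw [zero_add] at h4
        rw [h4] at h3
        exact (add_left_cancel h3).symm
      exact h2 hv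
    have h0P : hol n0 0 ∈ P := Submodule.subset_span ⟨n0, hn0, rfl⟩
    -- the intersection with the plane
    have hPW : ∀ v ∈ P, b.repr v 2 = 0 → v = 0 := by
      intro v hv hv2
      by_contra hv0
      apply hPtop
      have h2 : Submodule.span ℝ {u : Fin 2 → ℝ | ∃ v ∈ P, b.repr v 2 = 0 ∧
          u = ![b.repr v 0, b.repr v 1]} = ⊤ := by
        apply h.span_top hV
        · rintro g _ ⟨v, hv, hv2, rfl⟩
          refine ⟨1, _, ⟨(hol g).linear v, hPinv g v hv, ?_, rfl⟩, ?_⟩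
          · rw [lin_repr, (h1 g).1, (h1 g).2, hv2]; ring
          · rw [one_smul]
            ext i
            fin_cases i
            · show (h.Bm g).mulVec _ 0 = b.repr ((hol g).linear v) 0
              rw [lin_repr, hv2, Matrix.mulVec, dotProduct, Fin.sum_univ_two]
              show Lm b hol g 0 0 * b.repr v 0 + Lm b hol g 0 1 * b.repr v 1 = _
              ring
            · show (h.Bm g).mulVec _ 1 = b.repr ((hol g).linear v) 1
              rw [lin_repr, hv2, Matrix.mulVec, dotProduct, Fin.sum_univ_two]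
              show Lm b hol g 1 0 * b.repr v 0 + Lm b hol g 1 1 * b.repr v 1 = _
              ring
        · refine ⟨_, ⟨v, hv, hv2, rfl⟩, fun h0 => hv0 ?_⟩
          have e0 := congrFun h0 0
          have e1 := congrFun h0 1
          have hz : b.repr (0 : E) = 0 := map_zero _
          refine ext3 (b := b) ?_ ?_ ?_
          · rw [hz]; exact e0
          · rw [hz]; exact e1
          · rw [hz]; exact hv2
      have h3 : ∀ u ∈ Submodule.span ℝ {u : Fin 2 → ℝ | ∃ v ∈ P, b.repr v 2 = 0 ∧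
          u = ![b.repr v 0, b.repr v 1]}, u 0 • b 0 + u 1 • b 1 ∈ P := by
        intro u hu
        induction hu using Submodule.span_induction with
        | mem u hu =>
          obtain ⟨v, hv, hv2, rfl⟩ := hu
          have : b.repr v 0 • b 0 + b.repr v 1 • b 1 = v := by
            conv_rhs => rw [← b.sum_repr v, Fin.sum_univ_three, hv2, zero_smul, add_zero]
          show b.repr v 0 • b 0 + b.repr v 1 • b 1 ∈ P
          rw [this]; exact hv
        | zero => simp
        | add u v _ _ h1 h2 =>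
          have : (u + v) 0 • b 0 + (u + v) 1 • b 1 =
              (u 0 • b 0 + u 1 • b 1) + (v 0 • b 0 + v 1 • b 1) := by
            rw [Pi.add_apply, Pi.add_apply, add_smul, add_smul]; abel
          rw [this]
          exact Submodule.add_mem _ h1 h2
        | smul t u _ h1 =>
          have : (t • u) 0 • b 0 + (t • u) 1 • b 1 = t • (u 0 • b 0 + u 1 • b 1) := by
            rw [Pi.smul_apply, Pi.smul_apply, smul_add, smul_smul, smul_smul]; rfl
          rw [this]
          exact Submodule.smul_mem _ _ h1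
      rw [h2] at h3
      have hb0 : b 0 ∈ P := by
        have := h3 ![1, 0] Submodule.mem_top
        simpa using this
      have hb1 : b 1 ∈ P := by
        have := h3 ![0, 1] Submodule.mem_top
        simpa using this
      have hb2 : b 2 ∈ P := by
        have e : hol n0 0 = b.repr (hol n0 0) 0 • b 0 + b.repr (hol n0 0) 1 • b 1 +
            b.repr (hol n0 0) 2 • b 2 := by
          conv_lhs => rw [← b.sum_repr (hol n0 0), Fin.sum_univ_three]
        have h5 : b.repr (hol n0 0) 2 • b 2 ∈ P := by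
          have h6 : b.repr (hol n0 0) 2 • b 2 = hol n0 0 - (b.repr (hol n0 0) 0 • b 0 +
              b.repr (hol n0 0) 1 • b 1) := by
            conv_rhs => rw [e]
            simp
          rw [h6]
          exact Submodule.sub_mem _ h0P (Submodule.add_mem _ (Submodule.smul_mem _ _ hb0)
            (Submodule.smul_mem _ _ hb1))
        exact (Submodule.smul_mem_iff _ hr0).1 h5
      rw [eq_top_iff, ← b.span_eq, Submodule.span_le]
      rintro _ ⟨i, rfl⟩
      fin_cases i
      · exact hb0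
      · exact hb1
      · exact hb2
    -- the line
    have hP1 : Module.finrank ℝ P ≤ 1 := by
      have h2 : Function.Injective ((b.coord 2).comp P.subtype) := by
        rw [← LinearMap.ker_eq_bot, LinearMap.ker_eq_bot']
        intro v hv
        apply Subtype.ext
        exact hPW v v.2 hv
      have h3 := LinearMap.finrank_le_finrank_of_injective h2
      rwa [Module.finrank_self] at h3
    have hf : ∀ n ∈ h.Ku, ∀ m ∈ h.Ku, orb hol (dev x0) (n * m) =
        orb hol (dev x0) n + orb hol (dev x0) m := by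
      intro n hn m hm
      unfold orb
      rw [htr n hn (dev x0), htr m hm (dev x0), hol_mul_apply, htr m hm (dev x0),
        htr n hn (dev x0 + hol m 0)]
      abel
    have hσ' : ∀ n ∈ h.Ku, ∀ m ∈ h.Ku, rv b hol (n * m) = rv b hol n + rv b hol m :=
      fun n hn m hm => (one_mul' h h1 hn hm).2.1
    have hconj : ∀ (g : Γ), ∀ n ∈ h.Ku, h.Ch g * rv b hol n = rv b hol (g * n * g⁻¹) :=
      fun g n hn => (one_conj h h1 hn g).2.1.symm
    have hspan : Submodule.span ℝ (rv b hol '' h.Ku) = ⊤ := by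
      rw [eq_top_iff]
      intro t _
      have : t = (t / rv b hol n0) • rv b hol n0 := by
        rw [smul_eq_mul, div_mul_cancel₀ _ hr0]
      rw [this]
      exact Submodule.smul_mem _ _ (Submodule.subset_span ⟨n0, hn0, rfl⟩)
    have hd := det_of_conj h.Ku (orb hol (dev x0)) (rv b hol) hf hσ'
      (orb_inj D hinj x0 h.Ku _ hσ') (orb_disc D hinj x0 h.Ku hf) hspan (by
        have h2 : Submodule.span ℝ (orb hol (dev x0) '' h.Ku) ≤ P := by
          rw [Submodule.span_le]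
          rintro _ ⟨n, hn, rfl⟩
          have : orb hol (dev x0) n = hol n 0 := by
            unfold orb
            rw [htr n hn (dev x0)]; abel
          rw [SetLike.mem_coe, this]
          exact Submodule.subset_span ⟨n, hn, rfl⟩
        have h3 := Submodule.finrank_mono h2
        rw [Module.finrank_self]
        omega)
      (LinearMap.mulLeft ℝ (h.Ch γ)) (LinearMap.mulLeft ℝ (h.Ch γ⁻¹))
      (fun n hn => ⟨γ * n * γ⁻¹, h.conj_mem hn γ, hconj γ n hn⟩)
      (fun n hn => ⟨γ⁻¹ * n * γ⁻¹⁻¹, h.conj_mem hn γ⁻¹, hconj γ⁻¹ n hn⟩)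
      (fun v => by
        rw [LinearMap.mulLeft_apply, LinearMap.mulLeft_apply, ← mul_assoc, ← map_mul,
          mul_inv_cancel, map_one, one_mul])
    rw [LinearMap.det_ring, LinearMap.mulLeft_apply, mul_one] at hd
    exact hd

/-- the kernel of a character with values `± 1` has finite index -/
theorem ker_finiteIndex {G : Type} [Group G] (χ : G →* ℝ) (h : ∀ g, |χ g| = 1) :
    χ.ker.FiniteIndex := by
  have h2 : (range χ).Finite := by
    refine (Set.toFinite {(1 : ℝ), -1}).subset ?_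
    rintro _ ⟨g, rfl⟩
    rcases eq_or_eq_neg_of_abs_eq (h g) with h1 | h1
    · exact Or.inl h1
    · exact Or.inr h1
  have : Finite (range χ) := h2
  have h3 : Finite (G ⧸ χ.ker) := by
    refine Finite.of_injective (β := range χ) (fun q => Quotient.liftOn' q (fun g => ⟨χ g, g, rfl⟩)
      ?_) ?_
    · intro g g' hg
      have h4 := QuotientGroup.leftRel_apply.1 hg
      apply Subtype.ext
      show χ g = χ g'
      have h5 : χ g' = χ g * χ (g⁻¹ * g') := by rw [← map_mul]; congr 1; group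
      rw [h5, (show χ (g⁻¹ * g') = 1 from h4), mul_one]
    · intro q q' hq
      obtain ⟨g, rfl⟩ := QuotientGroup.mk_surjective q
      obtain ⟨g', rfl⟩ := QuotientGroup.mk_surjective q'
      have h4 : χ g = χ g' := congrArg Subtype.val hq
      rw [QuotientGroup.eq]
      show χ (g⁻¹ * g') = 1
      rw [map_mul, ← h4, ← map_mul, inv_mul_cancel, map_one]
  exact Subgroup.finiteIndex_of_finite_quotient

theorem one_complete (h : Blk b hol dd) (h1 : One b hol) [ConnectedSpace X]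
    (D : AffData X Γ E dev hol) (hinj : Function.Injective dev) : IsHomeomorph dev := by
  by_cases hV : VS hol
  · exact complete_of_VS D hinj hV
  have hch := one_ch h h1 D hinj hV
  refine Pool.Agent.N520.RO.plane_case X Γ E dev hol D hinj h.Ch.ker (ker_finiteIndex h.Ch hch)
    (pl b) (finrank_pl b) ?_
  intro γ hγ v
  show b.repr ((hol γ).linear v - v) 2 = 0
  have h2 : Lm b hol γ 2 2 = 1 := hγ
  rw [map_sub, Finsupp.sub_apply, lin_repr, (h1 γ).1, (h1 γ).2, h2]
  ring

end data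

end Pool.Agent.Helper23M
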