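import Pool.Agent.Helper23M.CaseI

/-!
The case of an invariant line.
-/

set_option autoImplicit false

open Set Filter Topology Metric
open Pool.Agent.W689.Mk

namespace Pool.Agent.Helper23M

section two
variable {Γ E : Type} [Group Γ] [NormedAddCommGroup E] [NormedSpace ℝ E]
  {b : Module.Basis (Fin 3) ℝ E} {hol : Γ →* (E ≃ᵃ[ℝ] E)} {dd : Fin 3 → ℕ}

/-- the second case -/
def Two (b : Module.Basis (Fin 3) ℝ E) (hol : Γ →* (E ≃ᵃ[ℝ] E)) : Prop :=
  ∀ γ, Lm b hol γ 0 2 = 0 ∧ Lm b hol γ 1 2 = 0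

/-- the pairing of rows and columns -/
def dt2 (f w : Fin 2 → ℝ) : ℝ := f 0 * w 0 + f 1 * w 1

theorem two_mul' (h : Blk b hol dd) (h2 : Two b hol) {n m : Γ} (hn : n ∈ h.Ku) (hm : m ∈ h.Ku) :
    wv b hol (n * m) = wv b hol n + wv b hol m ∧ fv b hol (n * m) = fv b hol n + fv b hol m ∧
      rv b hol (n * m) = rv b hol m + dt2 (fv b hol n) (wv b hol m) + rv b hol n := by
  obtain ⟨a1, a2, a3, a4, a5⟩ := h.entries hn
  obtain ⟨b1, b2, b3, b4, b5⟩ := h.entries hm
  obtain ⟨c1, c2⟩ := h2 n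
  refine ⟨?_, ?_, ?_⟩
  · ext i
    fin_cases i
    · show b.repr (hol (n * m) 0) 0 = b.repr (hol n 0) 0 + b.repr (hol m 0) 0
      rw [hol_mul_apply, repr3 n (hol m 0), a1, a2, c1]; ring
    · show b.repr (hol (n * m) 0) 1 = b.repr (hol n 0) 1 + b.repr (hol m 0) 1
      rw [hol_mul_apply, repr3 n (hol m 0), a3, a4, c2]; ring
  · ext i
    fin_cases i
    · show Lm b hol (n * m) 2 0 = Lm b hol n 2 0 + Lm b hol m 2 0
      rw [Lm_mul3, b1, b3, a5]; ring
    · show Lm b hol (n * m) 2 1 = Lm b hol n 2 1 + Lm b hol m 2 1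
      rw [Lm_mul3, b2, b4, a5]; ring
  · show b.repr (hol (n * m) 0) 2 = b.repr (hol m 0) 2 + (Lm b hol n 2 0 * b.repr (hol m 0) 0 +
      Lm b hol n 2 1 * b.repr (hol m 0) 1) + b.repr (hol n 0) 2
    rw [hol_mul_apply, repr3 n (hol m 0), a5]; ring

theorem two_conj (h : Blk b hol dd) (h2 : Two b hol) {n : Γ} (hn : n ∈ h.Ku) (γ : Γ) :
    wv b hol (γ * n * γ⁻¹) = (h.Bm γ).mulVec (wv b hol n) ∧
    (h.Bm γ).vecMul (fv b hol (γ * n * γ⁻¹)) = h.Ch γ • fv b hol n ∧
    rv b hol (γ * n * γ⁻¹) + dt2 (fv b hol (γ * n * γ⁻¹)) (wv b hol γ) =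
      dt2 (fv b hol γ) (wv b hol n) + h.Ch γ * rv b hol n := by
  obtain ⟨a1, a2, a3, a4, a5⟩ := h.entries hn
  have hn' := h.conj_mem hn γ
  obtain ⟨m, hm⟩ : ∃ m, m = γ * n * γ⁻¹ := ⟨_, rfl⟩
  rw [← hm] at hn' ⊢
  obtain ⟨b1, b2, b3, b4, b5⟩ := h.entries hn'
  have he : m * γ = γ * n := by rw [hm]; group
  have hL : ∀ i j, Lm b hol (m * γ) i j = Lm b hol (γ * n) i j := fun i j => by rw [he]
  have hT : ∀ i, b.repr (hol (m * γ) 0) i = b.repr (hol (γ * n) 0) i := fun i => by rw [he]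
  obtain ⟨c1, c2⟩ := h2 γ
  obtain ⟨d1, d2⟩ := h2 m
  obtain ⟨e1, e2⟩ := h2 n
  refine ⟨?_, ?_, ?_⟩
  · ext i
    fin_cases i
    · show b.repr (hol m 0) 0 = (h.Bm γ).mulVec (wv b hol n) 0
      rw [Matrix.mulVec, dotProduct, Fin.sum_univ_two]
      show _ = Lm b hol γ 0 0 * b.repr (hol n 0) 0 + Lm b hol γ 0 1 * b.repr (hol n 0) 1
      have := hT 0
      rw [hol_mul_apply, hol_mul_apply, repr3 m, repr3 γ (hol n 0), b1, b2, d1, c1] at this
      linear_combination this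
    · show b.repr (hol m 0) 1 = (h.Bm γ).mulVec (wv b hol n) 1
      rw [Matrix.mulVec, dotProduct, Fin.sum_univ_two]
      show _ = Lm b hol γ 1 0 * b.repr (hol n 0) 0 + Lm b hol γ 1 1 * b.repr (hol n 0) 1
      have := hT 1
      rw [hol_mul_apply, hol_mul_apply, repr3 m, repr3 γ (hol n 0), b3, b4, d2, c2] at this
      linear_combination this
  · ext i
    fin_cases i
    · show (h.Bm γ).vecMul (fv b hol m) 0 = Lm b hol γ 2 2 * Lm b hol n 2 0
      rw [Matrix.vecMul, dotProduct, Fin.sum_univ_two]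
      show Lm b hol m 2 0 * Lm b hol γ 0 0 + Lm b hol m 2 1 * Lm b hol γ 1 0 = _
      have := hL 2 0
      rw [Lm_mul3, Lm_mul3, b5, a1, a3] at this
      linear_combination this
    · show (h.Bm γ).vecMul (fv b hol m) 1 = Lm b hol γ 2 2 * Lm b hol n 2 1
      rw [Matrix.vecMul, dotProduct, Fin.sum_univ_two]
      show Lm b hol m 2 0 * Lm b hol γ 0 1 + Lm b hol m 2 1 * Lm b hol γ 1 1 = _
      have := hL 2 1
      rw [Lm_mul3, Lm_mul3, b5, a2, a4] at this
      linear_combination this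
  · show b.repr (hol m 0) 2 + (Lm b hol m 2 0 * b.repr (hol γ 0) 0 +
      Lm b hol m 2 1 * b.repr (hol γ 0) 1) = (Lm b hol γ 2 0 * b.repr (hol n 0) 0 +
      Lm b hol γ 2 1 * b.repr (hol n 0) 1) + Lm b hol γ 2 2 * b.repr (hol n 0) 2
    have := hT 2
    rw [hol_mul_apply, hol_mul_apply, repr3 m, repr3 γ (hol n 0), b5] at this
    linear_combination this

theorem two_comm (h : Blk b hol dd) (h2 : Two b hol) {n m : Γ} (hn : n ∈ h.Ku) (hm : m ∈ h.Ku) :
    wv b hol (n * m * n⁻¹ * m⁻¹) = 0 ∧ fv b hol (n * m * n⁻¹ * m⁻¹) = 0 ∧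
      rv b hol (n * m * n⁻¹ * m⁻¹) = dt2 (fv b hol n) (wv b hol m) -
        dt2 (fv b hol m) (wv b hol n) := by
  have hk := h.comm_mem hn hm
  obtain ⟨k, hk'⟩ : ∃ k, k = n * m * n⁻¹ * m⁻¹ := ⟨_, rfl⟩
  rw [← hk'] at hk ⊢
  have he : k * (m * n) = n * m := by rw [hk']; group
  obtain ⟨p1, p2, p3⟩ := two_mul' h h2 hk (h.Ku.mul_mem hm hn)
  rw [he] at p1 p2 p3
  obtain ⟨q1, q2, q3⟩ := two_mul' h h2 hn hm
  obtain ⟨r1, r2, r3⟩ := two_mul' h h2 hm hn
  have s1 : wv b hol k = 0 := by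
    have : wv b hol k = wv b hol (n * m) - wv b hol (m * n) := by rw [p1]; abel
    rw [this, q1, r1]; abel
  have s2 : fv b hol k = 0 := by
    have : fv b hol k = fv b hol (n * m) - fv b hol (m * n) := by rw [p2]; abel
    rw [this, q2, r2]; abel
  refine ⟨s1, s2, ?_⟩
  have h0 : dt2 (fv b hol k) (wv b hol (m * n)) = 0 := by
    rw [s2]; simp [dt2]
  rw [h0] at p3
  linarith

/-- elements without `f` are translations -/
theorem two_trans (h : Blk b hol dd) (h2 : Two b hol) {n : Γ} (hn : n ∈ h.Ku)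
    (hf : fv b hol n = 0) (p : E) : hol n p = p + hol n 0 := by
  obtain ⟨a1, a2, a3, a4, a5⟩ := h.entries hn
  obtain ⟨c1, c2⟩ := h2 n
  have s0 : Lm b hol n 2 0 = 0 := congrFun hf 0
  have s1 : Lm b hol n 2 1 = 0 := congrFun hf 1
  refine ext3 (b := b) ?_ ?_ ?_
  · rw [repr3, a1, a2, c1, map_add, Finsupp.add_apply]; ring
  · rw [repr3, a3, a4, c2, map_add, Finsupp.add_apply]; ring
  · rw [repr3, s0, s1, a5, map_add, Finsupp.add_apply]; ring

theorem two_triv (h : Blk b hol dd) (h2 : Two b hol) {n : Γ} (hn : n ∈ h.Ku)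
    (hf : fv b hol n = 0) (hw : wv b hol n = 0) (hr : rv b hol n = 0) (p : E) : hol n p = p := by
  rw [two_trans h h2 hn hf]
  have : hol n 0 = 0 := by
    have hz : b.repr (0 : E) = 0 := map_zero _
    refine ext3 (b := b) ?_ ?_ ?_
    · rw [hz]; exact congrFun hw 0
    · rw [hz]; exact congrFun hw 1
    · rw [hz]; exact hr
  rw [this, add_zero]

/-- unipotent elements fix the vectors of the line -/
theorem two_fix (h : Blk b hol dd) (h2 : Two b hol) {n : Γ} (hn : n ∈ h.Ku) {v : E}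
    (hv0 : b.repr v 0 = 0) (hv1 : b.repr v 1 = 0) : (hol n).linear v = v := by
  obtain ⟨a1, a2, a3, a4, a5⟩ := h.entries hn
  obtain ⟨c1, c2⟩ := h2 n
  refine ext3 (b := b) ?_ ?_ ?_
  · rw [lin_repr, hv0, hv1, c1]; ring
  · rw [lin_repr, hv0, hv1, c2]; ring
  · rw [lin_repr, hv0, hv1, a5]; ring

theorem two_orb (h : Blk b hol dd) (h2 : Two b hol) {n : Γ} (hn : n ∈ h.Ku) (p : E) :
    b.repr (orb hol p n) 0 = wv b hol n 0 ∧ b.repr (orb hol p n) 1 = wv b hol n 1 := by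
  obtain ⟨a1, a2, a3, a4, a5⟩ := h.entries hn
  obtain ⟨c1, c2⟩ := h2 n
  constructor
  · show b.repr (hol n p - p) 0 = b.repr (hol n 0) 0
    rw [map_sub, Finsupp.sub_apply, repr3, a1, a2, c1]
    ring
  · show b.repr (hol n p - p) 1 = b.repr (hol n 0) 1
    rw [map_sub, Finsupp.sub_apply, repr3, a3, a4, c2]
    ring

/-- vectors on the line -/
theorem mem_line {v : E} (hv0 : b.repr v 0 = 0) (hv1 : b.repr v 1 = 0) :
    v ∈ Submodule.span ℝ {b 2} := by
  rw [Submodule.mem_span_singleton]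
  refine ⟨b.repr v 2, ?_⟩
  conv_rhs => rw [← b.sum_repr v, Fin.sum_univ_three, hv0, hv1]
  simp

end two

section data
variable {X Γ E : Type} [TopologicalSpace X] [T2Space X] [SecondCountableTopology X]
  [Group Γ] [MulAction Γ X] [NormedAddCommGroup E] [NormedSpace ℝ E] [FiniteDimensional ℝ E]
  {dev : X → E} {hol : Γ →* (E ≃ᵃ[ℝ] E)} {b : Module.Basis (Fin 3) ℝ E} {dd : Fin 3 → ℕ}

/-- translations along the line make the character of the line trivial -/
theorem two_TV (h : Blk b hol dd) (h2 : Two b hol) [Nonempty X] (D : AffData X Γ E dev hol)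
    (hinj : Function.Injective dev)
    (hT : ∃ n ∈ h.Ku, fv b hol n = 0 ∧ wv b hol n = 0 ∧ rv b hol n ≠ 0) (γ : Γ) :
    |h.Ch γ| = 1 := by
  obtain ⟨x0⟩ := (inferInstance : Nonempty X)
  let K : Subgroup Γ :=
    { carrier := {n | n ∈ h.Ku ∧ fv b hol n = 0 ∧ wv b hol n = 0}
      mul_mem' := by
        rintro n m ⟨hn, s1, r1⟩ ⟨hm, s2, r2⟩
        obtain ⟨p1, p2, -⟩ := two_mul' h h2 hn hm
        exact ⟨h.Ku.mul_mem hn hm, by rw [p2, s1, s2, add_zero], by rw [p1, r1, r2, add_zero]⟩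
      one_mem' := by
        obtain ⟨p1, p2, -⟩ := two_mul' h h2 h.Ku.one_mem h.Ku.one_mem
        rw [mul_one] at p1 p2
        exact ⟨h.Ku.one_mem, by simpa using p2, by simpa using p1⟩
      inv_mem' := by
        rintro n ⟨hn, s1, r1⟩
        obtain ⟨p1, p2, -⟩ := two_mul' h h2 hn (h.Ku.inv_mem hn)
        obtain ⟨q1, q2, -⟩ := two_mul' h h2 h.Ku.one_mem h.Ku.one_mem
        rw [mul_one] at q1 q2
        rw [mul_inv_cancel, s1, zero_add] at p2
        rw [mul_inv_cancel, r1, zero_add] at p1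
        exact ⟨h.Ku.inv_mem hn, by rw [← p2]; simpa using q2, by rw [← p1]; simpa using q1⟩ }
  have hf : ∀ n ∈ K, ∀ m ∈ K, orb hol (dev x0) (n * m) =
      orb hol (dev x0) n + orb hol (dev x0) m := by
    intro n hn m hm
    apply orb_mul
    apply two_fix h h2 hn.1
    · rw [(two_orb h h2 hm.1 _).1, hm.2.2]; rfl
    · rw [(two_orb h h2 hm.1 _).2, hm.2.2]; rfl
  have hσ : ∀ n ∈ K, ∀ m ∈ K, rv b hol (n * m) = rv b hol n + rv b hol m := by
    intro n hn m hm
    obtain ⟨-, -, p3⟩ := two_mul' h h2 hn.1 hm.1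
    have h0 : dt2 (fv b hol n) (wv b hol m) = 0 := by
      rw [hn.2.1]; simp [dt2]
    rw [p3, h0]; ring
  have hconj : ∀ (g : Γ), ∀ n ∈ K, g * n * g⁻¹ ∈ K ∧
      h.Ch g * rv b hol n = rv b hol (g * n * g⁻¹) := by
    intro g n hn
    obtain ⟨p1, p2, p3⟩ := two_conj h h2 hn.1 g
    rw [hn.2.2, Matrix.mulVec_zero] at p1
    rw [hn.2.1, smul_zero] at p2
    have s1 : fv b hol (g * n * g⁻¹) = 0 := by
      have h3 : (h.Bm g⁻¹).vecMul ((h.Bm g).vecMul (fv b hol (g * n * g⁻¹))) = 0 := by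
        rw [p2, Matrix.zero_vecMul]
      rw [Matrix.vecMul_vecMul, B_mul_inv, Matrix.vecMul_one] at h3
      exact h3
    have h0 : dt2 (fv b hol (g * n * g⁻¹)) (wv b hol g) = 0 := by
      rw [s1]; simp [dt2]
    have h0' : dt2 (fv b hol g) (wv b hol n) = 0 := by
      rw [hn.2.2]; simp [dt2]
    rw [h0, h0'] at p3
    exact ⟨⟨h.conj_mem hn.1 g, s1, p1⟩, by linarith⟩
  obtain ⟨n0, hn0, hf0, hw0, hr0⟩ := hT
  have hspan : Submodule.span ℝ (rv b hol '' K) = ⊤ := by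
    rw [eq_top_iff]
    intro t _
    have : t = (t / rv b hol n0) • rv b hol n0 := by
      rw [smul_eq_mul, div_mul_cancel₀ _ hr0]
    rw [this]
    exact Submodule.smul_mem _ _ (Submodule.subset_span ⟨n0, ⟨hn0, hf0, hw0⟩, rfl⟩)
  have hd := det_of_conj K (orb hol (dev x0)) (rv b hol) hf hσ
    (orb_inj D hinj x0 K _ hσ) (orb_disc D hinj x0 K hf) hspan (by
      have h3 : Submodule.span ℝ (orb hol (dev x0) '' K) ≤ Submodule.span ℝ {b 2} := by
        rw [Submodule.span_le]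
        rintro _ ⟨n, hn, rfl⟩
        apply mem_line
        · rw [(two_orb h h2 hn.1 _).1, hn.2.2]; rfl
        · rw [(two_orb h h2 hn.1 _).2, hn.2.2]; rfl
      have h4 := Submodule.finrank_mono h3
      have h5 : Module.finrank ℝ (Submodule.span ℝ {b 2}) ≤ 1 := by
        have := finrank_span_le_card (R := ℝ) ({b 2} : Set E)
        simpa using this
      rw [Module.finrank_self]
      omega)
    (LinearMap.mulLeft ℝ (h.Ch γ)) (LinearMap.mulLeft ℝ (h.Ch γ⁻¹))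
    (fun n hn => ⟨γ * n * γ⁻¹, (hconj γ n hn).1, (hconj γ n hn).2⟩)
    (fun n hn => ⟨γ⁻¹ * n * γ⁻¹⁻¹, (hconj γ⁻¹ n hn).1, (hconj γ⁻¹ n hn).2⟩)
    (fun v => by
      rw [LinearMap.mulLeft_apply, LinearMap.mulLeft_apply, ← mul_assoc, ← map_mul,
        mul_inv_cancel, map_one, one_mul])
  rw [LinearMap.det_ring, LinearMap.mulLeft_apply, mul_one] at hd
  exact hd

/-- the symmetric matrix: all elements are translations -/
theorem two_sym (h : Blk b hol dd) (h2 : Two b hol) (hV : ¬ VS hol)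
    (hsym : ∀ n ∈ h.Ku, ∀ m ∈ h.Ku, dt2 (fv b hol n) (wv b hol m) = dt2 (fv b hol m) (wv b hol n))
    {n1 n2 : Γ} (hn1 : n1 ∈ h.Ku) (hn2 : n2 ∈ h.Ku)
    (hdet : wv b hol n1 0 * wv b hol n2 1 - wv b hol n1 1 * wv b hol n2 0 ≠ 0) :
    ∀ n ∈ h.Ku, fv b hol n = 0 := by
  set w1 := wv b hol n1 with hw1
  set w2 := wv b hol n2 with hw2
  set f1 := fv b hol n1 with hf1
  set f2 := fv b hol n2 with hf2
  set d := w1 0 * w2 1 - w1 1 * w2 0 with hd
  have h12 : dt2 f1 w2 = dt2 f2 w1 := hsym n1 hn1 n2 hn2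
  unfold dt2 at h12
  let s00 := (f1 0 * w2 1 - f2 0 * w1 1) / d
  let s01 := (f1 1 * w2 1 - f2 1 * w1 1) / d
  let s11 := (w1 0 * f2 1 - w2 0 * f1 1) / d
  have hs10 : s01 = (w1 0 * f2 0 - w2 0 * f1 0) / d := by
    show (f1 1 * w2 1 - f2 1 * w1 1) / d = _
    congr 1
    linarith
  have key : ∀ n ∈ h.Ku, fv b hol n 0 = s00 * wv b hol n 0 + s01 * wv b hol n 1 ∧
      fv b hol n 1 = s01 * wv b hol n 0 + s11 * wv b hol n 1 := by
    intro n hn
    have e1 := hsym n hn n1 hn1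
    have e2 := hsym n hn n2 hn2
    rw [← hw1, ← hf1] at e1
    rw [← hw2, ← hf2] at e2
    unfold dt2 at e1 e2
    constructor
    · show fv b hol n 0 = (f1 0 * w2 1 - f2 0 * w1 1) / d * wv b hol n 0 +
        (f1 1 * w2 1 - f2 1 * w1 1) / d * wv b hol n 1
      field_simp
      rw [hd]
      linear_combination w2 1 * e1 - w1 1 * e2
    · rw [hs10]
      show fv b hol n 1 = (w1 0 * f2 0 - w2 0 * f1 0) / d * wv b hol n 0 +
        (w1 0 * f2 1 - w2 0 * f1 1) / d * wv b hol n 1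
      field_simp
      rw [hd]
      linear_combination w1 0 * e2 - w2 0 * e1
  by_contra hcon
  push Not at hcon
  obtain ⟨n0, hn0, hf0⟩ := hcon
  let N : M2 := !![-s01, -s11; s00, s01]
  have n00 : N 0 0 = -s01 := rfl
  have n01 : N 0 1 = -s11 := rfl
  have n10 : N 1 0 = s00 := rfl
  have n11 : N 1 1 = s01 := rfl
  obtain ⟨g, hg⟩ := h.ns hV N (by rw [Matrix.trace_fin_two, n00, n11]; ring) (by
    intro h0
    apply hf0
    have e0 : s01 = 0 := by rw [← n11, h0]; rfl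
    have e1 : s11 = 0 := by
      have : N 0 1 = 0 := by rw [h0]; rfl
      rw [n01] at this
      linarith
    have e2 : s00 = 0 := by rw [← n10, h0]; rfl
    obtain ⟨k1, k2⟩ := key n0 hn0
    ext i
    fin_cases i
    · show fv b hol n0 0 = 0
      rw [k1, e0, e2]; ring
    · show fv b hol n0 1 = 0
      rw [k2, e0, e1]; ring)
  apply hg
  -- the invariance of the form
  have hinv : ∀ n ∈ h.Ku,
      (s00 * (h.Bm g 0 0 * wv b hol n 0 + h.Bm g 0 1 * wv b hol n 1) +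
        s01 * (h.Bm g 1 0 * wv b hol n 0 + h.Bm g 1 1 * wv b hol n 1)) * h.Bm g 0 0 +
      (s01 * (h.Bm g 0 0 * wv b hol n 0 + h.Bm g 0 1 * wv b hol n 1) +
        s11 * (h.Bm g 1 0 * wv b hol n 0 + h.Bm g 1 1 * wv b hol n 1)) * h.Bm g 1 0 =
        h.Ch g * (s00 * wv b hol n 0 + s01 * wv b hol n 1) ∧
      (s00 * (h.Bm g 0 0 * wv b hol n 0 + h.Bm g 0 1 * wv b hol n 1) +
        s01 * (h.Bm g 1 0 * wv b hol n 0 + h.Bm g 1 1 * wv b hol n 1)) * h.Bm g 0 1 +
      (s01 * (h.Bm g 0 0 * wv b hol n 0 + h.Bm g 0 1 * wv b hol n 1) +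
        s11 * (h.Bm g 1 0 * wv b hol n 0 + h.Bm g 1 1 * wv b hol n 1)) * h.Bm g 1 1 =
        h.Ch g * (s01 * wv b hol n 0 + s11 * wv b hol n 1) := by
    intro n hn
    obtain ⟨p1, p2, -⟩ := two_conj h h2 hn g
    obtain ⟨k1, k2⟩ := key n hn
    obtain ⟨k1', k2'⟩ := key _ (h.conj_mem hn g)
    have q0 := congrFun p1 0
    have q1 := congrFun p1 1
    simp only [Matrix.mulVec, dotProduct, Fin.sum_univ_two] at q0 q1
    have r0 := congrFun p2 0
    have r1 := congrFun p2 1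
    simp only [Matrix.vecMul, dotProduct, Fin.sum_univ_two, Pi.smul_apply, smul_eq_mul] at r0 r1
    rw [k1', k2', q0, q1, k1] at r0
    rw [k1', k2', q0, q1, k2] at r1
    exact ⟨r0, r1⟩
  obtain ⟨a1, a2⟩ := hinv n1 hn1
  obtain ⟨c1, c2⟩ := hinv n2 hn2
  rw [← hw1] at a1 a2
  rw [← hw2] at c1 c2
  -- the matrix identity
  set p := h.Bm g 0 0
  set q := h.Bm g 0 1
  set r := h.Bm g 1 0
  set s := h.Bm g 1 1
  set x := h.Ch g
  have i00 : (s00 * p + s01 * r) * p + (s01 * p + s11 * r) * r = x * s00 := by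
    have : d * ((s00 * p + s01 * r) * p + (s01 * p + s11 * r) * r - x * s00) = 0 := by
      rw [hd]; linear_combination w2 1 * a1 - w1 1 * c1
    have := (mul_eq_zero.1 this).resolve_left hdet
    linarith
  have i01 : (s00 * q + s01 * s) * p + (s01 * q + s11 * s) * r = x * s01 := by
    have : d * ((s00 * q + s01 * s) * p + (s01 * q + s11 * s) * r - x * s01) = 0 := by
      rw [hd]; linear_combination w1 0 * c1 - w2 0 * a1
    have := (mul_eq_zero.1 this).resolve_left hdet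
    linarith
  have i11 : (s00 * q + s01 * s) * q + (s01 * q + s11 * s) * s = x * s11 := by
    have : d * ((s00 * q + s01 * s) * q + (s01 * q + s11 * s) * s - x * s11) = 0 := by
      rw [hd]; linear_combination w1 0 * c2 - w2 0 * a2
    have := (mul_eq_zero.1 this).resolve_left hdet
    linarith
  have hx : x ≠ 0 := h.ch_ne g
  refine ⟨(p * s - q * r) / x, ?_⟩
  have hfin : x • (h.Bm g * N) = (p * s - q * r) • (N * h.Bm g) := by
    ext i j
    fin_cases i <;> fin_cases j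
    · show x * (h.Bm g * N) 0 0 = (p * s - q * r) * (N * h.Bm g) 0 0
      rw [Matrix.mul_apply, Matrix.mul_apply, Fin.sum_univ_two, Fin.sum_univ_two, n00, n01, n10]
      show x * (p * -s01 + q * s00) = (p * s - q * r) * (-s01 * p + -s11 * r)
      linear_combination p * i01 - q * i00
    · show x * (h.Bm g * N) 0 1 = (p * s - q * r) * (N * h.Bm g) 0 1
      rw [Matrix.mul_apply, Matrix.mul_apply, Fin.sum_univ_two, Fin.sum_univ_two, n00, n01, n11]
      show x * (p * -s11 + q * s01) = (p * s - q * r) * (-s01 * q + -s11 * s)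
      linear_combination p * i11 - q * i01
    · show x * (h.Bm g * N) 1 0 = (p * s - q * r) * (N * h.Bm g) 1 0
      rw [Matrix.mul_apply, Matrix.mul_apply, Fin.sum_univ_two, Fin.sum_univ_two, n00, n10, n11]
      show x * (r * -s01 + s * s00) = (p * s - q * r) * (s00 * p + s01 * r)
      linear_combination r * i01 - s * i00
    · show x * (h.Bm g * N) 1 1 = (p * s - q * r) * (N * h.Bm g) 1 1
      rw [Matrix.mul_apply, Matrix.mul_apply, Fin.sum_univ_two, Fin.sum_univ_two, n01, n10, n11]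
      show x * (r * -s11 + s * s01) = (p * s - q * r) * (s00 * q + s01 * s)
      linear_combination r * i11 - s * i01
  rw [div_eq_inv_mul, mul_smul, ← hfin, smul_smul, inv_mul_cancel₀ hx, one_smul]

end data

end Pool.Agent.Helper23M
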