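import Pool.Agent.Helper23M.CaseII

/-!
The case of an invariant line without translations along the line.
-/

set_option autoImplicit false

open Set Filter Topology Metric
open Pool.Agent.W689.Mk

namespace Pool.Agent.Helper23M

section data
variable {X Γ E : Type} [TopologicalSpace X] [T2Space X] [SecondCountableTopology X]
  [Group Γ] [MulAction Γ X] [NormedAddCommGroup E] [NormedSpace ℝ E] [FiniteDimensional ℝ E]
  {dev : X → E} {hol : Γ →* (E ≃ᵃ[ℝ] E)} {b : Module.Basis (Fin 3) ℝ E} {dd : Fin 3 → ℕ}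

theorem two_noTV (h : Blk b hol dd) (h2 : Two b hol) [ConnectedSpace X]
    (D : AffData X Γ E dev hol) (hinj : Function.Injective dev) (hV : ¬ VS hol)
    (hT : ∀ n ∈ h.Ku, fv b hol n = 0 → wv b hol n = 0 → rv b hol n = 0) : IsHomeomorph dev := by
  obtain ⟨x0⟩ := (inferInstance : Nonempty X)
  obtain ⟨n1, hn1, p1, hp1⟩ := h.exists_unip D hinj hV
  have hsym : ∀ n ∈ h.Ku, ∀ m ∈ h.Ku, dt2 (fv b hol n) (wv b hol m) =
      dt2 (fv b hol m) (wv b hol n) := by
    intro n hn m hm
    obtain ⟨q1, q2, q3⟩ := two_comm h h2 hn hm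
    have h3 := hT _ (h.comm_mem hn hm) q2 q1
    rw [q3] at h3
    exact sub_eq_zero.1 h3
  by_cases hw : ∀ n ∈ h.Ku, wv b hol n = 0
  · -- all elements preserve the lines
    exfalso
    have hσ : ∀ n ∈ h.Ku, ∀ m ∈ h.Ku, fv b hol (n * m) = fv b hol n + fv b hol m :=
      fun n hn m hm => (two_mul' h h2 hn hm).2.1
    have hf : ∀ n ∈ h.Ku, ∀ m ∈ h.Ku, orb hol (dev x0) (n * m) =
        orb hol (dev x0) n + orb hol (dev x0) m := by
      intro n hn m hm
      apply orb_mul
      apply two_fix h h2 hn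
      · rw [(two_orb h h2 hm _).1, hw m hm]; rfl
      · rw [(two_orb h h2 hm _).2, hw m hm]; rfl
    have hspan : Submodule.span ℝ (fv b hol '' h.Ku) = ⊤ := by
      apply h.span_top' hV
      · rintro g _ ⟨n, hn, rfl⟩
        obtain ⟨-, p2, -⟩ := two_conj h h2 (h.conj_mem hn g⁻¹) g
        have e : g * (g⁻¹ * n * g⁻¹⁻¹) * g⁻¹ = n := by group
        rw [e] at p2
        exact ⟨h.Ch g, _, ⟨_, h.conj_mem hn g⁻¹, rfl⟩, p2⟩
      · refine ⟨_, ⟨n1, hn1, rfl⟩, fun h0 => hp1 ?_⟩
        exact two_triv h h2 hn1 h0 (hw n1 hn1) (hT n1 hn1 h0 (hw n1 hn1)) p1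
    have h3 := (lat_basis h.Ku (orb hol (dev x0)) (fv b hol) hf hσ
      (orb_inj D hinj x0 h.Ku _ hσ) (orb_disc D hinj x0 h.Ku hf) hspan).1
    have h4 : Submodule.span ℝ (orb hol (dev x0) '' h.Ku) ≤ Submodule.span ℝ {b 2} := by
      rw [Submodule.span_le]
      rintro _ ⟨n, hn, rfl⟩
      apply mem_line
      · rw [(two_orb h h2 hn _).1, hw n hn]; rfl
      · rw [(two_orb h h2 hn _).2, hw n hn]; rfl
    have h5 := Submodule.finrank_mono h4
    have h6 : Module.finrank ℝ (Submodule.span ℝ {b 2}) ≤ 1 := by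
      have := finrank_span_le_card (R := ℝ) ({b 2} : Set E)
      simpa using this
    have h7 : Module.finrank ℝ (Fin 2 → ℝ) = 2 := by simp
    omega
  · push Not at hw
    obtain ⟨n0, hn0, hw0⟩ := hw
    have hσ : ∀ n ∈ h.Ku, ∀ m ∈ h.Ku, wv b hol (n * m) = wv b hol n + wv b hol m :=
      fun n hn m hm => (two_mul' h h2 hn hm).1
    have hspan : Submodule.span ℝ (wv b hol '' h.Ku) = ⊤ := by
      apply h.span_top hV
      · rintro g _ ⟨n, hn, rfl⟩
        obtain ⟨q1, -, -⟩ := two_conj h h2 hn g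
        exact ⟨1, _, ⟨_, h.conj_mem hn g, rfl⟩, by rw [one_smul, q1]⟩
      · exact ⟨_, ⟨n0, hn0, rfl⟩, hw0⟩
    obtain ⟨n2, hn2, hdet⟩ : ∃ n2 ∈ h.Ku,
        wv b hol n0 0 * wv b hol n2 1 - wv b hol n0 1 * wv b hol n2 0 ≠ 0 := by
      by_contra hcon
      push Not at hcon
      have h3 : ∀ u ∈ Submodule.span ℝ (wv b hol '' h.Ku),
          wv b hol n0 0 * u 1 - wv b hol n0 1 * u 0 = 0 := by
        intro u hu
        induction hu using Submodule.span_induction with
        | mem u hu =>
          obtain ⟨n, hn, rfl⟩ := hu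
          exact hcon n hn
        | zero => simp
        | add u v _ _ h1 h2 =>
          rw [Pi.add_apply, Pi.add_apply]
          linear_combination h1 + h2
        | smul t u _ h1 =>
          rw [Pi.smul_apply, Pi.smul_apply, smul_eq_mul, smul_eq_mul]
          linear_combination t * h1
      rw [hspan] at h3
      apply hw0
      have h4 := h3 ![1, 0] Submodule.mem_top
      have h5 := h3 ![0, 1] Submodule.mem_top
      have h6 : wv b hol n0 1 = 0 := by simpa using h4
      have h7 : wv b hol n0 0 = 0 := by simpa using h5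
      ext i
      fin_cases i
      · exact h7
      · exact h6
    have hf0 := two_sym h h2 hV hsym hn0 hn2 hdet
    have htr : ∀ n ∈ h.Ku, ∀ p, hol n p = p + hol n 0 :=
      fun n hn p => two_trans h h2 hn (hf0 n hn) p
    set P := Submodule.span ℝ ((fun n => hol n 0) '' (h.Ku : Set Γ)) with hP
    have hPtop : P ≠ ⊤ := fun h0 => hV (h.vs_of_span D hinj htr h0)
    have hPinv : ∀ g : Γ, ∀ v ∈ P, (hol g).linear v ∈ P := by
      intro g v hv
      have h2 : P ≤ P.comap ((hol g).linear : E →ₗ[ℝ] E) := by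
        rw [hP, Submodule.span_le]
        rintro _ ⟨n, hn, rfl⟩
        refine Submodule.subset_span ⟨g * n * g⁻¹, h.conj_mem hn g, ?_⟩
        show hol (g * n * g⁻¹) 0 = (hol g).linear (hol n 0)
        have h3 := htr _ (h.conj_mem hn g) (hol g 0)
        rw [← hol_mul_apply, inv_mul_cancel_right, hol_mul_apply] at h3
        have h4 := hol_add (hol := hol) g 0 (hol n 0)
        rw [zero_add] at h4
        rw [h4] at h3
        exact (add_left_cancel h3).symm
      exact h2 hv
    -- the projection of `P`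
    have hproj : ∀ u : Fin 2 → ℝ, ∃ p ∈ P, b.repr p 0 = u 0 ∧ b.repr p 1 = u 1 := by
      intro u
      have hu : u ∈ Submodule.span ℝ (wv b hol '' h.Ku) := by rw [hspan]; trivial
      induction hu using Submodule.span_induction with
      | mem u hu =>
        obtain ⟨n, hn, rfl⟩ := hu
        exact ⟨hol n 0, Submodule.subset_span ⟨n, hn, rfl⟩, rfl, rfl⟩
      | zero => exact ⟨0, Submodule.zero_mem _, by simp, by simp⟩
      | add u v _ _ h1 h2 =>
        obtain ⟨p, hp, a1, a2⟩ := h1
        obtain ⟨q, hq, c1, c2⟩ := h2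
        refine ⟨p + q, Submodule.add_mem _ hp hq, ?_, ?_⟩
        · rw [map_add, Finsupp.add_apply, a1, c1]; rfl
        · rw [map_add, Finsupp.add_apply, a2, c2]; rfl
      | smul t u _ h1 =>
        obtain ⟨p, hp, a1, a2⟩ := h1
        refine ⟨t • p, Submodule.smul_mem _ _ hp, ?_, ?_⟩
        · rw [map_smul, Finsupp.smul_apply, a1]; rfl
        · rw [map_smul, Finsupp.smul_apply, a2]; rfl
    have hdec : ∀ v : E, ∃ p ∈ P, ∃ t : ℝ, v = p + t • b 2 := by
      intro v
      obtain ⟨p, hp, a1, a2⟩ := hproj ![b.repr v 0, b.repr v 1]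
      have h3 : v - p ∈ Submodule.span ℝ {b 2} := by
        apply mem_line
        · rw [map_sub, Finsupp.sub_apply, a1]; simp
        · rw [map_sub, Finsupp.sub_apply, a2]; simp
      obtain ⟨t, ht⟩ := Submodule.mem_span_singleton.1 h3
      exact ⟨p, hp, t, by rw [ht]; abel⟩
    have hsup : P ⊔ Submodule.span ℝ {b 2} = ⊤ := by
      rw [eq_top_iff]
      intro v _
      obtain ⟨p, hp, t, rfl⟩ := hdec v
      exact Submodule.add_mem_sup hp (Submodule.smul_mem _ _ (Submodule.mem_span_singleton_self _))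
    have h3 := finrank_three b
    have hP2 : Module.finrank ℝ P = 2 := by
      have h4 := Submodule.finrank_lt hPtop
      have h5 := Submodule.finrank_add_le_finrank_add_finrank P (Submodule.span ℝ {b 2})
      have h6 : Module.finrank ℝ (Submodule.span ℝ {b 2}) ≤ 1 := by
        have := finrank_span_le_card (R := ℝ) ({b 2} : Set E)
        simpa using this
      rw [hsup, finrank_top] at h5
      omega
    have hf : ∀ n ∈ h.Ku, ∀ m ∈ h.Ku, orb hol (dev x0) (n * m) =
        orb hol (dev x0) n + orb hol (dev x0) m := by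
      intro n hn m hm
      unfold orb
      rw [htr n hn (dev x0), htr m hm (dev x0), hol_mul_apply, htr m hm (dev x0),
        htr n hn (dev x0 + hol m 0)]
      abel
    have hch : ∀ γ, |h.Ch γ| = 1 := by
      intro γ
      have hd := det_of_conj h.Ku (orb hol (dev x0)) (wv b hol) hf hσ
        (orb_inj D hinj x0 h.Ku _ hσ) (orb_disc D hinj x0 h.Ku hf) hspan (by
          have h2 : Submodule.span ℝ (orb hol (dev x0) '' h.Ku) ≤ P := by
            rw [Submodule.span_le]
            rintro _ ⟨n, hn, rfl⟩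
            have : orb hol (dev x0) n = hol n 0 := by
              unfold orb
              rw [htr n hn (dev x0)]; abel
            rw [SetLike.mem_coe, this]
            exact Submodule.subset_span ⟨n, hn, rfl⟩
          have h3 := Submodule.finrank_mono h2
          rw [hP2] at h3
          simpa using h3)
        (Matrix.toLin' (h.Bm γ)) (Matrix.toLin' (h.Bm γ⁻¹))
        (fun n hn => ⟨γ * n * γ⁻¹, h.conj_mem hn γ, by
          rw [Matrix.toLin'_apply, (two_conj h h2 hn γ).1]⟩)
        (fun n hn => ⟨γ⁻¹ * n * γ⁻¹⁻¹, h.conj_mem hn γ⁻¹, by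
          rw [Matrix.toLin'_apply, (two_conj h h2 hn γ⁻¹).1]⟩)
        (fun v => by
          rw [Matrix.toLin'_apply, Matrix.toLin'_apply, Matrix.mulVec_mulVec, B_mul_inv,
            Matrix.one_mulVec])
      rw [LinearMap.det_toLin'] at hd
      have h2 := h.det_one D γ
      rw [abs_mul, hd, one_mul] at h2
      exact h2
    refine Pool.Agent.N520.RO.plane_case X Γ E dev hol D hinj h.Ch.ker
      (ker_finiteIndex h.Ch hch) P hP2 ?_
    intro γ hγ v
    obtain ⟨p, hp, t, rfl⟩ := hdec v
    have hb2 : (hol γ).linear (b 2) = b 2 := by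
      have h4 : Lm b hol γ 2 2 = 1 := hγ
      refine ext3 (b := b) ?_ ?_ ?_
      · rw [lin_repr, (h2 γ).1]; simp
      · rw [lin_repr, (h2 γ).2]; simp
      · rw [lin_repr, h4]; simp
    have h5 : (hol γ).linear (p + t • b 2) - (p + t • b 2) = (hol γ).linear p - p := by
      rw [map_add, map_smul, hb2]; abel
    rw [h5]
    exact Submodule.sub_mem _ (hPinv γ p hp) hp

end data

end Pool.Agent.Helper23M
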