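import Pool.Agent.Helper23M.Alg2

/-!
Discreteness of the 2x2 blocks of discrete groups of block triangular matrices.
-/

set_option autoImplicit false

open Set Filter Topology

namespace Pool.Agent.Helper23M

attribute [local instance] Matrix.normedAddCommGroup Matrix.normedSpace

section hom
variable {Γ : Type} [Group Γ] (B : Γ →* M2)

theorem detB_ne (γ : Γ) : (B γ).det ≠ 0 := by
  intro h0
  have h1 : (B γ).det * (B γ⁻¹).det = 1 := by rw [← Matrix.det_mul, B_mul_inv, Matrix.det_one]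
  rw [h0, zero_mul] at h1
  exact zero_ne_one h1

/-- the normalized block -/
noncomputable def bar : Γ →* M2 where
  toFun γ := (Real.sqrt |(B γ).det|)⁻¹ • B γ
  map_one' := by simp
  map_mul' γ δ := by
    rw [map_mul, Matrix.det_mul, abs_mul, Real.sqrt_mul (abs_nonneg _), mul_inv,
      Matrix.smul_mul, Matrix.mul_smul, smul_smul]

theorem bar_apply (γ : Γ) : bar B γ = (Real.sqrt |(B γ).det|)⁻¹ • B γ := rfl

theorem bar_det (γ : Γ) : |(bar B γ).det| = 1 := by
  rw [bar_apply, Matrix.det_smul, Fintype.card_fin, abs_mul, abs_pow, abs_inv,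
    abs_of_nonneg (Real.sqrt_nonneg _), inv_pow, Real.sq_sqrt (abs_nonneg _)]
  exact inv_mul_cancel₀ (abs_ne_zero.2 (detB_ne B γ))

theorem bar_eq {γ : Γ} (h : (B γ).det = 1) : bar B γ = B γ := by
  rw [bar_apply, h]; simp

theorem bar_inv (γ : Γ) : bar B γ⁻¹ = (bar B γ).det • (bar B γ).adjugate := by
  have h1 : (bar B γ).det * (bar B γ).det = 1 := by
    have := bar_det B γ
    have h2 := abs_mul_abs_self (bar B γ).det
    rw [this] at h2
    linarith
  have h2 : bar B γ * ((bar B γ).det • (bar B γ).adjugate) = 1 := by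
    rw [Matrix.mul_smul, Matrix.mul_adjugate, smul_smul, h1, one_smul]
  calc bar B γ⁻¹ = bar B γ⁻¹ * (bar B γ * ((bar B γ).det • (bar B γ).adjugate)) := by
        rw [h2, mul_one]
    _ = _ := by rw [← mul_assoc, B_inv_mul, one_mul]

theorem det_comm (g h : Γ) : (B (g * h * g⁻¹ * h⁻¹)).det = 1 := by
  have h1 : ∀ γ : Γ, (B γ).det * (B γ⁻¹).det = 1 := fun γ => by
    rw [← Matrix.det_mul, B_mul_inv, Matrix.det_one]
  simp only [map_mul, Matrix.det_mul]
  linear_combination (B h).det * (B h⁻¹).det * h1 g + h1 h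

theorem chi_comm (χ : Γ →* ℝ) (g h : Γ) : χ (g * h * g⁻¹ * h⁻¹) = 1 := by
  have h1 : ∀ γ : Γ, χ γ * χ γ⁻¹ = 1 := fun γ => by rw [← map_mul, mul_inv_cancel, map_one]
  simp only [map_mul]
  linear_combination χ h * χ h⁻¹ * h1 g + h1 h

theorem tf_cont : Continuous (tf : M2 → M2) := by
  unfold tf
  have : Continuous fun A : M2 => A.trace := by
    unfold Matrix.trace
    fun_prop
  fun_prop

theorem mul_lim {a b : ℕ → M2} {a0 b0 : M2} (ha : Tendsto a atTop (𝓝 a0))
    (hb : Tendsto b atTop (𝓝 b0)) : Tendsto (fun n => a n * b n) atTop (𝓝 (a0 * b0)) :=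
  ((continuous_fst.matrix_mul continuous_snd).tendsto ((a0, b0) : M2 × M2)).comp
    (ha.prodMk_nhds hb)

/-- elements converging to one -/
theorem seq_of_infinite {C : ℝ} (hinf : {P : M2 | (∃ γ, P = bar B γ) ∧ ‖P‖ ≤ C}.Infinite) :
    ∃ g : ℕ → Γ, Tendsto (fun n => bar B (g n)) atTop (𝓝 1) ∧ ∀ n, bar B (g n) ≠ 1 := by
  have : ProperSpace M2 := FiniteDimensional.proper_real M2
  let e := hinf.natEmbedding
  have hmem : ∀ n, ((e n : M2)) ∈ Metric.closedBall (0 : M2) C := fun n => by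
    rw [mem_closedBall_zero_iff]; exact (e n).2.2
  choose γ hγ using fun n => (e n).2.1
  obtain ⟨P, -, φ, hφ, hφt⟩ := (isCompact_closedBall (0 : M2) C).tendsto_subseq hmem
  have hP : Tendsto (fun n => bar B (γ (φ n))) atTop (𝓝 P) := by
    refine hφt.congr fun n => ?_
    exact hγ (φ n)
  have hdetc : Continuous fun A : M2 => A.det := Continuous.matrix_det continuous_id
  have hadj : Continuous fun A : M2 => A.adjugate := Continuous.matrix_adjugate continuous_id
  have hPd : P.det * P.det = 1 := by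
    have h1 : Tendsto (fun n => (bar B (γ (φ n))).det * (bar B (γ (φ n))).det) atTop
        (𝓝 (P.det * P.det)) :=
      ((hdetc.tendsto P).comp hP).mul ((hdetc.tendsto P).comp hP)
    refine tendsto_nhds_unique h1 ?_
    refine tendsto_const_nhds.congr fun n => ?_
    rw [← abs_mul_abs_self, bar_det, one_mul]
  refine ⟨fun n => (γ (φ n))⁻¹ * γ (φ (n + 1)), ?_, fun n hn => ?_⟩
  · have h1 : Tendsto (fun n => bar B (γ (φ n))⁻¹) atTop (𝓝 (P.det • P.adjugate)) := by
      simp only [bar_inv]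
      exact ((hdetc.tendsto P).comp hP).smul ((hadj.tendsto P).comp hP)
    have h2 : Tendsto (fun n => bar B (γ (φ (n + 1)))) atTop (𝓝 P) :=
      hP.comp (tendsto_add_atTop_nat 1)
    have h3 := mul_lim h1 h2
    have h4 : P.det • P.adjugate * P = 1 := by
      rw [Matrix.smul_mul, Matrix.adjugate_mul, smul_smul, hPd, one_smul]
    rw [h4] at h3
    refine h3.congr fun n => ?_
    rw [map_mul]
  · have h1 : bar B (γ (φ n)) = bar B (γ (φ (n + 1))) := by
      calc bar B (γ (φ n)) = bar B (γ (φ n)) * bar B ((γ (φ n))⁻¹ * γ (φ (n + 1))) := by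
            rw [hn, mul_one]
        _ = _ := by rw [← map_mul]; congr 1; group
    have h2 : e (φ n) = e (φ (n + 1)) := by
      apply Subtype.ext
      rw [hγ, hγ]
      exact h1
    have h3 : φ n < φ (n + 1) := hφ (Nat.lt_succ_self n)
    exact h3.ne (e.injective h2)

theorem Nz_smul {N P : M2} {a : ℝ} (h : Nz N P) : Nz (a • N) P := by
  obtain ⟨c, hc⟩ := h
  refine ⟨c, ?_⟩
  rw [Matrix.mul_smul, hc, Matrix.smul_mul, smul_comm]

/-- in a limit direction one group element does not normalize -/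
theorem exists_not_nz (hNS : ∀ N : M2, N.trace = 0 → N ≠ 0 → ∃ h, ¬ Nz N (B h))
    {N : ℕ → M2} (hN : ∀ n, (N n).trace = 0) (hN0 : ∀ n, N n ≠ 0) :
    ∃ h, ∃ᶠ n in atTop, ¬ Nz (N n) (B h) := by
  have : ProperSpace M2 := FiniteDimensional.proper_real M2
  obtain ⟨L, hL, φ, hφ, hφt⟩ := (isCompact_sphere (0 : M2) 1).tendsto_subseq
    (x := fun n => ‖N n‖⁻¹ • N n) (fun n => by
      rw [mem_sphere_zero_iff_norm, norm_smul, norm_inv, norm_norm]
      exact inv_mul_cancel₀ (norm_ne_zero_iff.2 (hN0 n)))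
  have hL1 : ‖L‖ = 1 := by rwa [mem_sphere_zero_iff_norm] at hL
  have hL0 : L ≠ 0 := by
    intro h0; rw [h0, norm_zero] at hL1; exact zero_ne_one hL1
  have htrc : Continuous fun A : M2 => A.trace := by
    unfold Matrix.trace
    fun_prop
  have hLt : L.trace = 0 := by
    refine tendsto_nhds_unique ((htrc.tendsto L).comp hφt) ?_
    refine tendsto_const_nhds.congr fun n => ?_
    show 0 = (‖N (φ n)‖⁻¹ • N (φ n)).trace
    rw [Matrix.trace_smul, hN, smul_zero]
  obtain ⟨h, hh⟩ := hNS L hLt hL0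
  refine ⟨h, fun hcon => hh ?_⟩
  have hcon' : ∀ᶠ n in atTop, Nz (N n) (B h) := hcon.mono fun n hn => not_not.1 hn
  have hev : ∀ᶠ n in atTop, Nz (‖N (φ n)‖⁻¹ • N (φ n)) (B h) :=
    (hφ.tendsto_atTop.eventually hcon').mono fun n hn => Nz_smul hn
  -- an entry
  obtain ⟨i, j, hij⟩ : ∃ i j, L i j ≠ 0 := by
    by_contra hcon
    push Not at hcon
    exact hL0 (Matrix.ext hcon)
  let T : M2 → M2 := fun A => B h * A * B h⁻¹
  have hT : Continuous T := (continuous_const.matrix_mul continuous_id).matrix_mul continuous_const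
  have hTt : Tendsto (fun n => T (‖N (φ n)‖⁻¹ • N (φ n))) atTop (𝓝 (T L)) :=
    (hT.tendsto L).comp hφt
  have hent : ∀ A : M2, Continuous fun A : M2 => A i j := fun _ => by fun_prop
  have hc1 : Tendsto (fun n => (‖N (φ n)‖⁻¹ • N (φ n)) i j) atTop (𝓝 (L i j)) :=
    ((hent 0).tendsto L).comp hφt
  have hc2 : Tendsto (fun n => T (‖N (φ n)‖⁻¹ • N (φ n)) i j) atTop (𝓝 (T L i j)) :=
    ((hent 0).tendsto (T L)).comp hTt
  have hc3 := hc2.div hc1 hij
  have hc4 : Tendsto (fun n => (T (‖N (φ n)‖⁻¹ • N (φ n)) i j / (‖N (φ n)‖⁻¹ • N (φ n)) i j) •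
      (‖N (φ n)‖⁻¹ • N (φ n))) atTop (𝓝 ((T L i j / L i j) • L)) := hc3.smul hφt
  have hev2 : ∀ᶠ n in atTop, (T (‖N (φ n)‖⁻¹ • N (φ n)) i j / (‖N (φ n)‖⁻¹ • N (φ n)) i j) •
      (‖N (φ n)‖⁻¹ • N (φ n)) = T (‖N (φ n)‖⁻¹ • N (φ n)) := by
    filter_upwards [hev, hc1.eventually_ne hij] with n hn hne
    obtain ⟨c, hc⟩ := hn
    have h1 : T (‖N (φ n)‖⁻¹ • N (φ n)) = c • (‖N (φ n)‖⁻¹ • N (φ n)) := by
      show B h * (‖N (φ n)‖⁻¹ • N (φ n)) * B h⁻¹ = _
      rw [hc, Matrix.smul_mul, mul_assoc, B_mul_inv, mul_one]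
    have h2 : T (‖N (φ n)‖⁻¹ • N (φ n)) i j / (‖N (φ n)‖⁻¹ • N (φ n)) i j = c := by
      rw [h1, Matrix.smul_apply, smul_eq_mul, mul_div_assoc, div_self hne, mul_one]
    rw [h2, h1]
  have h3 : T L = (T L i j / L i j) • L :=
    tendsto_nhds_unique (hTt.congr' (hev2.mono fun n hn => hn.symm)) hc4
  refine ⟨T L i j / L i j, ?_⟩
  calc B h * L = T L * B h := by
        show _ = B h * L * B h⁻¹ * B h
        rw [mul_assoc (B h * L), B_inv_mul, mul_one]
    _ = _ := by rw [h3, Matrix.smul_mul, ← h3]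

theorem tf_ne_zero_of {A : ℕ → M2} (hA : Tendsto A atTop (𝓝 1)) (hA1 : ∀ n, A n ≠ 1)
    (hd : ∀ n, |(A n).det| = 1) : ∀ᶠ n in atTop, tf (A n) ≠ 0 := by
  have h1 : ∀ᶠ n in atTop, 0 < A n 0 0 := by
    have hc : Continuous fun A : M2 => A 0 0 := by fun_prop
    have : Tendsto (fun n => A n 0 0) atTop (𝓝 ((1 : M2) 0 0)) := (hc.tendsto 1).comp hA
    rw [Matrix.one_apply_eq] at this
    exact this.eventually_const_lt one_pos
  filter_upwards [h1] with n hn h0
  apply hA1 n
  have h2 : A n = ((A n).trace / 2) • 1 := sub_eq_zero.1 h0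
  have h3 := hd n
  rw [h2, Matrix.det_smul, Matrix.det_one, Fintype.card_fin, mul_one, abs_pow] at h3
  have h4 : A n 0 0 = (A n).trace / 2 := by
    have := congrArg (fun M : M2 => M 0 0) h2
    simpa using this
  rw [← h4, abs_of_pos hn] at h3
  have h5 : A n 0 0 = 1 := by
    rcases eq_or_ne (A n 0 0) 1 with h | h
    · exact h
    · exfalso
      apply h
      nlinarith
  rw [h2, ← h4, h5, one_smul]

/-- the main result on discreteness -/
theorem disc (χ : Γ →* ℝ) (hNS : ∀ N : M2, N.trace = 0 → N ≠ 0 → ∃ h, ¬ Nz N (B h))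
    {ε : ℝ} (hε : 0 < ε) (hZ : ∀ g h : Γ, χ g = 1 → χ h = 1 → (B g).det = 1 → (B h).det = 1 →
      (∀ i j, |B g i j - (1 : M2) i j| < ε) → (∀ i j, |B h i j - (1 : M2) i j| < ε) →
      ∃ k, B (it g h k) = 1) (C : ℝ) :
    {P : M2 | (∃ γ, P = bar B γ) ∧ ‖P‖ ≤ C}.Finite := by
  by_contra hinf
  obtain ⟨g, hg, hg1⟩ := seq_of_infinite B hinf
  obtain ⟨n0, hn0⟩ := eventually_atTop.1 (tf_ne_zero_of hg hg1 fun n => bar_det B _)
  obtain ⟨h1, hh1⟩ := exists_not_nz B hNS (N := fun n => tf (bar B (g (n + n0))))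
    (fun n => tf_trace _) (fun n => hn0 _ (by omega))
  obtain ⟨ψ, hψ, hψ'⟩ := extraction_of_frequently_atTop hh1
  let u : ℕ → Γ := fun n => g (ψ n + n0) * h1 * (g (ψ n + n0))⁻¹ * h1⁻¹
  have hgψ : Tendsto (fun n => bar B (g (ψ n + n0))) atTop (𝓝 1) :=
    hg.comp ((tendsto_add_atTop_nat n0).comp hψ.tendsto_atTop)
  have hdetc : Continuous fun A : M2 => A.det := Continuous.matrix_det continuous_id
  have hadj : Continuous fun A : M2 => A.adjugate := Continuous.matrix_adjugate continuous_id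
  have hginv : Tendsto (fun n => bar B (g (ψ n + n0))⁻¹) atTop (𝓝 1) := by
    simp only [bar_inv]
    have := ((hdetc.tendsto 1).comp hgψ).smul ((hadj.tendsto 1).comp hgψ)
    simpa using this
  have hub : ∀ n, B (u n) = bar B (u n) := fun n => (bar_eq B (det_comm B _ _)).symm
  have hu : Tendsto (fun n => bar B (u n)) atTop (𝓝 1) := by
    have h2 := mul_lim (mul_lim (mul_lim hgψ (tendsto_const_nhds (x := bar B h1))) hginv)
      (tendsto_const_nhds (x := bar B h1⁻¹))
    have h3 : (1 : M2) * bar B h1 * 1 * bar B h1⁻¹ = 1 := by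
      rw [one_mul, mul_one, B_mul_inv]
    rw [h3] at h2
    refine h2.congr fun n => ?_
    show _ = bar B (g (ψ n + n0) * h1 * (g (ψ n + n0))⁻¹ * h1⁻¹)
    simp only [map_mul]
  have hu1 : ∀ n, bar B (u n) ≠ 1 := by
    intro n hn
    apply hψ' n
    have h2 : B (g (ψ n + n0)) * B h1 = B h1 * B (g (ψ n + n0)) := by
      have h3 : B (u n) = 1 := by rw [hub, hn]
      calc B (g (ψ n + n0)) * B h1 = B (u n) * (B h1 * B (g (ψ n + n0))) := by
            rw [← map_mul, ← map_mul, ← map_mul]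
            congr 1
            show _ = g (ψ n + n0) * h1 * (g (ψ n + n0))⁻¹ * h1⁻¹ * (h1 * g (ψ n + n0))
            group
        _ = _ := by rw [h3, one_mul]
    refine ⟨1, ?_⟩
    rw [one_smul]
    unfold tf
    rw [mul_sub, sub_mul, Matrix.mul_smul, Matrix.smul_mul, mul_one, one_mul, bar_apply,
      Matrix.mul_smul, Matrix.smul_mul, h2]
  obtain ⟨n1, hn1⟩ := eventually_atTop.1 (tf_ne_zero_of hu hu1 fun n => bar_det B _)
  obtain ⟨h2, hh2⟩ := exists_not_nz B hNS (N := fun n => tf (bar B (u (n + n1))))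
    (fun n => tf_trace _) (fun n => hn1 _ (by omega))
  -- closeness
  have hu' : Tendsto (fun n => B (u (n + n1))) atTop (𝓝 1) := by
    refine (hu.comp (tendsto_add_atTop_nat n1)).congr fun n => ?_
    exact (hub _).symm
  have hv' : Tendsto (fun n => B (h2 * u (n + n1) * h2⁻¹)) atTop (𝓝 1) := by
    have h3 := mul_lim (mul_lim (tendsto_const_nhds (x := B h2)) hu')
      (tendsto_const_nhds (x := B h2⁻¹))
    rw [mul_one, B_mul_inv] at h3
    refine h3.congr fun n => ?_
    rw [map_mul B (h2 * u (n + n1)) h2⁻¹, map_mul B h2]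
  have hclose : ∀ {A : ℕ → M2}, Tendsto A atTop (𝓝 1) → ∀ {η : ℝ}, 0 < η →
      ∀ᶠ n in atTop, ∀ i j, |A n i j - (1 : M2) i j| < η := by
    intro A hA η hη
    rw [eventually_all]; intro i; rw [eventually_all]; intro j
    have hc : Continuous fun A : M2 => A i j := by fun_prop
    have h3 : Tendsto (fun n => A n i j - (1 : M2) i j) atTop (𝓝 ((1 : M2) i j - (1 : M2) i j)) :=
      ((hc.tendsto 1).comp hA).sub_const _
    rw [sub_self] at h3
    have := h3.abs
    rw [abs_zero] at this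
    exact this.eventually_lt_const hη
  obtain ⟨n, ⟨hn2, hn3, hn4⟩⟩ := (hh2.and_eventually ((hclose hu' (lt_min hε one_pos)).and
    (hclose hv' hε))).exists
  have hdu : (B (u (n + n1))).det = 1 := det_comm B _ _
  have hdv : (B (h2 * u (n + n1) * h2⁻¹)).det = 1 := by
    have h3 : (B h2).det * (B h2⁻¹).det = 1 := by rw [← Matrix.det_mul, B_mul_inv, Matrix.det_one]
    simp only [map_mul, Matrix.det_mul]
    rw [hdu, mul_one, h3]
  have hcu : χ (u (n + n1)) = 1 := chi_comm χ _ _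
  have hcv : χ (h2 * u (n + n1) * h2⁻¹) = 1 := by
    rw [map_mul, map_mul, hcu, mul_one, ← map_mul, mul_inv_cancel, map_one]
  obtain ⟨k, hk⟩ := hZ _ _ hcu hcv hdu hdv (fun i j => (hn3 i j).trans_le (min_le_left _ _)) hn4
  rw [← hub] at hn2
  refine it_ne_one B hdu ?_ hn2 k hk
  have h3 := (hn3 0 0).trans_le (min_le_right _ _)
  have h4 := (hn3 1 1).trans_le (min_le_right _ _)
  rw [Matrix.one_apply_eq, abs_lt] at h3 h4
  rw [Matrix.trace_fin_two]
  have := h3.1
  have := h4.1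
  intro h5
  linarith

end hom

end Pool.Agent.Helper23M
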