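import Pool.Agent.Helper23M.Lat

/-!
Unipotent groups: finite index, torsion, irreducibility.
-/

set_option autoImplicit false

open Set Filter Topology Metric MeasureTheory
open scoped ENNReal
open Pool.Agent.W689.Mk

namespace Pool.Agent.Helper23M

section data
variable {X Γ E : Type} [TopologicalSpace X] [T2Space X] [SecondCountableTopology X] [Nonempty X]
  [Group Γ] [MulAction Γ X] [NormedAddCommGroup E] [NormedSpace ℝ E] [FiniteDimensional ℝ E]
  {dev : X → E} {hol : Γ →* (E ≃ᵃ[ℝ] E)}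

/-- a subgroup which acts cocompactly on the affine space has finite index -/
theorem finiteIndex_of_cocompact (D : AffData X Γ E dev hol) (hinj : Function.Injective dev)
    (K : Subgroup Γ) (R : ℝ) (hK : ∀ y : E, ∃ n ∈ K, ‖hol n y‖ ≤ R) : K.FiniteIndex := by
  classical
  let : MeasurableSpace E := borel E
  have : BorelSpace E := ⟨rfl⟩
  obtain ⟨x0⟩ := (inferInstance : Nonempty X)
  have hopen : IsOpen (range dev) := D.loc.isOpenMap.isOpen_range
  obtain ⟨r, hr, hball⟩ := Metric.nhds_basis_closedBall.mem_iff.1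
    (hopen.mem_nhds (mem_range_self x0))
  obtain ⟨B, hB, hJ⟩ := Pool.Agent.Y449.MS.INT.main X Γ E dev hol D hinj K univ R
    MeasurableSet.univ (fun y _ => hK y) (dev x0) r hball
  obtain ⟨T, hT, hTn⟩ := Pool.Agent.Y449.MS.COS.finite_of_bound K univ
    ((Measure.addHaar : Measure E) (ball (dev x0) r)) B (measure_ball_pos _ _ hr) hB (by
      intro J _ hJ'
      have h1 := hJ J hJ'
      simp only [preimage_univ, inter_univ, Finset.sum_const, nsmul_eq_mul] at h1
      exact h1)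
  have : Finite T := hT
  have hsurj : Function.Surjective (fun t : T => (QuotientGroup.mk ((t : Γ)⁻¹) : Γ ⧸ K)) := by
    intro q
    obtain ⟨γ, rfl⟩ := QuotientGroup.mk_surjective q
    obtain ⟨δ, hδ, h1⟩ := hTn γ⁻¹ (mem_univ _)
    refine ⟨⟨δ, hδ⟩, ?_⟩
    show (QuotientGroup.mk (δ⁻¹) : Γ ⧸ K) = QuotientGroup.mk γ
    rw [eq_comm, QuotientGroup.eq]
    exact h1
  have : Finite (Γ ⧸ K) := Finite.of_surjective _ hsurj
  exact Subgroup.finiteIndex_of_finite_quotient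

variable {b : Module.Basis (Fin 3) ℝ E} {dd : Fin 3 → ℕ}

omit [FiniteDimensional ℝ E] in
theorem Blk.vs_of_finiteIndex (h : Blk b hol dd) (hK : h.Ku.FiniteIndex) : VS hol := by
  refine ⟨h.Ku, hK, ?_⟩
  let K : ℕ → Subgroup Γ := fun i => if i = 0 then h.Ku else (Lm b hol).ker
  refine solv_of_chain hol h.Ku K 1 le_rfl ?_ ?_
  · intro i hi g hg g' hg'
    interval_cases i
    exact h.step_last g hg g' hg'
  · intro g hg v
    exact linear_of_Lm hg v

/-- if the unipotent part consists of translations in spanning directions, the linear holonomy is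
virtually solvable -/
theorem Blk.vs_of_span (h : Blk b hol dd) (D : AffData X Γ E dev hol)
    (hinj : Function.Injective dev) (htr : ∀ n ∈ h.Ku, ∀ p, hol n p = p + hol n 0)
    (hspan : Submodule.span ℝ ((fun n => hol n 0) '' (h.Ku : Set Γ)) = ⊤) : VS hol := by
  classical
  apply h.vs_of_finiteIndex
  obtain ⟨s, hs1, hs2, hs3⟩ := exists_linearIndependent ℝ ((fun n => hol n 0) '' (h.Ku : Set Γ))
  have hs : Finite s := hs3.finite
  have := Fintype.ofFinite s
  have htop : ⊤ ≤ Submodule.span ℝ (range ((↑) : s → E)) := by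
    rw [Subtype.range_coe, hs2, hspan]
  let c := Module.Basis.mk hs3 htop
  have hc : ∀ i, c i = (i : E) := fun i => by simp [c]
  have hadd : ∀ n ∈ h.Ku, ∀ m ∈ h.Ku, hol (n * m) 0 = hol n 0 + hol m 0 := by
    intro n hn m hm
    have h1 : hol (n * m) 0 = hol n (hol m 0) := by rw [map_mul]; rfl
    rw [h1, htr n hn, add_comm]
  let T : Submodule ℤ E := imL h.Ku (fun n => hol n 0) hadd
  have hT : Submodule.span ℤ (range c) ≤ T := by
    rw [Submodule.span_le]
    rintro _ ⟨i, rfl⟩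
    rw [hc]
    exact hs1 i.2
  refine finiteIndex_of_cocompact D hinj h.Ku (∑ i, ‖c i‖) fun y => ?_
  have h1 : -(ZSpan.floor c y : E) ∈ T := hT (Submodule.neg_mem _ (ZSpan.floor c y).2)
  obtain ⟨n, hn, hny⟩ := mem_imL.1 h1
  refine ⟨n, hn, ?_⟩
  have h2 : hol n 0 = -(ZSpan.floor c y : E) := hny
  rw [htr n hn, h2, ← sub_eq_add_neg, ← ZSpan.fract_apply]
  exact ZSpan.norm_fract_le c y

omit [FiniteDimensional ℝ E] [SecondCountableTopology X] [Nonempty X] in
/-- elements which fix a point of the domain are killed by homomorphisms into vector spaces -/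
theorem torsion (D : AffData X Γ E dev hol) (hinj : Function.Injective dev) (x0 : X)
    {F : Type} [NormedAddCommGroup F] [NormedSpace ℝ F] (K : Subgroup Γ) (σ : Γ → F)
    (hσ : ∀ n ∈ K, ∀ m ∈ K, σ (n * m) = σ n + σ m) {n : Γ} (hn : n ∈ K)
    (hfix : hol n (dev x0) = dev x0) : σ n = 0 := by
  have h0 : n • x0 = x0 := by
    apply hinj
    rw [D.equi]; exact hfix
  have hpow : ∀ k : ℕ, n ^ k • x0 = x0 := by
    intro k
    induction k with
    | zero => rw [pow_zero, one_smul]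
    | succ k ih => rw [pow_succ, mul_smul, h0, ih]
  have hfin := D.pd {x0} isCompact_singleton
  have hmem : ∀ k : ℕ, n ^ k ∈ {γ : Γ | ∃ x ∈ ({x0} : Set X), γ • x ∈ ({x0} : Set X)} :=
    fun k => ⟨x0, rfl, hpow k⟩
  obtain ⟨i, j, hij, he⟩ := Set.Finite.exists_lt_map_eq_of_forall_mem hmem hfin
  have hσp : ∀ k : ℕ, σ (n ^ k) = (k : ℝ) • σ n := by
    intro k
    induction k with
    | zero => rw [pow_zero, add_one hσ, Nat.cast_zero, zero_smul]
    | succ k ih =>
      rw [pow_succ, hσ _ (K.pow_mem hn k) _ hn, ih, Nat.cast_succ, add_smul, one_smul]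
  have h1 : ((i : ℝ) - j) • σ n = 0 := by
    rw [sub_smul, ← hσp, ← hσp, he, sub_self]
  refine (smul_eq_zero.1 h1).resolve_left ?_
  have : (i : ℝ) < j := by exact_mod_cast hij
  linarith

omit [FiniteDimensional ℝ E] [SecondCountableTopology X] [Nonempty X] in
theorem orb_inj (D : AffData X Γ E dev hol) (hinj : Function.Injective dev) (x0 : X)
    {F : Type} [NormedAddCommGroup F] [NormedSpace ℝ F] (K : Subgroup Γ) (σ : Γ → F)
    (hσ : ∀ n ∈ K, ∀ m ∈ K, σ (n * m) = σ n + σ m) :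
    ∀ n ∈ K, ∀ m ∈ K, orb hol (dev x0) n = orb hol (dev x0) m → σ n = σ m := by
  intro n hn m hm he
  have h1 : hol n (dev x0) = hol m (dev x0) := by
    unfold orb at he
    exact sub_left_injective he
  have h2 : hol (m⁻¹ * n) (dev x0) = dev x0 := by
    have h3 : hol (m⁻¹ * n) (dev x0) = hol m⁻¹ (hol n (dev x0)) := by rw [map_mul]; rfl
    rw [h3, h1]
    have h4 : hol m⁻¹ (hol m (dev x0)) = hol (m⁻¹ * m) (dev x0) := by rw [map_mul]; rfl
    rw [h4, inv_mul_cancel, map_one]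
    rfl
  have h3 := torsion D hinj x0 K σ hσ (K.mul_mem (K.inv_mem hm) hn) h2
  rw [hσ _ (K.inv_mem hm) _ hn, add_inv hσ hm] at h3
  have h4 := eq_neg_of_add_eq_zero_right h3
  rw [h4, neg_neg]

end data

section irr
variable {Γ E : Type} [Group Γ] [NormedAddCommGroup E] [NormedSpace ℝ E]
  {b : Module.Basis (Fin 3) ℝ E} {hol : Γ →* (E ≃ᵃ[ℝ] E)} {dd : Fin 3 → ℕ}

/-- no line of column vectors is invariant -/
theorem Blk.irr (h : Blk b hol dd) (hV : ¬ VS hol) {v : Fin 2 → ℝ} (hv : v ≠ 0) :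
    ∃ γ, ¬ ∃ c : ℝ, (h.Bm γ).mulVec v = c • v := by
  by_contra hcon
  push Not at hcon
  let N : M2 := !![-(v 0 * v 1), v 0 * v 0; -(v 1 * v 1), v 0 * v 1]
  obtain ⟨g, hg⟩ := h.ns hV N (by simp [N, Matrix.trace_fin_two]) (by
    intro h0
    apply hv
    have h1 : v 0 * v 0 = 0 := by
      have := congrArg (fun A : M2 => A 0 1) h0
      simpa [N] using this
    have h2 : v 1 * v 1 = 0 := by
      have := congrArg (fun A : M2 => A 1 0) h0
      simpa [N] using this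
    ext i
    fin_cases i
    · exact mul_self_eq_zero.1 h1
    · exact mul_self_eq_zero.1 h2)
  apply hg
  obtain ⟨c, hc⟩ := hcon g
  have e0 := congrFun hc 0
  have e1 := congrFun hc 1
  simp only [Matrix.mulVec, dotProduct, Fin.sum_univ_two, Pi.smul_apply, smul_eq_mul] at e0 e1
  have hdet := detB_ne h.Bm g
  have hc0 : c ≠ 0 := by
    rintro rfl
    rw [Matrix.det_fin_two] at hdet
    apply hv
    have k0 : (h.Bm g 0 0 * h.Bm g 1 1 - h.Bm g 0 1 * h.Bm g 1 0) * v 0 = 0 := by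
      linear_combination h.Bm g 1 1 * e0 - h.Bm g 0 1 * e1
    have k1 : (h.Bm g 0 0 * h.Bm g 1 1 - h.Bm g 0 1 * h.Bm g 1 0) * v 1 = 0 := by
      linear_combination h.Bm g 0 0 * e1 - h.Bm g 1 0 * e0
    ext i
    fin_cases i
    · exact (mul_eq_zero.1 k0).resolve_left hdet
    · exact (mul_eq_zero.1 k1).resolve_left hdet
  rw [Matrix.det_fin_two] at hdet
  have n00 : N 0 0 = -(v 0 * v 1) := rfl
  have n01 : N 0 1 = v 0 * v 0 := rfl
  have n10 : N 1 0 = -(v 1 * v 1) := rfl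
  have n11 : N 1 1 = v 0 * v 1 := rfl
  refine ⟨c * c / (h.Bm g 0 0 * h.Bm g 1 1 - h.Bm g 0 1 * h.Bm g 1 0), ?_⟩
  have k1 : h.Bm g * N = c • N := by
    ext i j
    fin_cases i <;> fin_cases j
    · show (h.Bm g * N) 0 0 = c * N 0 0
      rw [Matrix.mul_apply, Fin.sum_univ_two, n00, n10]
      linear_combination (-v 1) * e0
    · show (h.Bm g * N) 0 1 = c * N 0 1
      rw [Matrix.mul_apply, Fin.sum_univ_two, n01, n11]
      linear_combination (v 0) * e0
    · show (h.Bm g * N) 1 0 = c * N 1 0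
      rw [Matrix.mul_apply, Fin.sum_univ_two, n00, n10]
      linear_combination (-v 1) * e1
    · show (h.Bm g * N) 1 1 = c * N 1 1
      rw [Matrix.mul_apply, Fin.sum_univ_two, n01, n11]
      linear_combination (v 0) * e1
  have k2 : c • (N * h.Bm g) = (h.Bm g 0 0 * h.Bm g 1 1 - h.Bm g 0 1 * h.Bm g 1 0) • N := by
    ext i j
    fin_cases i <;> fin_cases j
    · show c * (N * h.Bm g) 0 0 = (h.Bm g 0 0 * h.Bm g 1 1 - h.Bm g 0 1 * h.Bm g 1 0) * N 0 0
      rw [Matrix.mul_apply, Fin.sum_univ_two, n00, n01]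
      linear_combination v 0 * (-(h.Bm g 1 0) * e0 + h.Bm g 0 0 * e1)
    · show c * (N * h.Bm g) 0 1 = (h.Bm g 0 0 * h.Bm g 1 1 - h.Bm g 0 1 * h.Bm g 1 0) * N 0 1
      rw [Matrix.mul_apply, Fin.sum_univ_two, n00, n01]
      linear_combination v 0 * (-(h.Bm g 1 1) * e0 + h.Bm g 0 1 * e1)
    · show c * (N * h.Bm g) 1 0 = (h.Bm g 0 0 * h.Bm g 1 1 - h.Bm g 0 1 * h.Bm g 1 0) * N 1 0
      rw [Matrix.mul_apply, Fin.sum_univ_two, n10, n11]
      linear_combination v 1 * (-(h.Bm g 1 0) * e0 + h.Bm g 0 0 * e1)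
    · show c * (N * h.Bm g) 1 1 = (h.Bm g 0 0 * h.Bm g 1 1 - h.Bm g 0 1 * h.Bm g 1 0) * N 1 1
      rw [Matrix.mul_apply, Fin.sum_univ_two, n10, n11]
      linear_combination v 1 * (-(h.Bm g 1 1) * e0 + h.Bm g 0 1 * e1)
  rw [k1, div_eq_mul_inv, mul_comm (c * c), mul_smul, mul_smul, k2, smul_comm c, smul_smul,
    inv_mul_cancel₀ hdet, one_smul]

/-- no line of row vectors is invariant -/
theorem Blk.irr' (h : Blk b hol dd) (hV : ¬ VS hol) {v : Fin 2 → ℝ} (hv : v ≠ 0) :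
    ∃ γ, ¬ ∃ c : ℝ, (h.Bm γ).vecMul v = c • v := by
  by_contra hcon
  push Not at hcon
  obtain ⟨g, hg⟩ := h.irr hV (v := ![v 1, -v 0]) (by
    intro h0
    apply hv
    have h1 := congrFun h0 0
    have h2 := congrFun h0 1
    ext i
    fin_cases i
    · simpa using h2
    · simpa using h1)
  apply hg
  obtain ⟨c, hc⟩ := hcon g
  have e0 := congrFun hc 0
  have e1 := congrFun hc 1
  simp only [Matrix.vecMul, dotProduct, Fin.sum_univ_two, Pi.smul_apply, smul_eq_mul] at e0 e1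
  have hdet := detB_ne h.Bm g
  rw [Matrix.det_fin_two] at hdet
  have hc0 : c ≠ 0 := by
    rintro rfl
    apply hv
    have k0 : (h.Bm g 0 0 * h.Bm g 1 1 - h.Bm g 0 1 * h.Bm g 1 0) * v 0 = 0 := by
      linear_combination h.Bm g 1 1 * e0 - h.Bm g 1 0 * e1
    have k1 : (h.Bm g 0 0 * h.Bm g 1 1 - h.Bm g 0 1 * h.Bm g 1 0) * v 1 = 0 := by
      linear_combination h.Bm g 0 0 * e1 - h.Bm g 0 1 * e0
    ext i
    fin_cases i
    · exact (mul_eq_zero.1 k0).resolve_left hdet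
    · exact (mul_eq_zero.1 k1).resolve_left hdet
  refine ⟨(h.Bm g 0 0 * h.Bm g 1 1 - h.Bm g 0 1 * h.Bm g 1 0) / c, ?_⟩
  ext i
  fin_cases i
  · show (h.Bm g).mulVec ![v 1, -v 0] 0 = _ * v 1
    rw [Matrix.mulVec, dotProduct, Fin.sum_univ_two]
    show h.Bm g 0 0 * v 1 + h.Bm g 0 1 * (-v 0) = _
    field_simp
    linear_combination (h.Bm g 0 1) * e0 - (h.Bm g 0 0) * e1
  · show (h.Bm g).mulVec ![v 1, -v 0] 1 = _ * (-v 0)
    rw [Matrix.mulVec, dotProduct, Fin.sum_univ_two]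
    show h.Bm g 1 0 * v 1 + h.Bm g 1 1 * (-v 0) = _
    field_simp
    linear_combination (h.Bm g 1 1) * e0 - (h.Bm g 1 0) * e1

/-- invariant families of column vectors span -/
theorem Blk.span_top (h : Blk b hol dd) (hV : ¬ VS hol) (S : Set (Fin 2 → ℝ))
    (hS : ∀ γ, ∀ v ∈ S, ∃ c : ℝ, ∃ w ∈ S, (h.Bm γ).mulVec v = c • w)
    (hne : ∃ v ∈ S, v ≠ 0) : Submodule.span ℝ S = ⊤ := by
  by_contra htop
  obtain ⟨v, hvS, hv⟩ := hne
  have h2 : Module.finrank ℝ (Submodule.span ℝ S) < 2 := by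
    have h3 := Submodule.finrank_lt htop
    simpa using h3
  have hmem : ∀ w ∈ Submodule.span ℝ S, ∃ c : ℝ, c • v = w := by
    have h1 : Module.finrank ℝ (Submodule.span ℝ S) ≤ 1 := by omega
    obtain ⟨u, hu⟩ := finrank_le_one_iff.1 h1
    obtain ⟨a, ha⟩ := hu ⟨v, Submodule.subset_span hvS⟩
    have ha' : a • (u : Fin 2 → ℝ) = v := congrArg Subtype.val ha
    have ha0 : a ≠ 0 := by
      rintro rfl
      rw [zero_smul] at ha'
      exact hv ha'.symm
    intro w hw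
    obtain ⟨d, hd⟩ := hu ⟨w, hw⟩
    have hd' : d • (u : Fin 2 → ℝ) = w := congrArg Subtype.val hd
    refine ⟨d * a⁻¹, ?_⟩
    rw [← ha', smul_smul, mul_assoc, inv_mul_cancel₀ ha0, mul_one, hd']
  obtain ⟨g, hg⟩ := h.irr hV hv
  apply hg
  obtain ⟨c, w, hw, hcw⟩ := hS g v hvS
  obtain ⟨a, ha⟩ := hmem w (Submodule.subset_span hw)
  exact ⟨c * a, by rw [hcw, ← ha, smul_smul]⟩

/-- invariant families of row vectors span -/
theorem Blk.span_top' (h : Blk b hol dd) (hV : ¬ VS hol) (S : Set (Fin 2 → ℝ))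
    (hS : ∀ γ, ∀ v ∈ S, ∃ c : ℝ, ∃ w ∈ S, (h.Bm γ).vecMul v = c • w)
    (hne : ∃ v ∈ S, v ≠ 0) : Submodule.span ℝ S = ⊤ := by
  by_contra htop
  obtain ⟨v, hvS, hv⟩ := hne
  have h2 : Module.finrank ℝ (Submodule.span ℝ S) < 2 := by
    have h3 := Submodule.finrank_lt htop
    simpa using h3
  have hmem : ∀ w ∈ Submodule.span ℝ S, ∃ c : ℝ, c • v = w := by
    have h1 : Module.finrank ℝ (Submodule.span ℝ S) ≤ 1 := by omega
    obtain ⟨u, hu⟩ := finrank_le_one_iff.1 h1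
    obtain ⟨a, ha⟩ := hu ⟨v, Submodule.subset_span hvS⟩
    have ha' : a • (u : Fin 2 → ℝ) = v := congrArg Subtype.val ha
    have ha0 : a ≠ 0 := by
      rintro rfl
      rw [zero_smul] at ha'
      exact hv ha'.symm
    intro w hw
    obtain ⟨d, hd⟩ := hu ⟨w, hw⟩
    have hd' : d • (u : Fin 2 → ℝ) = w := congrArg Subtype.val hd
    refine ⟨d * a⁻¹, ?_⟩
    rw [← ha', smul_smul, mul_assoc, inv_mul_cancel₀ ha0, mul_one, hd']
  obtain ⟨g, hg⟩ := h.irr' hV hv
  apply hg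
  obtain ⟨c, w, hw, hcw⟩ := hS g v hvS
  obtain ⟨a, ha⟩ := hmem w (Submodule.subset_span hw)
  exact ⟨c * a, by rw [hcw, ← ha, smul_smul]⟩

end irr

end Pool.Agent.Helper23M
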