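import Pool.Agent.W689.Mk.Prin2
import Pool.Agent.W689.Mk.Av

/-!
Closed affine manifolds with parallel volume have no equivariant locally Lipschitz maps into the
affine space with an image of small dimension.
-/

set_option autoImplicit false

open Set Filter Topology MeasureTheory Metric
open scoped ENNReal NNReal
open Pool.Agent.W689.Mk

namespace Pool.Agent.Helper23M

section
variable {E : Type} [NormedAddCommGroup E] [NormedSpace ℝ E] [FiniteDimensional ℝ E]
  [MeasurableSpace E] [BorelSpace E] (lam : Measure E) [lam.IsAddHaarMeasure]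

/-- a set on which the differential is invertible has an image of positive measure -/
theorem null_of_null_image {g : E → E} {g' : E → E →L[ℝ] E} {s : Set E}
    (hg : ∀ x ∈ s, HasFDerivWithinAt g (g' x) s x) (hdet : ∀ x ∈ s, (g' x).det ≠ 0)
    (hnull : lam (g '' s) = 0) : lam s = 0 := by
  have hex : ∀ A : E →L[ℝ] E, ∃ δ : ℝ≥0, δ ≠ 0 ∧ (A.det ≠ 0 → ∃ m : ℝ≥0, m ≠ 0 ∧
      ∀ (t : Set E) (f : E → E), ApproximatesLinearOn f A t δ → (m : ℝ≥0∞) * lam t ≤ lam (f '' t)) := by
    intro A
    by_cases hA : A.det = 0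
    · exact ⟨1, one_ne_zero, fun h => absurd hA h⟩
    · have hpos : 0 < |A.det| := abs_pos.2 hA
      have hm : (((|A.det| / 2).toNNReal : ℝ≥0) : ℝ≥0∞) < ENNReal.ofReal |A.det| := by
        show ENNReal.ofReal (|A.det| / 2) < ENNReal.ofReal |A.det|
        rw [ENNReal.ofReal_lt_ofReal_iff hpos]
        linarith
      obtain ⟨δ, hδ, hδ0⟩ := ((mul_le_addHaar_image_of_lt_det lam A hm).and
        self_mem_nhdsWithin).exists
      refine ⟨δ, ne_of_gt hδ0, fun _ => ⟨(|A.det| / 2).toNNReal, ?_, hδ⟩⟩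
      rw [Ne, Real.toNNReal_eq_zero, not_le]
      linarith
  choose r hr0 hr using hex
  obtain ⟨t, A, -, -, hst, hap, hA⟩ :=
    exists_partition_approximatesLinearOn_of_hasFDerivWithinAt g s g' hg r hr0
  rcases s.eq_empty_or_nonempty with rfl | hne
  · simp
  have hz : ∀ n, lam (s ∩ t n) = 0 := by
    intro n
    obtain ⟨y, hy, hyA⟩ := hA hne n
    obtain ⟨m, hm0, hm⟩ := hr (A n) (by rw [hyA]; exact hdet y hy)
    have h1 := hm _ g (hap n)
    have h2 : lam (g '' (s ∩ t n)) = 0 := measure_mono_null (image_mono inter_subset_left) hnull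
    rw [h2] at h1
    have h3 : (m : ℝ≥0∞) * lam (s ∩ t n) = 0 := le_antisymm h1 bot_le
    rcases mul_eq_zero.1 h3 with h4 | h4
    · exact absurd (by exact_mod_cast h4) hm0
    · exact h4
  refine measure_mono_null ?_ (measure_iUnion_null hz)
  intro x hx
  obtain ⟨n, hn⟩ := mem_iUnion.1 (hst hx)
  exact mem_iUnion.2 ⟨n, hx, hn⟩

end

section
variable {X Γ E : Type} [TopologicalSpace X] [T2Space X] [SecondCountableTopology X] [Nonempty X]
  [Group Γ] [MulAction Γ X] [NormedAddCommGroup E] [NormedSpace ℝ E] [FiniteDimensional ℝ E]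
  {dev : X → E} {hol : Γ →* (E ≃ᵃ[ℝ] E)}

/-- there is no equivariant locally Lipschitz map with an image of small dimension -/
theorem null_principle (D : AffData X Γ E dev hol) {f : X → E} (hf : LL dev f)
    (he : ∀ (γ : Γ) x, f (γ • x) = hol γ (f x))
    (hdim : dimH (range f) < Module.finrank ℝ E) : False := by
  let _ : MeasurableSpace E := borel E
  have : BorelSpace E := ⟨rfl⟩
  let lam : Measure E := μH[(Module.finrank ℝ E : ℝ)]
  have hlam : lam.IsAddHaarMeasure := isAddHaarMeasure_hausdorffMeasure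
  have hnull : lam (range f) = 0 := by
    have h1 : dimH (range f) < ((Module.finrank ℝ E : ℝ≥0) : ℝ≥0∞) := by
      simpa using hdim
    have := hausdorffMeasure_of_dimH_lt h1
    simpa using this
  obtain ⟨m, c, ρ, hρc, hρ0, hρs, hρ1, hint, hsum⟩ := master lam D (vf_of_map D hf he)
  have in1 : ∀ i, ball (c i).p (c i).r ⊆ ball (c i).p (4 * (c i).r) :=
    fun i => ball_subset_ball (by linarith [(c i).hr])
  set Y : Fin m → E → E := fun i q => f ((c i).σ q) - dev ((c i).σ q) with hY
  have hYL : ∀ i, LipschitzOnWith ⟨(c i).L, (c i).hL⟩ (Y i)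
      (ball (c i).p (c i).r) := by
    intro i
    refine LipschitzOnWith.of_dist_le_mul fun q hq q' hq' => ?_
    rw [dist_eq_norm, dist_eq_norm]
    exact (c i).lip q (in1 i hq) q' (in1 i hq')
  -- the value of the integrand
  have hval : ∀ i, ∀ᵐ q ∂lam, q ∈ ball (c i).p (c i).r → dt (fderiv ℝ (Y i) q) = 0 := by
    intro i
    have h1 := (hYL i).ae_differentiableWithinAt_of_mem (μ := lam)
    let s : Set E := {q | q ∈ ball (c i).p (c i).r ∧ DifferentiableAt ℝ (Y i) q ∧
      dt (fderiv ℝ (Y i) q) ≠ 0}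
    have hs : lam s = 0 := by
      refine null_of_null_image lam (g := fun q => f ((c i).σ q))
        (g' := fun q => ContinuousLinearMap.id ℝ E + fderiv ℝ (Y i) q) ?_ (fun q hq => hq.2.2) ?_
      · rintro q ⟨hq, hqd, -⟩
        have h2 : HasFDerivAt (fun q => f ((c i).σ q))
            (ContinuousLinearMap.id ℝ E + fderiv ℝ (Y i) q) q := by
          have h3 := (hasFDerivAt_id q).add hqd.hasFDerivAt
          refine h3.congr_of_eventuallyEq ?_
          filter_upwards [isOpen_ball.mem_nhds hq] with p hp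
          show f ((c i).σ p) = id p + Y i p
          rw [hY]
          show f ((c i).σ p) = p + (f ((c i).σ p) - dev ((c i).σ p))
          rw [(c i).sec.inv p (in1 i hp)]
          abel
        exact h2.hasFDerivWithinAt
      · refine measure_mono_null ?_ hnull
        rintro _ ⟨q, _, rfl⟩
        exact mem_range_self _
    filter_upwards [h1, measure_eq_zero_iff_ae_notMem.1 hs] with q hq1 hq2 hqb
    by_contra hne
    exact hq2 ⟨hqb, (hq1 hqb).differentiableAt (isOpen_ball.mem_nhds hqb), hne⟩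
  have hnn : ∀ i, 0 ≤ᵐ[lam.restrict (ball (c i).p (c i).r)]
      fun q => -((dt (fderiv ℝ (Y i) q) - 1) * ρ i ((c i).σ q)) := by
    intro i
    rw [EventuallyLE, ae_restrict_iff' isOpen_ball.measurableSet]
    filter_upwards [hval i] with q hq hqb
    have h1 := hρ0 i ((c i).σ q)
    rw [hq hqb]
    simpa using h1
  have hz : ∀ i, ∫ q in ball (c i).p (c i).r,
      -((dt (fderiv ℝ (Y i) q) - 1) * ρ i ((c i).σ q)) ∂lam = 0 := by
    have h1 : ∑ i, ∫ q in ball (c i).p (c i).r,
      -((dt (fderiv ℝ (Y i) q) - 1) * ρ i ((c i).σ q)) ∂lam = 0 := by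
      simp only [integral_neg, Finset.sum_neg_distrib]
      rw [hsum, neg_zero]
    intro i
    refine (Finset.sum_eq_zero_iff_of_nonneg fun j _ => ?_).1 h1 i (Finset.mem_univ i)
    exact integral_nonneg_of_ae (hnn j)
  obtain ⟨x⟩ := (inferInstance : Nonempty X)
  obtain ⟨γ, i, hi⟩ := hρ1 x
  obtain ⟨q0, hq0, hq0x⟩ := hρs i _ hi
  have h1 := (integral_eq_zero_iff_of_nonneg_ae (hnn i) (hint i).neg).1 (hz i)
  rw [EventuallyEq, ae_restrict_iff' isOpen_ball.measurableSet] at h1
  have hopen : IsOpen (ball (c i).p (c i).r ∩ (c i).σ ⁻¹' ({x | ρ i x ≠ 0})) :=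
    ((c i).sec.cont.mono (in1 i)).isOpen_inter_preimage isOpen_ball
      (isOpen_ne_fun (hρc i) continuous_const)
  have hq0m : q0 ∈ ball (c i).p (c i).r ∩ (c i).σ ⁻¹' ({x | ρ i x ≠ 0}) := by
    refine ⟨hq0, ?_⟩
    show ρ i ((c i).σ q0) ≠ 0
    rw [hq0x]; exact hi
  have hpos := hopen.measure_pos lam ⟨q0, hq0m⟩
  have hnull : lam (ball (c i).p (c i).r ∩ (c i).σ ⁻¹' ({x | ρ i x ≠ 0})) = 0 := by
    refine measure_mono_null ?_ (ae_iff.1 ((h1.and (hval i))))
    intro q hq hcon
    obtain ⟨hqb, hqρ⟩ := hq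
    have h2 := hcon.1 hqb
    have h3 := hcon.2 hqb
    rw [h3] at h2
    simp only [Pi.zero_apply] at h2
    apply hqρ
    linarith
  exact hpos.ne' hnull

end

end Pool.Agent.Helper23M
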