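import Pool.Agent.Helper23M.Disc
import Pool.Agent.Helper23M.Null

/-!
If the group of a closed affine manifold with parallel volume maps to `GL(2, ℝ)` with finite kernel
and discrete image in `PGL(2, ℝ)`, the dimension is at most two: equivariant maps which factor
through the space of positive definite binary forms up to scale.
-/

set_option autoImplicit false

open Set Filter Topology MeasureTheory Metric
open scoped ENNReal NNReal
open Pool.Agent.W689.Mk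

namespace Pool.Agent.Helper23M

attribute [local instance] Matrix.normedAddCommGroup Matrix.normedSpace

/-- binary quadratic forms `y.1 u ^ 2 + 2 y.2.1 u v + y.2.2 v ^ 2` -/
abbrev V3 : Type := ℝ × ℝ × ℝ

/-- the determinant of the form -/
def fd (y : V3) : ℝ := y.1 * y.2.2 - y.2.1 ^ 2

/-- the trace of the form composed with `P` -/
def ft (P : M2) (y : V3) : ℝ := y.1 * (P 0 0 ^ 2 + P 0 1 ^ 2) +
  2 * y.2.1 * (P 0 0 * P 1 0 + P 0 1 * P 1 1) + y.2.2 * (P 1 0 ^ 2 + P 1 1 ^ 2)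

/-- composition of the form with `P` -/
def act (P : M2) : V3 →ₗ[ℝ] V3 where
  toFun y := (y.1 * P 0 0 ^ 2 + 2 * y.2.1 * (P 0 0 * P 1 0) + y.2.2 * P 1 0 ^ 2,
    y.1 * (P 0 0 * P 0 1) + y.2.1 * (P 0 0 * P 1 1 + P 0 1 * P 1 0) + y.2.2 * (P 1 0 * P 1 1),
    y.1 * P 0 1 ^ 2 + 2 * y.2.1 * (P 0 1 * P 1 1) + y.2.2 * P 1 1 ^ 2)
  map_add' y z := by
    ext <;> simp <;> ring
  map_smul' c y := by
    ext <;> simp <;> ring

theorem act_apply (P : M2) (y : V3) : act P y =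
    (y.1 * P 0 0 ^ 2 + 2 * y.2.1 * (P 0 0 * P 1 0) + y.2.2 * P 1 0 ^ 2,
    y.1 * (P 0 0 * P 0 1) + y.2.1 * (P 0 0 * P 1 1 + P 0 1 * P 1 0) + y.2.2 * (P 1 0 * P 1 1),
    y.1 * P 0 1 ^ 2 + 2 * y.2.1 * (P 0 1 * P 1 1) + y.2.2 * P 1 1 ^ 2) := rfl

theorem act_mul (P Q : M2) (y : V3) : act (P * Q) y = act Q (act P y) := by
  rw [act_apply, act_apply, act_apply]
  simp only [Matrix.mul_apply, Fin.sum_univ_two]
  ext <;> ring

theorem ft_act (P Q : M2) (y : V3) : ft Q (act P y) = ft (P * Q) y := by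
  unfold ft
  rw [act_apply]
  simp only [Matrix.mul_apply, Fin.sum_univ_two]
  ring

theorem fd_act (P : M2) (y : V3) : fd (act P y) = P.det ^ 2 * fd y := by
  unfold fd
  rw [act_apply, Matrix.det_fin_two]
  ring

theorem ft_bound (P : M2) (y : V3) :
    fd y * (P 0 0 ^ 2 + P 0 1 ^ 2 + P 1 0 ^ 2 + P 1 1 ^ 2) ≤ (y.1 + y.2.2) * ft P y := by
  have h : (y.1 + y.2.2) * ft P y - fd y * (P 0 0 ^ 2 + P 0 1 ^ 2 + P 1 0 ^ 2 + P 1 1 ^ 2) =
      (y.1 * P 0 0 + y.2.1 * P 1 0) ^ 2 + (y.2.1 * P 0 0 + y.2.2 * P 1 0) ^ 2 +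
      ((y.1 * P 0 1 + y.2.1 * P 1 1) ^ 2 + (y.2.1 * P 0 1 + y.2.2 * P 1 1) ^ 2) := by
    unfold ft fd
    ring
  have h2 : 0 ≤ (y.1 * P 0 0 + y.2.1 * P 1 0) ^ 2 + (y.2.1 * P 0 0 + y.2.2 * P 1 0) ^ 2 +
      ((y.1 * P 0 1 + y.2.1 * P 1 1) ^ 2 + (y.2.1 * P 0 1 + y.2.2 * P 1 1) ^ 2) := by positivity
  linarith

/-- positive definite forms -/
def PD (y : V3) : Prop := 0 < y.1 ∧ 0 < fd y

theorem PD.pos {y : V3} (h : PD y) : 0 < y.2.2 := by
  obtain ⟨h1, h2⟩ := h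
  unfold fd at h2
  by_contra hcon
  push Not at hcon
  nlinarith [sq_nonneg y.2.1]

theorem PD.add {y z : V3} (hy : PD y) (hz : PD z) : PD (y + z) := by
  have hy2 := hy.pos
  have hz2 := hz.pos
  obtain ⟨hy1, hyd⟩ := hy
  obtain ⟨hz1, hzd⟩ := hz
  refine ⟨add_pos hy1 hz1, ?_⟩
  unfold fd at *
  show 0 < (y.1 + z.1) * (y.2.2 + z.2.2) - (y.2.1 + z.2.1) ^ 2
  have h1 : 0 < y.1 * z.1 * (y.1 * z.2.2 + z.1 * y.2.2 - 2 * y.2.1 * z.2.1) := by
    have e : y.1 * z.1 * (y.1 * z.2.2 + z.1 * y.2.2 - 2 * y.2.1 * z.2.1) =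
        y.1 ^ 2 * (z.1 * z.2.2 - z.2.1 ^ 2) + z.1 ^ 2 * (y.1 * y.2.2 - y.2.1 ^ 2) +
          (y.1 * z.2.1 - z.1 * y.2.1) ^ 2 := by ring
    rw [e]
    positivity
  have h2 : 0 < y.1 * z.2.2 + z.1 * y.2.2 - 2 * y.2.1 * z.2.1 :=
    (mul_pos_iff_of_pos_left (by positivity)).1 h1
  nlinarith

theorem PD.smul {y : V3} (hy : PD y) {t : ℝ} (ht : 0 < t) : PD (t • y) := by
  obtain ⟨hy1, hyd⟩ := hy
  refine ⟨mul_pos ht hy1, ?_⟩
  unfold fd at *
  show 0 < t * y.1 * (t * y.2.2) - (t * y.2.1) ^ 2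
  have : t * y.1 * (t * y.2.2) - (t * y.2.1) ^ 2 = t ^ 2 * (y.1 * y.2.2 - y.2.1 ^ 2) := by ring
  rw [this]
  positivity

theorem PD_convex : Convex ℝ {y : V3 | PD y} := by
  intro y hy z hz s t hs ht hst
  rcases eq_or_lt_of_le hs with h | h
  · have : t = 1 := by linarith
    rw [← h, this, zero_smul, zero_add, one_smul]
    exact hz
  rcases eq_or_lt_of_le ht with h' | h'
  · have : s = 1 := by linarith
    rw [← h', this, zero_smul, add_zero, one_smul]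
    exact hy
  exact (PD.smul hy h).add (PD.smul hz h')

theorem PD.act {y : V3} (hy : PD y) {P : M2} (hP : P.det ≠ 0) : PD (act P y) := by
  have hd : 0 < fd (Pool.Agent.Helper23M.act P y) := by
    rw [fd_act]
    have := hy.2
    positivity
  refine ⟨?_, hd⟩
  rw [act_apply]
  show 0 < y.1 * P 0 0 ^ 2 + 2 * y.2.1 * (P 0 0 * P 1 0) + y.2.2 * P 1 0 ^ 2
  have h1 : 0 < y.1 * (y.1 * P 0 0 ^ 2 + 2 * y.2.1 * (P 0 0 * P 1 0) + y.2.2 * P 1 0 ^ 2) := by
    have e : y.1 * (y.1 * P 0 0 ^ 2 + 2 * y.2.1 * (P 0 0 * P 1 0) + y.2.2 * P 1 0 ^ 2) =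
        (y.1 * P 0 0 + y.2.1 * P 1 0) ^ 2 + fd y * P 1 0 ^ 2 := by
      unfold fd; ring
    rw [e]
    by_cases h10 : P 1 0 = 0
    · have h00 : P 0 0 ≠ 0 := by
        intro h00
        apply hP
        rw [Matrix.det_fin_two, h00, h10]
        ring
      rw [h10]
      have := hy.1
      have h2 : y.1 * P 0 0 ≠ 0 := mul_ne_zero this.ne' h00
      have : 0 < (y.1 * P 0 0) ^ 2 := by positivity
      nlinarith
    · have := hy.2
      have : 0 < fd y * P 1 0 ^ 2 := by positivity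
      nlinarith [sq_nonneg (y.1 * P 0 0 + y.2.1 * P 1 0)]
  exact (mul_pos_iff_of_pos_left hy.1).1 h1

/-- the weights -/
noncomputable def wt (R : ℝ) (P : M2) (y : V3) : ℝ := max 0 (R * fd y - ft P y ^ 2)

theorem wt_nonneg (R : ℝ) (P : M2) (y : V3) : 0 ≤ wt R P y := le_max_left _ _

theorem wt_act (R : ℝ) {P Q : M2} (hP : |P.det| = 1) (y : V3) :
    wt R Q (act P y) = wt R (P * Q) y := by
  unfold wt
  rw [ft_act, fd_act]
  have : P.det ^ 2 = 1 := by rw [← sq_abs, hP, one_pow]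
  rw [this, one_mul]

theorem wt_smul (R : ℝ) (P : M2) (y : V3) {t : ℝ} (ht : 0 < t) :
    wt R P (t • y) = t ^ 2 * wt R P y := by
  unfold wt
  have h1 : R * fd (t • y) - ft P (t • y) ^ 2 = t ^ 2 * (R * fd y - ft P y ^ 2) := by
    unfold fd ft
    simp
    ring
  rw [h1, mul_max_of_nonneg _ _ (by positivity), mul_zero]

section hom
variable {Γ : Type} [Group Γ] (B : Γ →* M2)

theorem wt_fin (hfin : ∀ C : ℝ, {γ : Γ | ‖bar B γ‖ ≤ C}.Finite) {R : ℝ} (hR : 0 < R) {y0 : V3}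
    (h0 : PD y0) : ∃ U ∈ 𝓝 y0, ∃ Φ : Finset Γ, ∀ y ∈ U, ∀ γ : Γ, γ ∉ Φ → wt R (bar B γ) y = 0 := by
  have hfdc : Continuous fd := by unfold fd; fun_prop
  have htr0 : 0 < y0.1 + y0.2.2 := add_pos h0.1 h0.pos
  have hd0 := h0.2
  let c : ℝ := 4 * (Real.sqrt (2 * R * fd y0)) * (y0.1 + y0.2.2) / fd y0
  have hc0 : 0 ≤ c := by positivity
  let U : Set V3 := {y | fd y0 / 2 < fd y ∧ fd y < 2 * fd y0 ∧
    (y0.1 + y0.2.2) / 2 < y.1 + y.2.2 ∧ y.1 + y.2.2 < 2 * (y0.1 + y0.2.2)}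
  have hU : U ∈ 𝓝 y0 := by
    have hsum : Continuous fun y : V3 => y.1 + y.2.2 := by fun_prop
    have e1 : ∀ᶠ y in 𝓝 y0, fd y0 / 2 < fd y :=
      (hfdc.tendsto y0).eventually_const_lt (by linarith)
    have e2 : ∀ᶠ y in 𝓝 y0, fd y < 2 * fd y0 :=
      (hfdc.tendsto y0).eventually_lt_const (by linarith)
    have e3 : ∀ᶠ y : V3 in 𝓝 y0, (y0.1 + y0.2.2) / 2 < y.1 + y.2.2 :=
      (hsum.tendsto y0).eventually_const_lt (by linarith)
    have e4 : ∀ᶠ y : V3 in 𝓝 y0, y.1 + y.2.2 < 2 * (y0.1 + y0.2.2) :=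
      (hsum.tendsto y0).eventually_lt_const (by linarith)
    filter_upwards [e1, e2, e3, e4] with y h1 h2 h3 h4
    exact ⟨h1, h2, h3, h4⟩
  refine ⟨U, hU, (hfin (1 + c)).toFinset, ?_⟩
  rintro y ⟨h1, h2, h3, h4⟩ γ hγ
  by_contra hne
  apply hγ
  rw [Set.Finite.mem_toFinset]
  show ‖bar B γ‖ ≤ 1 + c
  set P := bar B γ with hP
  have hw : 0 < R * fd y - ft P y ^ 2 := by
    by_contra hcon
    push Not at hcon
    exact hne (max_eq_left hcon)
  have hft : ft P y ≤ Real.sqrt (2 * R * fd y0) := by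
    apply Real.le_sqrt_of_sq_le
    nlinarith
  have hsum : P 0 0 ^ 2 + P 0 1 ^ 2 + P 1 0 ^ 2 + P 1 1 ^ 2 ≤ c := by
    have h5 := ft_bound P y
    have hs0 : 0 ≤ P 0 0 ^ 2 + P 0 1 ^ 2 + P 1 0 ^ 2 + P 1 1 ^ 2 := by positivity
    have h6 : fd y0 / 2 * (P 0 0 ^ 2 + P 0 1 ^ 2 + P 1 0 ^ 2 + P 1 1 ^ 2) ≤
        2 * (y0.1 + y0.2.2) * Real.sqrt (2 * R * fd y0) := by
      calc fd y0 / 2 * (P 0 0 ^ 2 + P 0 1 ^ 2 + P 1 0 ^ 2 + P 1 1 ^ 2)
          ≤ fd y * (P 0 0 ^ 2 + P 0 1 ^ 2 + P 1 0 ^ 2 + P 1 1 ^ 2) := by gcongr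
        _ ≤ (y.1 + y.2.2) * ft P y := h5
        _ ≤ (y.1 + y.2.2) * Real.sqrt (2 * R * fd y0) := by
            have : 0 ≤ y.1 + y.2.2 := by linarith
            gcongr
        _ ≤ _ := by gcongr
    show _ ≤ 4 * (Real.sqrt (2 * R * fd y0)) * (y0.1 + y0.2.2) / fd y0
    rw [le_div_iff₀ hd0]
    linarith
  have hent : ∀ x : ℝ, x ^ 2 ≤ c → |x| ≤ 1 + c := by
    intro x hx
    apply abs_le_of_sq_le_sq _ (by linarith)
    nlinarith
  rw [Matrix.norm_le_iff (by linarith)]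
  intro i j
  rw [Real.norm_eq_abs]
  apply hent
  have := sq_nonneg (P 0 0)
  have := sq_nonneg (P 0 1)
  have := sq_nonneg (P 1 0)
  have := sq_nonneg (P 1 1)
  fin_cases i <;> fin_cases j
  · show P 0 0 ^ 2 ≤ c; linarith
  · show P 0 1 ^ 2 ≤ c; linarith
  · show P 1 0 ^ 2 ≤ c; linarith
  · show P 1 1 ^ 2 ≤ c; linarith

variable {E : Type} [NormedAddCommGroup E] [NormedSpace ℝ E] (hol : Γ →* (E ≃ᵃ[ℝ] E))

/-- weighted averages of the orbit of a point -/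
noncomputable def FF (R : ℝ) (p0 : E) (y : V3) : E :=
  (∑' γ : Γ, wt R (bar B γ) y)⁻¹ • ∑' γ : Γ, wt R (bar B γ) y • hol γ p0

theorem FF_smul (R : ℝ) (p0 : E) (y : V3) {t : ℝ} (ht : 0 < t) :
    FF B hol R p0 (t • y) = FF B hol R p0 y := by
  unfold FF
  simp only [wt_smul R _ y ht, mul_smul]
  rw [tsum_mul_left, tsum_const_smul'', mul_inv, smul_smul]
  congr 1
  field_simp

/-- positive definite forms with positive total weight -/
def PG (R : ℝ) (y : V3) : Prop := PD y ∧ ∃ γ : Γ, 0 < wt R (bar B γ) y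

theorem PG.smul {R : ℝ} {y : V3} (h : PG B R y) {t : ℝ} (ht : 0 < t) : PG B R (t • y) := by
  refine ⟨h.1.smul ht, ?_⟩
  obtain ⟨γ, hγ⟩ := h.2
  refine ⟨γ, ?_⟩
  rw [wt_smul R _ y ht]
  positivity

theorem FF_ll (hfin : ∀ C : ℝ, {γ : Γ | ‖bar B γ‖ ≤ C}.Finite) {R : ℝ} (hR : 0 < R) (p0 : E)
    {Y E' : Type} [TopologicalSpace Y] [T2Space Y] [NormedAddCommGroup E'] [NormedSpace ℝ E'] {e : Y → E'}
    (he : Continuous e) {y : Y → V3} (hy : LL e y) (hPG : ∀ t, PG B R (y t)) :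
    LL e (fun t => FF B hol R p0 (y t)) := by
  classical
  have hyc : Continuous y := hy.continuous he
  have hw : ∀ γ : Γ, LL e (fun t => wt R (bar B γ) (y t)) := by
    intro γ
    have h1 : LocallyLipschitz fun y : V3 => R * fd y - ft (bar B γ) y ^ 2 := by
      apply ContDiff.locallyLipschitz (𝕂 := ℝ)
      unfold fd ft
      fun_prop
    have h2 : LL e (fun t => R * fd (y t) - ft (bar B γ) (y t) ^ 2) := by
      refine LL.comp he hy (Φ := fun y : V3 => R * fd y - ft (bar B γ) y ^ 2) fun t => ?_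
      obtain ⟨K, V, hV, hK⟩ := h1 (y t)
      refine ⟨V, hV, K, K.2, fun a ha b hb => ?_⟩
      have := hK.dist_le_mul (y a) ha (y b) hb
      rwa [dist_eq_norm, dist_eq_norm] at this
    refine LL.comp he h2 (Φ := fun a : ℝ => max 0 a) fun t => ⟨univ, univ_mem, 1, zero_le_one,
      fun a _ b _ => ?_⟩
    rw [one_mul, Real.norm_eq_abs, Real.norm_eq_abs]
    rw [max_comm 0, max_comm 0]
    exact abs_max_sub_max_le_abs _ _ _
  refine LL.of_local fun t0 => ?_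
  obtain ⟨U, hU, Φ, hΦ⟩ := wt_fin B hfin hR (hPG t0).1
  let a : Y → ℝ := fun t => ∑ γ ∈ Φ, wt R (bar B γ) (y t)
  have ha : LL e a := LL.sum Φ fun γ _ => hw γ
  have ha0 : 0 < a t0 := by
    obtain ⟨γ, hγ⟩ := (hPG t0).2
    have hγΦ : γ ∈ Φ := by
      by_contra hcon
      rw [hΦ (y t0) (mem_of_mem_nhds hU) γ hcon] at hγ
      exact lt_irrefl _ hγ
    exact hγ.trans_le (Finset.single_le_sum (f := fun γ => wt R (bar B γ) (y t0))
      (fun γ _ => wt_nonneg _ _ _) hγΦ)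
  let a' : Y → ℝ := fun t => max (a t) (a t0 / 2)
  have ha' : LL e a' := by
    refine LL.comp he ha (Φ := fun s : ℝ => max s (a t0 / 2)) fun t => ⟨univ, univ_mem, 1,
      zero_le_one, fun b _ c _ => ?_⟩
    rw [one_mul, Real.norm_eq_abs, Real.norm_eq_abs]
    exact abs_max_sub_max_le_abs _ _ _
  have ha'0 : ∀ t, 0 < a' t := fun t => lt_max_of_lt_right (by linarith)
  refine ⟨y ⁻¹' U ∩ {t | a t0 / 2 < a t}, inter_mem (hyc.continuousAt hU)
    ((ha.continuous he).continuousAt.eventually_const_lt (by linarith)),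
    fun t => (a' t)⁻¹ • ∑ γ ∈ Φ, wt R (bar B γ) (y t) • hol γ p0, ?_, ?_⟩
  · refine LL.smul he (LL.inv he ha' ha'0) (LL.sum Φ fun γ _ => ?_)
    exact LL.smul he (hw γ) (LL.const _)
  · rintro t ⟨ht, hta⟩
    have : a' t = ∑ γ ∈ Φ, wt R (bar B γ) (y t) := max_eq_left (le_of_lt hta)
    show FF B hol R p0 (y t) = (a' t)⁻¹ • ∑ γ ∈ Φ, wt R (bar B γ) (y t) • hol γ p0
    rw [this]
    unfold FF
    rw [tsum_eq_sum (s := Φ) fun γ hγ => hΦ _ ht γ hγ,
      tsum_eq_sum (s := Φ) fun γ hγ => by rw [hΦ _ ht γ hγ, zero_smul]]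

theorem FF_equi (hfin : ∀ C : ℝ, {γ : Γ | ‖bar B γ‖ ≤ C}.Finite) {R : ℝ} (hR : 0 < R) (p0 : E)
    {y : V3} (hy : PG B R y) (δ : Γ) :
    FF B hol R p0 (act (bar B δ⁻¹) y) = hol δ (FF B hol R p0 y) := by
  classical
  obtain ⟨U, hU, Φ, hΦ'⟩ := wt_fin B hfin hR hy.1
  have hΦ := hΦ' y (mem_of_mem_nhds hU)
  have hw : ∀ γ : Γ, wt R (bar B γ) (act (bar B δ⁻¹) y) = wt R (bar B (δ⁻¹ * γ)) y := by
    intro γ
    rw [wt_act R (bar_det B _), ← map_mul]
  unfold FF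
  simp only [hw]
  rw [← Equiv.tsum_eq (Equiv.mulLeft δ) (fun γ : Γ => wt R (bar B (δ⁻¹ * γ)) y),
    ← Equiv.tsum_eq (Equiv.mulLeft δ) (fun γ : Γ => wt R (bar B (δ⁻¹ * γ)) y • hol γ p0)]
  simp only [Equiv.coe_mulLeft, inv_mul_cancel_left, map_mul]
  rw [tsum_eq_sum (s := Φ) fun γ hγ => hΦ γ hγ,
    tsum_eq_sum (s := Φ) fun γ hγ => by rw [hΦ γ hγ, zero_smul],
    tsum_eq_sum (s := Φ) fun γ hγ => by rw [hΦ γ hγ, zero_smul]]
  have hpos : 0 < ∑ γ ∈ Φ, wt R (bar B γ) y := by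
    obtain ⟨γ, hγ⟩ := hy.2
    have hγΦ : γ ∈ Φ := by
      by_contra hcon
      rw [hΦ γ hcon] at hγ
      exact lt_irrefl _ hγ
    exact hγ.trans_le (Finset.single_le_sum (f := fun γ => wt R (bar B γ) y)
      (fun γ _ => wt_nonneg _ _ _) hγΦ)
  have h1 : ∀ v : E, hol δ v = hol δ 0 + (hol δ).linear v := fun v => by
    have := hol_add (hol := hol) δ 0 v
    rwa [zero_add] at this
  have h2 : ∀ γ : Γ, wt R (bar B γ) y • (hol δ * hol γ) p0 = wt R (bar B γ) y • hol δ 0 +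
      (hol δ).linear (wt R (bar B γ) y • hol γ p0) := by
    intro γ
    show wt R (bar B γ) y • hol δ (hol γ p0) = _
    rw [h1, smul_add, map_smul]
  rw [Finset.sum_congr rfl fun γ _ => h2 γ, Finset.sum_add_distrib, ← Finset.sum_smul, smul_add,
    smul_smul, inv_mul_cancel₀ hpos.ne', one_smul, h1 (_ • _), map_smul, map_sum]

end hom

section main
variable {X Γ E : Type} [TopologicalSpace X] [T2Space X] [SecondCountableTopology X] [Nonempty X]
  [Group Γ] [MulAction Γ X] [NormedAddCommGroup E] [NormedSpace ℝ E] [FiniteDimensional ℝ E]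
  {dev : X → E} {hol : Γ →* (E ≃ᵃ[ℝ] E)}

theorem no_discrete (D : AffData X Γ E dev hol) (B : Γ →* M2)
    (hfin : ∀ C : ℝ, {γ : Γ | ‖bar B γ‖ ≤ C}.Finite) (hdim : 3 ≤ Module.finrank ℝ E) : False := by
  obtain ⟨ρ, hρ⟩ := exists_wt D
  let c : Γ → V3 := fun γ => act (bar B γ) (1, 0, 1)
  have hone : PD ((1, 0, 1) : V3) := ⟨one_pos, by unfold fd; norm_num⟩
  have hdet : ∀ γ : Γ, (bar B γ).det ≠ 0 := fun γ h => by
    have := bar_det B γ
    rw [h, abs_zero] at this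
    exact zero_ne_one this
  let y : X → V3 := av ρ c
  have hyLL : LL dev y := av_ll D hρ c
  have hyc : Continuous y := hyLL.continuous D.loc.continuous
  have hyPD : ∀ x, PD (y x) := fun x => av_mem hρ PD_convex (fun γ => hone.act (hdet γ)) x
  have hyeq : ∀ (δ : Γ) x, y (δ • x) = act (bar B δ⁻¹) (y x) := by
    intro δ x
    show av ρ c (δ • x) = act (bar B δ⁻¹) (av ρ c x)
    rw [av_shift]
    have h1 : ∀ γ : Γ, c (γ * δ⁻¹) = act (bar B δ⁻¹) (c γ) := by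
      intro γ
      show act (bar B (γ * δ⁻¹)) (1, 0, 1) = _
      rw [map_mul, act_mul]
    simp only [h1]
    let A : V3 →L[ℝ] V3 := LinearMap.toContinuousLinearMap (act (bar B δ⁻¹))
    have hA : ∀ v, act (bar B δ⁻¹) v = A v := fun _ => rfl
    simp only [hA]
    unfold av
    rw [A.map_tsum (av_summable hρ _ x)]
    simp only [map_smul]
  obtain ⟨K, hK, hKc⟩ := D.cc
  have hftc : Continuous fun x => ft 1 (y x) := by
    unfold ft; fun_prop
  have hfdc : Continuous fun x => fd (y x) := by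
    unfold fd; fun_prop
  obtain ⟨R0, hR0⟩ := hK.exists_bound_of_continuousOn
    (f := fun x => ft 1 (y x) ^ 2 / fd (y x))
    ((hftc.pow 2).div hfdc fun x => (hyPD x).2.ne').continuousOn
  let R : ℝ := |R0| + 1
  have hR : 0 < R := by positivity
  have hPG : ∀ x, PG B R (y x) := by
    intro x
    refine ⟨hyPD x, ?_⟩
    obtain ⟨γ, k, hk, rfl⟩ := hKc x
    refine ⟨γ, ?_⟩
    rw [hyeq, wt_act R (bar_det B _), ← map_mul, inv_mul_cancel, map_one]
    have h1 := hR0 k hk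
    have h2 := (hyPD k).2
    rw [Real.norm_eq_abs, abs_le] at h1
    have h3 := h1.2
    rw [div_le_iff₀ h2] at h3
    have h4 : R0 * fd (y k) < R * fd (y k) := by
      apply mul_lt_mul_of_pos_right _ h2
      show R0 < |R0| + 1
      linarith [le_abs_self R0]
    exact lt_max_of_lt_right (by linarith)
  have hf : LL dev (fun x => FF B hol R 0 (y x)) :=
    FF_ll B hol hfin hR 0 D.loc.continuous hyLL hPG
  refine null_principle D hf ?_ ?_
  · intro γ x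
    rw [hyeq, FF_equi B hol hfin hR 0 (hPG x)]
  · -- the image has dimension at most two
    let G : Set (ℝ × ℝ) := {t | PG B R ((1, t) : V3)}
    let e : G → ℝ × ℝ := Subtype.val
    have hy2 : LL e (fun t : G => ((1, (t : ℝ × ℝ)) : V3)) := by
      intro t
      refine ⟨univ, univ_mem, 1, zero_le_one, fun a _ b _ => ?_⟩
      show ‖((1, (a : ℝ × ℝ)) : V3) - (1, (b : ℝ × ℝ))‖ ≤ 1 * ‖(a : ℝ × ℝ) - b‖
      rw [Prod.mk_sub_mk, sub_self, Prod.norm_mk, norm_zero, one_mul]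
      exact max_le (norm_nonneg _) le_rfl
    have hF : LL e (fun t : G => FF B hol R 0 ((1, (t : ℝ × ℝ)) : V3)) :=
      FF_ll B hol hfin hR 0 continuous_subtype_val hy2 fun t => t.2
    have h1 : dimH (range fun t : G => FF B hol R 0 ((1, (t : ℝ × ℝ)) : V3)) ≤
        dimH (univ : Set G) := by
      refine dimH_range_le_of_locally_lipschitzOn fun t => ?_
      obtain ⟨U, hU, L, hL, H⟩ := hF t
      refine ⟨⟨L, hL⟩, U, hU, LipschitzOnWith.of_dist_le_mul fun a ha b hb => ?_⟩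
      rw [dist_eq_norm]
      exact H a ha b hb
    have h2 : dimH (univ : Set G) ≤ 2 := by
      have h3 : dimH (Subtype.val '' (univ : Set G)) = dimH (univ : Set G) :=
        isometry_subtype_coe.dimH_image univ
      rw [← h3]
      calc dimH (Subtype.val '' (univ : Set G)) ≤ dimH (univ : Set (ℝ × ℝ)) :=
            dimH_mono (subset_univ _)
        _ = 2 := by
            rw [Real.dimH_univ_eq_finrank]
            simp
    have h3 : range (fun x => FF B hol R 0 (y x)) ⊆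
        range fun t : G => FF B hol R 0 ((1, (t : ℝ × ℝ)) : V3) := by
      rintro _ ⟨x, rfl⟩
      have h4 := (hyPD x).1
      have h5 : ((y x).1⁻¹) • y x = (1, ((y x).1⁻¹) • (y x).2) := by
        ext
        · show (y x).1⁻¹ * (y x).1 = 1
          exact inv_mul_cancel₀ h4.ne'
        · rfl
        · rfl
      have h6 : PG B R ((1, ((y x).1⁻¹) • (y x).2) : V3) := by
        rw [← h5]
        exact (hPG x).smul B (inv_pos.2 h4)
      refine ⟨⟨((y x).1⁻¹) • (y x).2, h6⟩, ?_⟩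
      show FF B hol R 0 (1, ((y x).1⁻¹) • (y x).2) = FF B hol R 0 (y x)
      rw [← h5, FF_smul B hol R 0 _ (inv_pos.2 h4)]
    have h7 : (2 : ℝ≥0∞) < Module.finrank ℝ E := by
      have : (3 : ℝ≥0∞) ≤ Module.finrank ℝ E := by exact_mod_cast hdim
      exact lt_of_lt_of_le (by norm_num) this
    exact lt_of_le_of_lt ((dimH_mono h3).trans (h1.trans h2)) h7

end main

end Pool.Agent.Helper23M
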