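import Pool.Agent.Helper23M.Unip

/-!
Lattices and determinants.
-/

set_option autoImplicit false

open Set Filter Topology Metric
open Pool.Agent.W689.Mk

namespace Pool.Agent.Helper23M

section alg

/-- a linear map which is, together with an inverse, integral in some basis has determinant one -/
theorem abs_det_of_int {ι : Type} [Fintype ι] [DecidableEq ι] {F : Type} [AddCommGroup F]
    [Module ℝ F] (c : Module.Basis ι ℝ F) (A A' : F →ₗ[ℝ] F)
    (hA : ∀ j i, ∃ a : ℤ, c.repr (A (c j)) i = a)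
    (hA' : ∀ j i, ∃ a : ℤ, c.repr (A' (c j)) i = a) (h : ∀ v, A (A' v) = v) :
    |LinearMap.det A| = 1 := by
  have key : ∀ B : F →ₗ[ℝ] F, (∀ j i, ∃ a : ℤ, c.repr (B (c j)) i = a) →
      ∃ p : ℤ, LinearMap.det B = p := by
    intro B hB
    choose P hP using hB
    let P' : Matrix ι ι ℤ := Matrix.of fun i j => P j i
    have h1 : LinearMap.toMatrix c c B = (Int.castRingHom ℝ).mapMatrix P' := by
      ext i j
      rw [LinearMap.toMatrix_apply, hP]
      rfl
    refine ⟨P'.det, ?_⟩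
    rw [← LinearMap.det_toMatrix c, h1, ← RingHom.map_det]
    rfl
  obtain ⟨p, hp⟩ := key A hA
  obtain ⟨q, hq⟩ := key A' hA'
  have h1 : LinearMap.det A * LinearMap.det A' = 1 := by
    rw [← LinearMap.det_comp]
    have : A ∘ₗ A' = LinearMap.id := LinearMap.ext h
    rw [this, LinearMap.det_id]
  rw [hp, hq] at h1
  have h2 : p * q = 1 := by exact_mod_cast h1
  rw [hp]
  rcases Int.eq_one_or_neg_one_of_mul_eq_one h2 with h3 | h3
  · rw [h3]; simp
  · rw [h3]; simp

variable {Γ E F : Type} [Group Γ] [NormedAddCommGroup E] [NormedSpace ℝ E] [FiniteDimensional ℝ E]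
  [NormedAddCommGroup F] [NormedSpace ℝ F] [FiniteDimensional ℝ F]

omit [FiniteDimensional ℝ E] [NormedSpace ℝ E] in
theorem add_one {K : Subgroup Γ} {f : Γ → E} (hf : ∀ n ∈ K, ∀ m ∈ K, f (n * m) = f n + f m) :
    f 1 = 0 := by
  have h1 := hf 1 K.one_mem 1 K.one_mem
  rw [mul_one] at h1
  simpa using h1

omit [FiniteDimensional ℝ E] [NormedSpace ℝ E] in
theorem add_inv {K : Subgroup Γ} {f : Γ → E} (hf : ∀ n ∈ K, ∀ m ∈ K, f (n * m) = f n + f m)
    {n : Γ} (hn : n ∈ K) : f n⁻¹ = -f n := by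
  have h1 := hf n hn n⁻¹ (K.inv_mem hn)
  rw [mul_inv_cancel, add_one hf] at h1
  exact eq_neg_of_add_eq_zero_right h1.symm

/-- the image of a homomorphism -/
def imL (K : Subgroup Γ) (f : Γ → E) (hf : ∀ n ∈ K, ∀ m ∈ K, f (n * m) = f n + f m) :
    Submodule ℤ E :=
  AddSubgroup.toIntSubmodule
    { carrier := f '' K
      add_mem' := by
        rintro _ _ ⟨n, hn, rfl⟩ ⟨m, hm, rfl⟩
        exact ⟨n * m, K.mul_mem hn hm, hf n hn m hm⟩
      zero_mem' := ⟨1, K.one_mem, add_one hf⟩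
      neg_mem' := by
        rintro _ ⟨n, hn, rfl⟩
        exact ⟨n⁻¹, K.inv_mem hn, add_inv hf hn⟩ }

omit [FiniteDimensional ℝ E] [NormedSpace ℝ E] in
theorem mem_imL {K : Subgroup Γ} {f : Γ → E} {hf : ∀ n ∈ K, ∀ m ∈ K, f (n * m) = f n + f m}
    {v : E} : v ∈ imL K f hf ↔ ∃ n ∈ K, f n = v := Iff.rfl

/-- the lattice lemma -/
theorem lat_basis (K : Subgroup Γ) (f : Γ → E) (σ : Γ → F)
    (hf : ∀ n ∈ K, ∀ m ∈ K, f (n * m) = f n + f m)
    (hσ : ∀ n ∈ K, ∀ m ∈ K, σ (n * m) = σ n + σ m)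
    (hfσ : ∀ n ∈ K, ∀ m ∈ K, f n = f m → σ n = σ m) (hd : DiscreteTopology (imL K f hf))
    (hspan : Submodule.span ℝ (σ '' K) = ⊤) :
    Module.finrank ℝ F ≤ Module.finrank ℝ (Submodule.span ℝ (f '' K)) ∧
    (Module.finrank ℝ (Submodule.span ℝ (f '' K)) ≤ Module.finrank ℝ F →
      ∃ (ι : Type) (_ : Fintype ι) (_ : DecidableEq ι) (c : Module.Basis ι ℝ F),
        (∀ i, ∃ n ∈ K, σ n = c i) ∧ ∀ n ∈ K, ∀ i, ∃ a : ℤ, c.repr (σ n) i = a) := by
  classical
  set L := imL K f hf with hL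
  have hfr : Module.finrank ℝ (Submodule.span ℝ (f '' K)) = Module.finrank ℤ L := by
    have e : (L : Set E) = f '' K := rfl
    have h1 : DiscreteTopology (Submodule.span ℤ (L : Set E)) := by
      rw [Submodule.span_eq]; exact hd
    have h2 := Real.finrank_eq_int_finrank_of_discrete (s := (L : Set E)) h1
    unfold Set.finrank at h2
    rw [Submodule.span_eq, e] at h2
    exact h2
  choose! g hgK hg using fun (l : E) (hl : l ∈ L) => mem_imL.1 hl
  let ρ : L →+ F :=
    { toFun := fun l => σ (g l)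
      map_zero' := by
        rw [← add_one hσ]
        refine hfσ _ (hgK _ (Submodule.zero_mem _)) _ K.one_mem ?_
        show f (g (0 : E)) = f 1
        rw [hg _ (Submodule.zero_mem _), add_one hf]
      map_add' := by
        intro l m
        rw [← hσ _ (hgK _ l.2) _ (hgK _ m.2)]
        refine hfσ _ (hgK _ (l + m).2) _ (K.mul_mem (hgK _ l.2) (hgK _ m.2)) ?_
        rw [hf _ (hgK _ l.2) _ (hgK _ m.2), hg _ l.2, hg _ m.2, hg _ (l + m).2]
        rfl }
  have hρ : ∀ n (hn : n ∈ K), σ n = ρ ⟨f n, n, hn, rfl⟩ := by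
    intro n hn
    refine hfσ _ hn _ (hgK _ (⟨n, hn, rfl⟩ : f n ∈ L)) ?_
    exact (hg _ (⟨n, hn, rfl⟩ : f n ∈ L)).symm
  have hρ' : ∀ l : L, ∃ n ∈ K, σ n = ρ l := fun l => ⟨g l, hgK _ l.2, rfl⟩
  have : Module.Finite ℤ L := inferInstance
  have : Module.Free ℤ L := inferInstance
  let bb := Module.Free.chooseBasis ℤ L
  let ι := Module.Free.ChooseBasisIndex ℤ L
  have hcard : Fintype.card ι = Module.finrank ℤ L :=
    (Module.finrank_eq_card_chooseBasisIndex ℤ L).symm
  let v : ι → F := fun i => ρ (bb i)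
  have hsum : ∀ l : L, ρ l = ∑ i, (bb.repr l i : ℤ) • v i := by
    intro l
    conv_lhs => rw [← bb.sum_repr l]
    rw [map_sum]
    refine Finset.sum_congr rfl fun i _ => ?_
    rw [map_zsmul]
  have htop : ⊤ ≤ Submodule.span ℝ (range v) := by
    rw [← hspan, Submodule.span_le]
    rintro _ ⟨n, hn, rfl⟩
    rw [hρ n hn, hsum]
    refine Submodule.sum_mem _ fun i _ => ?_
    rw [← Int.cast_smul_eq_zsmul ℝ]
    exact Submodule.smul_mem _ _ (Submodule.subset_span ⟨i, rfl⟩)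
  have hle : Module.finrank ℝ F ≤ Fintype.card ι := by
    have h1 := finrank_range_le_card (R := ℝ) v
    unfold Set.finrank at h1
    rwa [top_le_iff.1 htop, finrank_top] at h1
  refine ⟨by rw [hfr, ← hcard]; exact hle, fun hle' => ?_⟩
  have hc : Fintype.card ι = Module.finrank ℝ F := le_antisymm (by rw [hcard, ← hfr]; exact hle') hle
  let c := basisOfTopLeSpanOfCardEqFinrank v htop hc
  have hcv : ∀ i, c i = v i := fun i => by
    simp [c]
  refine ⟨ι, inferInstance, inferInstance, c, fun i => ?_, fun n hn i => ?_⟩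
  · rw [hcv]
    exact hρ' (bb i)
  · refine ⟨bb.repr ⟨f n, n, hn, rfl⟩ i, ?_⟩
    rw [hρ n hn, hsum]
    have h1 : ∑ i, (bb.repr (⟨f n, n, hn, rfl⟩ : L) i : ℤ) • v i =
        ∑ i, ((bb.repr (⟨f n, n, hn, rfl⟩ : L) i : ℤ) : ℝ) • c i := by
      refine Finset.sum_congr rfl fun i _ => ?_
      rw [hcv, Int.cast_smul_eq_zsmul]
    rw [h1, Module.Basis.repr_sum_self]

/-- a linear map which is induced by a conjugation of a group with a discrete orbit of small rank
has determinant one -/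
theorem det_of_conj (K : Subgroup Γ) (f : Γ → E) (σ : Γ → F)
    (hf : ∀ n ∈ K, ∀ m ∈ K, f (n * m) = f n + f m)
    (hσ : ∀ n ∈ K, ∀ m ∈ K, σ (n * m) = σ n + σ m)
    (hfσ : ∀ n ∈ K, ∀ m ∈ K, f n = f m → σ n = σ m) (hd : DiscreteTopology (imL K f hf))
    (hspan : Submodule.span ℝ (σ '' K) = ⊤)
    (hr : Module.finrank ℝ (Submodule.span ℝ (f '' K)) ≤ Module.finrank ℝ F)
    (A A' : F →ₗ[ℝ] F) (hA : ∀ n ∈ K, ∃ m ∈ K, A (σ n) = σ m)
    (hA' : ∀ n ∈ K, ∃ m ∈ K, A' (σ n) = σ m) (h : ∀ v, A (A' v) = v) : |LinearMap.det A| = 1 := by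
  obtain ⟨ι, _, _, c, hc, hint⟩ := (lat_basis K f σ hf hσ hfσ hd hspan).2 hr
  refine abs_det_of_int c A A' (fun j i => ?_) (fun j i => ?_) h
  · obtain ⟨n, hn, hnj⟩ := hc j
    obtain ⟨m, hm, hnm⟩ := hA n hn
    rw [← hnj, hnm]
    exact hint m hm i
  · obtain ⟨n, hn, hnj⟩ := hc j
    obtain ⟨m, hm, hnm⟩ := hA' n hn
    rw [← hnj, hnm]
    exact hint m hm i

end alg

section data
variable {X Γ E : Type} [TopologicalSpace X] [T2Space X] [SecondCountableTopology X] [Nonempty X]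
  [Group Γ] [MulAction Γ X] [NormedAddCommGroup E] [NormedSpace ℝ E] [FiniteDimensional ℝ E]
  {dev : X → E} {hol : Γ →* (E ≃ᵃ[ℝ] E)}

/-- the displacement of the point `p` -/
def orb (hol : Γ →* (E ≃ᵃ[ℝ] E)) (p : E) (n : Γ) : E := hol n p - p

omit [FiniteDimensional ℝ E] in
theorem orb_mul (p : E) (n m : Γ) (h : (hol n).linear (orb hol p m) = orb hol p m) :
    orb hol p (n * m) = orb hol p n + orb hol p m := by
  have h1 := hol_add (hol := hol) n p (orb hol p m)
  have h2 : p + orb hol p m = hol m p := by unfold orb; abel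
  rw [h2] at h1
  have h3 : hol (n * m) p = hol n (hol m p) := by rw [map_mul]; rfl
  show hol (n * m) p - p = (hol n p - p) + orb hol p m
  rw [h3, h1]
  have h4 : lin hol n (orb hol p m) = orb hol p m := h
  rw [h4]
  abel

omit [SecondCountableTopology X] [Nonempty X] in
theorem orb_disc (D : AffData X Γ E dev hol) (hinj : Function.Injective dev) (x0 : X)
    (K : Subgroup Γ)
    (hf : ∀ n ∈ K, ∀ m ∈ K, orb hol (dev x0) (n * m) = orb hol (dev x0) n + orb hol (dev x0) m) :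
    DiscreteTopology (imL K (orb hol (dev x0)) hf) := by
  have ho := D.loc.isOpenEmbedding_of_injective hinj
  obtain ⟨N, hN, hNc⟩ := exists_cpt_nhd D x0
  have hfin := D.pd N hNc
  have hV : dev '' N ∈ 𝓝 (dev x0) := ho.image_mem_nhds.2 hN
  set L := imL K (orb hol (dev x0)) hf with hL
  have h1 : {l : L | dev x0 + (l : E) ∈ dev '' N} ∈ 𝓝 (0 : L) := by
    have hc : Continuous fun l : L => dev x0 + (l : E) := by fun_prop
    refine hc.continuousAt.preimage_mem_nhds ?_
    show dev '' N ∈ 𝓝 (dev x0 + ((0 : L) : E))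
    rw [ZeroMemClass.coe_zero, add_zero]
    exact hV
  have h2 : {l : L | dev x0 + (l : E) ∈ dev '' N}.Finite := by
    refine Set.Finite.of_finite_image (f := fun l : L => (l : E)) ?_ Subtype.val_injective.injOn
    refine (hfin.image (orb hol (dev x0))).subset ?_
    rintro _ ⟨l, hl, rfl⟩
    obtain ⟨n, hn, hnl⟩ := mem_imL.1 l.2
    refine ⟨n, ⟨x0, mem_of_mem_nhds hN, ?_⟩, hnl⟩
    obtain ⟨y, hy, hyl⟩ := hl
    have h3 : dev (n • x0) = dev y := by
      rw [D.equi, hyl]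
      show _ = dev x0 + (l : E)
      rw [← hnl]
      unfold orb
      abel
    rw [hinj h3]
    exact hy
  have h3 : IsOpen ({0} : Set L) := isOpen_singleton_of_finite_mem_nhds _ h1 h2
  exact discreteTopology_of_isOpen_singleton_zero h3

end data

end Pool.Agent.Helper23M
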