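import Pool.Agent.Helper23M.Quo

/-!
Closed affine manifolds of dimension three with reducible linear holonomy.
-/

set_option autoImplicit false

open Set Filter Topology Metric
open Pool.Agent.W689.Mk

namespace Pool.Agent.Helper23M

theorem adapted {E : Type} [NormedAddCommGroup E] [NormedSpace ℝ E] [FiniteDimensional ℝ E]
    (h3 : Module.finrank ℝ E = 3) (C : Submodule ℝ E) (hC : Module.finrank ℝ C = 2) {w : E}
    (hw : w ∉ C) : ∃ b : Module.Basis (Fin 3) ℝ E, b 0 ∈ C ∧ b 1 ∈ C ∧ b 2 = w := by
  let c := Module.finBasisOfFinrankEq ℝ C hC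
  let v : Fin 2 → E := fun i => (c i : E)
  have hv : LinearIndependent ℝ v := c.linearIndependent.map' C.subtype (Submodule.ker_subtype C)
  have hs : w ∉ Submodule.span ℝ (range v) := by
    intro h
    apply hw
    have h1 : Submodule.span ℝ (range v) ≤ C := by
      rw [Submodule.span_le]
      rintro _ ⟨i, rfl⟩
      exact (c i).2
    exact h1 h
  have hli : LinearIndependent ℝ (Fin.snoc v w : Fin 3 → E) := linearIndependent_finSnoc.2 ⟨hv, hs⟩
  let b := basisOfLinearIndependentOfCardEqFinrank hli (by simp [h3])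
  have hb : ∀ i, b i = (Fin.snoc v w : Fin 3 → E) i := fun i => by simp [b]
  refine ⟨b, ?_, ?_, ?_⟩
  · rw [hb]
    exact (c 0).2
  · rw [hb]
    exact (c 1).2
  · rw [hb]
    rfl

section data
variable {X Γ E : Type} [TopologicalSpace X] [T2Space X] [SecondCountableTopology X]
  [ConnectedSpace X] [Group Γ] [MulAction Γ X] [NormedAddCommGroup E] [NormedSpace ℝ E]
  [FiniteDimensional ℝ E] {dev : X → E} {hol : Γ →* (E ≃ᵃ[ℝ] E)}

theorem reducible' (D : AffData X Γ E dev hol) (hinj : Function.Injective dev)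
    (h3 : Module.finrank ℝ E = 3) (W : Submodule ℝ E) (hW0 : W ≠ ⊥) (hW1 : W ≠ ⊤)
    (hW : ∀ γ, ∀ v ∈ W, (hol γ).linear v ∈ W) : IsHomeomorph dev := by
  have hlt := Submodule.finrank_lt hW1
  have hpos : 0 < Module.finrank ℝ W := by
    rw [Module.finrank_pos_iff]
    exact Submodule.nontrivial_iff_ne_bot.2 hW0
  have h12 : Module.finrank ℝ W = 2 ∨ Module.finrank ℝ W = 1 := by omega
  rcases h12 with h2 | h1
  · obtain ⟨w, hw⟩ : ∃ w, w ∉ W := by
      by_contra hcon
      push Not at hcon
      exact hW1 (Submodule.eq_top_iff'.2 hcon)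
    obtain ⟨b, hb0, hb1, hb2⟩ := adapted h3 W h2 hw
    have hWp : ∀ v ∈ W, b.repr v 2 = 0 := by
      intro v hv
      by_contra hne
      apply hw
      have e : b.repr v 2 • b 2 = v - (b.repr v 0 • b 0 + b.repr v 1 • b 1) := by
        conv_rhs => rw [← b.sum_repr v, Fin.sum_univ_three]
        simp
      have h4 : b.repr v 2 • b 2 ∈ W := by
        rw [e]
        exact Submodule.sub_mem _ hv (Submodule.add_mem _ (Submodule.smul_mem _ _ hb0)
          (Submodule.smul_mem _ _ hb1))
      rw [← hb2]
      exact (Submodule.smul_mem_iff _ hne).1 h4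
    have hone : One b hol := by
      intro γ
      rw [Lm_apply, Lm_apply]
      exact ⟨hWp _ (hW γ _ hb0), hWp _ (hW γ _ hb1)⟩
    have hblk : Blk b hol ![2, 2, 1] := by
      refine ⟨?_, rfl, by simp, ?_⟩
      · intro i
        fin_cases i <;> simp
      · intro γ i j hij
        fin_cases i <;> fin_cases j <;> simp at hij
        · exact (hone γ).1
        · exact (hone γ).2
    exact one_complete hblk hone D hinj
  · obtain ⟨C, hC⟩ := Submodule.exists_isCompl W
    have hC2 : Module.finrank ℝ C = 2 := by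
      have := Submodule.finrank_add_eq_of_isCompl hC
      omega
    obtain ⟨w, hw, hw0⟩ := Submodule.exists_mem_ne_zero_of_ne_bot hW0
    have hwC : w ∉ C := by
      intro h
      have h4 := hC.disjoint.le_bot (⟨hw, h⟩ : w ∈ W ⊓ C)
      exact hw0 (by simpa using h4)
    obtain ⟨b, hb0, hb1, hb2⟩ := adapted h3 C hC2 hwC
    have hWs : ∀ v ∈ W, ∃ c : ℝ, v = c • b 2 := by
      intro v hv
      obtain ⟨u, hu⟩ := finrank_le_one_iff.1 h1.le
      obtain ⟨a, ha⟩ := hu ⟨w, hw⟩
      obtain ⟨c, hc⟩ := hu ⟨v, hv⟩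
      have ha' : a • (u : E) = w := congrArg Subtype.val ha
      have hc' : c • (u : E) = v := congrArg Subtype.val hc
      have ha0 : a ≠ 0 := by
        rintro rfl
        rw [zero_smul] at ha'
        exact hw0 ha'.symm
      refine ⟨c * a⁻¹, ?_⟩
      rw [hb2, ← ha', smul_smul, mul_assoc, inv_mul_cancel₀ ha0, mul_one, hc']
    have htwo : Two b hol := by
      intro γ
      rw [Lm_apply, Lm_apply]
      have h4 : b 2 ∈ W := by rw [hb2]; exact hw
      obtain ⟨c, hc⟩ := hWs _ (hW γ _ h4)
      rw [hc]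
      simp
    have hblk : Blk b hol ![1, 1, 2] := by
      refine ⟨?_, rfl, by simp, ?_⟩
      · intro i
        fin_cases i <;> simp
      · intro γ i j hij
        fin_cases i <;> fin_cases j <;> simp at hij
        · exact (htwo γ).1
        · exact (htwo γ).2
    exact two_complete hblk htwo D hinj

/-- closed affine manifolds of dimension three with parallel volume and reducible linear holonomy
are complete -/
theorem reducible (D : AffData X Γ E dev hol) (hinj : Function.Injective dev)
    (h3 : Module.finrank ℝ E = 3) (H : Subgroup Γ) (hH : H.FiniteIndex) (W : Submodule ℝ E)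
    (hW0 : W ≠ ⊥) (hW1 : W ≠ ⊤) (hW : ∀ γ ∈ H, ∀ v ∈ W, (hol γ).linear v ∈ W) :
    IsHomeomorph dev :=
  reducible' (Pool.Agent.Y449.MK.restrict D H hH) hinj h3 W hW0 hW1 fun γ => hW γ γ.2

end data

end Pool.Agent.Helper23M
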