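import Pool.Agent.Helper23M.Compl
import Pool.Agent.TH569.MK.Chain

/-!
The case of an invariant line with translations along the line: the quotient.
-/

set_option autoImplicit false

open Set Filter Topology Metric
open Pool.Agent.W689.Mk

namespace Pool.Agent.Helper23M

section maps
variable {E : Type} [NormedAddCommGroup E] [NormedSpace ℝ E]
  (b : Module.Basis (Fin 3) ℝ E)

/-- the projection along the line -/
noncomputable def prj : E →ₗ[ℝ] (Fin 2 → ℝ) where
  toFun p := ![b.repr p 0, b.repr p 1]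
  map_add' p q := by
    ext i
    fin_cases i <;> simp
  map_smul' t p := by
    ext i
    fin_cases i <;> simp

/-- the section -/
noncomputable def ins : (Fin 2 → ℝ) →ₗ[ℝ] E where
  toFun u := u 0 • b 0 + u 1 • b 1
  map_add' u v := by
    rw [Pi.add_apply, Pi.add_apply, add_smul, add_smul]; abel
  map_smul' t u := by
    rw [Pi.smul_apply, Pi.smul_apply, smul_add, smul_smul, smul_smul]; rfl

variable {b}

theorem ins_apply (u : Fin 2 → ℝ) : ins b u = u 0 • b 0 + u 1 • b 1 := rfl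

theorem prj_apply (p : E) : prj b p = ![b.repr p 0, b.repr p 1] := rfl

theorem prj_ins (u : Fin 2 → ℝ) : prj b (ins b u) = u := by
  rw [prj_apply, ins_apply]
  ext i
  fin_cases i <;> simp

theorem prj_line (t : ℝ) : prj b (t • b 2) = 0 := by
  rw [prj_apply]
  ext i
  fin_cases i <;> simp

theorem ins_prj (p : E) : ins b (prj b p) + b.repr p 2 • b 2 = p := by
  rw [prj_apply, ins_apply]
  conv_rhs => rw [← b.sum_repr p, Fin.sum_univ_three]
  rfl

end maps

section two
variable {Γ E : Type} [Group Γ] [NormedAddCommGroup E] [NormedSpace ℝ E]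
  {b : Module.Basis (Fin 3) ℝ E} {hol : Γ →* (E ≃ᵃ[ℝ] E)} {dd : Fin 3 → ℕ}

theorem two_line (h : Blk b hol dd) (h2 : Two b hol) (γ : Γ) (t : ℝ) :
    (hol γ).linear (t • b 2) = (h.Ch γ * t) • b 2 := by
  refine ext3 (b := b) ?_ ?_ ?_
  · rw [lin_repr, (h2 γ).1]; simp
  · rw [lin_repr, (h2 γ).2]; simp
  · rw [lin_repr]
    simp [h.Ch_apply]

/-- the induced map -/
noncomputable def qm (b : Module.Basis (Fin 3) ℝ E) (hol : Γ →* (E ≃ᵃ[ℝ] E)) (γ : Γ) :
    (Fin 2 → ℝ) →ᵃ[ℝ] (Fin 2 → ℝ) :=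
  (prj b).toAffineMap.comp ((hol γ : E →ᵃ[ℝ] E).comp (ins b).toAffineMap)

theorem qm_apply (γ : Γ) (u : Fin 2 → ℝ) : qm b hol γ u = prj b (hol γ (ins b u)) := rfl

theorem qm_prj (h : Blk b hol dd) (h2 : Two b hol) (γ : Γ) (p : E) :
    qm b hol γ (prj b p) = prj b (hol γ p) := by
  rw [qm_apply]
  conv_rhs => rw [← ins_prj (b := b) p, hol_add]
  have h3 : lin hol γ (b.repr p 2 • b 2) = (h.Ch γ * b.repr p 2) • b 2 := two_line h h2 γ _
  rw [h3, map_add, prj_line, add_zero]

theorem qm_mul (h : Blk b hol dd) (h2 : Two b hol) (γ δ : Γ) (u : Fin 2 → ℝ) :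
    qm b hol (γ * δ) u = qm b hol γ (qm b hol δ u) := by
  rw [qm_apply δ, qm_prj h h2, ← hol_mul_apply, qm_apply]

theorem qm_one (u : Fin 2 → ℝ) : qm b hol 1 u = u := by
  rw [qm_apply, map_one]
  exact prj_ins u

theorem qm_bij (h : Blk b hol dd) (h2 : Two b hol) (γ : Γ) : Function.Bijective (qm b hol γ) := by
  refine Function.bijective_iff_has_inverse.2 ⟨qm b hol γ⁻¹, fun u => ?_, fun u => ?_⟩
  · rw [← qm_mul h h2, inv_mul_cancel, qm_one]
  · rw [← qm_mul h h2, mul_inv_cancel, qm_one]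

/-- the affine action on the quotient -/
noncomputable def hq (h : Blk b hol dd) (h2 : Two b hol) :
    Γ →* ((Fin 2 → ℝ) ≃ᵃ[ℝ] (Fin 2 → ℝ)) where
  toFun γ := AffineEquiv.ofBijective (qm_bij h h2 γ)
  map_one' := by
    ext u : 1
    show qm b hol 1 u = u
    exact qm_one u
  map_mul' γ δ := by
    ext u : 1
    show qm b hol (γ * δ) u = qm b hol γ (qm b hol δ u)
    exact qm_mul h h2 γ δ u

theorem hq_apply (h : Blk b hol dd) (h2 : Two b hol) (γ : Γ) (u : Fin 2 → ℝ) :
    hq h h2 γ u = prj b (hol γ (ins b u)) := rfl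

theorem hq_prj (h : Blk b hol dd) (h2 : Two b hol) (γ : Γ) (p : E) :
    hq h h2 γ (prj b p) = prj b (hol γ p) := qm_prj h h2 γ p

theorem hq_linear (h : Blk b hol dd) (h2 : Two b hol) (γ : Γ) :
    ((hq h h2 γ).linear : (Fin 2 → ℝ) →ₗ[ℝ] (Fin 2 → ℝ)) = Matrix.toLin' (h.Bm γ) := by
  apply LinearMap.ext
  intro u
  show (hq h h2 γ).linear u = _
  have h3 : (hq h h2 γ).linear u = hq h h2 γ u - hq h h2 γ 0 := by
    have := hol_sub (hol := hq h h2) γ u 0
    rw [sub_zero] at this
    exact this.symm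
  rw [h3, hq_apply, hq_apply, ← map_sub]
  have h4 := hol_sub (hol := hol) γ (ins b u) (ins b 0)
  rw [h4, map_zero, sub_zero, Matrix.toLin'_apply, prj_apply]
  have e0 : b.repr (ins b u) 0 = u 0 := congrFun (prj_ins (b := b) u) 0
  have e1 : b.repr (ins b u) 1 = u 1 := congrFun (prj_ins (b := b) u) 1
  ext i
  fin_cases i
  · show b.repr ((hol γ).linear (ins b u)) 0 = (h.Bm γ).mulVec u 0
    rw [lin_repr, e0, e1, (h2 γ).1, Matrix.mulVec, dotProduct, Fin.sum_univ_two, h.Bm_apply]
    simp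
  · show b.repr ((hol γ).linear (ins b u)) 1 = (h.Bm γ).mulVec u 1
    rw [lin_repr, e0, e1, (h2 γ).2, Matrix.mulVec, dotProduct, Fin.sum_univ_two, h.Bm_apply]
    simp

end two

section data
variable {X Γ E : Type} [TopologicalSpace X] [T2Space X] [SecondCountableTopology X]
  [Group Γ] [MulAction Γ X] [NormedAddCommGroup E] [NormedSpace ℝ E] [FiniteDimensional ℝ E]
  {dev : X → E} {hol : Γ →* (E ≃ᵃ[ℝ] E)} {b : Module.Basis (Fin 3) ℝ E} {dd : Fin 3 → ℕ}

/-- the line is complete -/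
theorem line_complete (h : Blk b hol dd) (h2 : Two b hol) [Nonempty X] (D : AffData X Γ E dev hol)
    (hch : ∀ γ, |h.Ch γ| = 1) {p : E} (hp : p ∈ range dev) (t : ℝ) : p + t • b 2 ∈ range dev := by
  obtain ⟨x, rfl⟩ := hp
  let S : ℕ → Submodule ℝ E := fun i => if i = 0 then ⊥ else Submodule.span ℝ {b 2}
  have h3 := Pool.Agent.TH569.MK.chain_complete D S 1 (by
      intro x v hv
      have hv0 : v = 0 := by simpa [S] using hv
      rw [hv0]
      exact ⟨x, Pool.Agent.TH569.MK.ex_zero D.loc x⟩) (by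
      intro i hi
      have hi0 : i = 0 := by omega
      subst hi0
      refine ⟨1, fun γ v hv => ⟨0, Submodule.zero_mem _, ?_⟩⟩
      have hv' : v ∈ Submodule.span ℝ {b 2} := by simpa [S] using hv
      obtain ⟨s, rfl⟩ := Submodule.mem_span_singleton.1 hv'
      have h4 : lin hol γ (s • b 2) = (h.Ch γ * s) • b 2 := two_line h h2 γ s
      rw [h4, sub_zero, norm_smul, norm_smul, norm_mul, Real.norm_eq_abs (h.Ch γ), hch γ, mul_assoc])
  obtain ⟨y, hy⟩ := h3 x (t • b 2) (by
    show t • b 2 ∈ (if (1 : ℕ) = 0 then ⊥ else Submodule.span ℝ {b 2})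
    rw [if_neg one_ne_zero]
    exact Submodule.smul_mem _ _ (Submodule.mem_span_singleton_self _))
  exact ⟨y, hy.dev_eq⟩

/-- completeness of the quotient gives completeness -/
theorem two_quot (h : Blk b hol dd) (h2 : Two b hol) [ConnectedSpace X]
    (D : AffData X Γ E dev hol) (hinj : Function.Injective dev) (hch : ∀ γ, |h.Ch γ| = 1)
    (hT : ∃ n ∈ h.Ku, fv b hol n = 0 ∧ wv b hol n = 0 ∧ rv b hol n ≠ 0) : IsHomeomorph dev := by
  classical
  have ho := D.loc.isOpenEmbedding_of_injective hinj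
  have hinc : Continuous (ins b) := LinearMap.continuous_of_finiteDimensional _
  have hprc : Continuous (prj b) := LinearMap.continuous_of_finiteDimensional _
  have hline : ∀ p ∈ range dev, ∀ t : ℝ, p + t • b 2 ∈ range dev :=
    fun p hp t => line_complete h h2 D hch hp t
  have hmem : ∀ p, p ∈ range dev ↔ ins b (prj b p) ∈ range dev := by
    intro p
    constructor
    · intro hp
      have h3 : ins b (prj b p) = p + (-(b.repr p 2)) • b 2 := by
        rw [neg_smul, ← sub_eq_add_neg]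
        exact eq_sub_of_add_eq (ins_prj (b := b) p)
      rw [h3]
      exact hline p hp _
    · intro hp
      rw [← ins_prj (b := b) p]
      exact hline _ hp _
  have hinvR : ∀ (γ : Γ), ∀ p ∈ range dev, hol γ p ∈ range dev := by
    rintro γ _ ⟨x, rfl⟩
    exact ⟨γ • x, D.equi γ x⟩
  let R : Set (Fin 2 → ℝ) := {u | ins b u ∈ range dev}
  have hRo : IsOpen R := ho.isOpen_range.preimage hinc
  let G : Subgroup ((Fin 2 → ℝ) ≃ᵃ[ℝ] (Fin 2 → ℝ)) := (hq h h2).range
  have hGR : ∀ g ∈ G, ∀ u ∈ R, g u ∈ R := by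
    rintro _ ⟨γ, rfl⟩ u hu
    show ins b (hq h h2 γ u) ∈ range dev
    rw [hq_apply, ← hmem]
    exact hinvR γ _ hu
  let act : MulAction G R :=
    { smul := fun g u => ⟨(g : (Fin 2 → ℝ) ≃ᵃ[ℝ] (Fin 2 → ℝ)) u, hGR g g.2 u u.2⟩
      one_smul := fun u => Subtype.ext rfl
      mul_smul := fun g g' u => Subtype.ext rfl }
  have hsmul : ∀ (g : G) (u : R), ((g • u : R) : Fin 2 → ℝ) =
      (g : (Fin 2 → ℝ) ≃ᵃ[ℝ] (Fin 2 → ℝ)) u := fun _ _ => rfl
  -- the projection of the cover
  let f : X → R := fun x => ⟨prj b (dev x), (hmem _).1 ⟨x, rfl⟩⟩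
  have hfc : Continuous f := (hprc.comp D.loc.continuous).subtype_mk _
  have hfs : Function.Surjective f := by
    rintro ⟨u, x, hx⟩
    refine ⟨x, Subtype.ext ?_⟩
    show prj b (dev x) = u
    rw [hx, prj_ins]
  have : ConnectedSpace R := hfs.connectedSpace hfc
  obtain ⟨n0, hn0, hf0, hw0, hr0⟩ := hT
  set τ := rv b hol n0 with hτ
  have htr0 : hol n0 = AffineEquiv.constVAdd ℝ E (τ • b 2) := by
    ext p : 1
    rw [two_trans h h2 hn0 hf0, AffineEquiv.constVAdd_apply, vadd_eq_add, add_comm]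
    congr 1
    have e := ins_prj (b := b) (hol n0 0)
    have e1 : prj b (hol n0 0) = 0 := hw0
    rw [e1, map_zero, zero_add] at e
    exact e.symm
  have hpow : ∀ (k : ℤ) (p : E), hol (n0 ^ k) p = p + ((k : ℝ) * τ) • b 2 := by
    intro k p
    rw [map_zpow, htr0, ← AffineEquiv.constVAdd_zsmul, AffineEquiv.constVAdd_apply, vadd_eq_add,
      add_comm, ← Int.cast_smul_eq_zsmul ℝ, smul_smul]
  have hqpow : ∀ k : ℤ, hq h h2 (n0 ^ k) = 1 := by
    intro k
    ext u : 1
    rw [hq_apply, hpow, map_add, prj_line, add_zero, prj_ins]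
    rfl
  have D' : AffData R G (Fin 2 → ℝ) (Subtype.val : R → (Fin 2 → ℝ)) G.subtype :=
    { loc := hRo.isOpenEmbedding_subtypeVal.isLocalHomeomorph
      cont := by
        intro g
        refine Continuous.subtype_mk ?_ _
        exact ((g : (Fin 2 → ℝ) ≃ᵃ[ℝ] (Fin 2 → ℝ)) :
          (Fin 2 → ℝ) →ᵃ[ℝ] (Fin 2 → ℝ)).continuous_of_finiteDimensional.comp
            continuous_subtype_val
      equi := fun g u => rfl
      unimod := by
        rintro ⟨_, γ, rfl⟩
        show |LinearMap.det ((hq h h2 γ).linear : (Fin 2 → ℝ) →ₗ[ℝ] (Fin 2 → ℝ))| = 1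
        rw [hq_linear, LinearMap.det_toLin']
        have h3 := h.det_one D γ
        rwa [abs_mul, hch, mul_one] at h3
      pd := by
        intro K hK
        let KE : Set E := (fun q : (Fin 2 → ℝ) × ℝ => ins b q.1 + q.2 • b 2) ''
          ((Subtype.val '' K) ×ˢ Icc (-|τ|) |τ|)
        have hKEc : IsCompact KE := by
          refine ((hK.image continuous_subtype_val).prod isCompact_Icc).image ?_
          exact (hinc.comp continuous_fst).add (continuous_snd.smul continuous_const)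
        have hKEs : KE ⊆ range dev := by
          rintro _ ⟨⟨u, t⟩, ⟨⟨u', hu', hu⟩, ht⟩, rfl⟩
          have hu2 : u = u'.1 := hu.symm
          show ins b u + t • b 2 ∈ range dev
          rw [hu2]
          exact hline _ u'.2 _
        have hKXc : IsCompact (dev ⁻¹' KE) := by
          rw [ho.isInducing.isCompact_iff, image_preimage_eq_of_subset hKEs]
          exact hKEc
        refine ((D.pd _ hKXc).image fun γ => (⟨hq h h2 γ, γ, rfl⟩ : G)).subset ?_
        rintro ⟨_, γ, rfl⟩ ⟨u, hu, hgu⟩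
        have hp1 : ins b (u : Fin 2 → ℝ) ∈ KE := by
          refine ⟨(u.1, 0), ⟨⟨u, hu, rfl⟩, ?_⟩, ?_⟩
          · exact ⟨by simp, abs_nonneg _⟩
          · simp
        obtain ⟨x, hx⟩ := hKEs hp1
        set s := b.repr (hol γ (ins b (u : Fin 2 → ℝ))) 2 with hs
        let k : ℤ := -⌊s / τ⌋
        refine ⟨n0 ^ k * γ, ⟨x, ?_, ?_⟩, ?_⟩
        · show dev x ∈ KE
          rw [hx]; exact hp1
        · show dev ((n0 ^ k * γ) • x) ∈ KE
          rw [D.equi, hx, hol_mul_apply, hpow]
          have hq1 : prj b (hol γ (ins b (u : Fin 2 → ℝ))) =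
              ((⟨hq h h2 γ, γ, rfl⟩ : G) • u : R) := rfl
          refine ⟨(prj b (hol γ (ins b (u : Fin 2 → ℝ))), s + (k : ℝ) * τ), ⟨?_, ?_⟩, ?_⟩
          · rw [hq1]
            exact ⟨_, hgu, rfl⟩
          · have h3 : s + (k : ℝ) * τ = Int.fract (s / τ) * τ := by
              show s + ((-⌊s / τ⌋ : ℤ) : ℝ) * τ = Int.fract (s / τ) * τ
              have h4 : (⌊s / τ⌋ : ℝ) + Int.fract (s / τ) = s / τ := Int.floor_add_fract _
              have h5 : Int.fract (s / τ) = s / τ - ⌊s / τ⌋ := by linarith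
              rw [h5]
              push_cast
              field_simp
              ring
            have h6 : |s + (k : ℝ) * τ| ≤ |τ| := by
              rw [h3, abs_mul, abs_of_nonneg (Int.fract_nonneg _)]
              have := (Int.fract_lt_one (s / τ)).le
              nlinarith [abs_nonneg τ]
            exact abs_le.1 h6
          · show ins b (prj b (hol γ (ins b (u : Fin 2 → ℝ)))) + (s + (k : ℝ) * τ) • b 2 = _
            rw [add_smul, ← add_assoc, hs, ins_prj]
        · apply Subtype.ext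
          show hq h h2 (n0 ^ k * γ) = hq h h2 γ
          rw [map_mul, hqpow, one_mul]
      cc := by
        obtain ⟨K, hK, hKc⟩ := D.cc
        refine ⟨f '' K, hK.image hfc, fun u => ?_⟩
        obtain ⟨x, rfl⟩ := hfs u
        obtain ⟨γ, k, hk, rfl⟩ := hKc x
        refine ⟨⟨hq h h2 γ, γ, rfl⟩, f k, ⟨k, hk, rfl⟩, Subtype.ext ?_⟩
        show hq h h2 γ (prj b (dev k)) = prj b (dev (γ • k))
        rw [hq_prj, D.equi] }
  have hhom := Pool.Agent.N520.RO.plane_case R G (Fin 2 → ℝ) Subtype.val G.subtype D'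
    Subtype.val_injective ⊤ inferInstance ⊤ (by rw [finrank_top]; simp) (fun _ _ _ => trivial)
  have hsurj : Function.Surjective dev := by
    intro p
    obtain ⟨u, hu⟩ := hhom.surjective (prj b p)
    have h3 : ins b (prj b p) ∈ range dev := by
      rw [← hu]; exact u.2
    exact (hmem p).2 h3
  exact ⟨ho.continuous, ho.isOpenMap, hinj, hsurj⟩

/-- the case of an invariant line -/
theorem two_complete (h : Blk b hol dd) (h2 : Two b hol) [ConnectedSpace X]
    (D : AffData X Γ E dev hol) (hinj : Function.Injective dev) : IsHomeomorph dev := by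
  by_cases hV : VS hol
  · exact complete_of_VS D hinj hV
  by_cases hT : ∃ n ∈ h.Ku, fv b hol n = 0 ∧ wv b hol n = 0 ∧ rv b hol n ≠ 0
  · exact two_quot h h2 D hinj (two_TV h h2 D hinj hT) hT
  · push Not at hT
    exact two_noTV h h2 D hinj hV hT

end data

end Pool.Agent.Helper23M
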