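import Pool.Agent.Helper23M.Blk

/-!
Block triangular linear holonomy which is not virtually solvable.
-/

set_option autoImplicit false

open Set Filter Topology Metric
open Pool.Agent.W689.Mk

namespace Pool.Agent.Helper23M

section grp
variable {G M : Type} [Group G] [Monoid M]

theorem comm_one (f : G →* M) {g h : G} (hc : f g * f h = f h * f g) :
    f (g * h * g⁻¹ * h⁻¹) = 1 := by
  calc f (g * h * g⁻¹ * h⁻¹) = f g * f h * f (g⁻¹ * h⁻¹) := by
        rw [← map_mul, ← map_mul]; congr 1; group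
    _ = f h * f g * f (g⁻¹ * h⁻¹) := by rw [hc]
    _ = 1 := by
        rw [← map_mul, ← map_mul]
        have : h * g * (g⁻¹ * h⁻¹) = 1 := by group
        rw [this, map_one]

end grp

section
variable {Γ E : Type} [Group Γ] [NormedAddCommGroup E] [NormedSpace ℝ E]

/-- the linear holonomy is virtually solvable -/
def VS (hol : Γ →* (E ≃ᵃ[ℝ] E)) : Prop := ∃ H : Subgroup Γ, H.FiniteIndex ∧
  Group.IsSolvable (H.map (AffineEquiv.linearHom.comp hol))

theorem solv_of_chain (hol : Γ →* (E ≃ᵃ[ℝ] E)) (H : Subgroup Γ) (K : ℕ → Subgroup Γ) (n : ℕ)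
    (h0 : H ≤ K 0) (hs : ∀ i < n, ∀ g ∈ K i, ∀ h ∈ K i, g * h * g⁻¹ * h⁻¹ ∈ K (i + 1))
    (hn : ∀ g ∈ K n, ∀ v, (hol g).linear v = v) :
    Group.IsSolvable (H.map (AffineEquiv.linearHom.comp hol)) := by
  have key : ∀ i ≤ n, derivedSeries H i ≤ (K i).comap H.subtype := by
    intro i
    induction i with
    | zero => exact fun _ g _ => h0 g.2
    | succ i ih =>
      intro hi
      rw [derivedSeries_succ, Subgroup.commutator_le]
      intro g hg h hh
      have h1 := ih (by omega) hg
      have h2 := ih (by omega) hh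
      exact hs i (by omega) g h1 h h2
  let f := AffineEquiv.linearHom.comp hol
  have hsurj : Function.Surjective (f.subgroupMap H) := f.subgroupMap_surjective H
  refine ⟨⟨n, ?_⟩⟩
  rw [← map_derivedSeries_eq hsurj, eq_bot_iff]
  rintro _ ⟨g, hg, rfl⟩
  rw [Subgroup.mem_bot]
  apply Subtype.ext
  show f (g : Γ) = 1
  have h1 := hn g (key n le_rfl hg)
  exact LinearEquiv.ext fun v => h1 v

end

section blk
variable {Γ E : Type} [Group Γ] [NormedAddCommGroup E] [NormedSpace ℝ E]
  {b : Module.Basis (Fin 3) ℝ E} {hol : Γ →* (E ≃ᵃ[ℝ] E)} {dd : Fin 3 → ℕ}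

/-- unipotent elements -/
noncomputable def Blk.Ku (h : Blk b hol dd) : Subgroup Γ := h.Bm.ker ⊓ h.Ch.ker

theorem Blk.mem_Ku (h : Blk b hol dd) {g : Γ} : g ∈ h.Ku ↔ h.Bm g = 1 ∧ h.Ch g = 1 := Iff.rfl

theorem Blk.entries (h : Blk b hol dd) {g : Γ} (hg : g ∈ h.Ku) :
    Lm b hol g 0 0 = 1 ∧ Lm b hol g 0 1 = 0 ∧ Lm b hol g 1 0 = 0 ∧ Lm b hol g 1 1 = 1 ∧
      Lm b hol g 2 2 = 1 := by
  obtain ⟨h1, h2⟩ := h.mem_Ku.1 hg
  rw [h.Bm_apply] at h1
  refine ⟨?_, ?_, ?_, ?_, h2⟩
  · have := congrArg (fun A : M2 => A 0 0) h1; simpa using this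
  · have := congrArg (fun A : M2 => A 0 1) h1; simpa using this
  · have := congrArg (fun A : M2 => A 1 0) h1; simpa using this
  · have := congrArg (fun A : M2 => A 1 1) h1; simpa using this

theorem Blk.Lm_comm (h : Blk b hol dd) {g g' : Γ} (hg : g ∈ h.Ku) (hg' : g' ∈ h.Ku) :
    Lm b hol g * Lm b hol g' = Lm b hol g' * Lm b hol g := by
  obtain ⟨a1, a2, a3, a4, a5⟩ := h.entries hg
  obtain ⟨b1, b2, b3, b4, b5⟩ := h.entries hg'
  rcases h.cases with hc | hc
  · obtain ⟨c1, c2⟩ := hc g
    obtain ⟨d1, d2⟩ := hc g'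
    ext i j
    fin_cases i <;> fin_cases j <;>
      simp [Matrix.mul_apply, Fin.sum_univ_three, a1, a2, a3, a4, a5, b1, b2, b3, b4, b5, c1, c2,
        d1, d2, add_comm]
  · obtain ⟨c1, c2⟩ := hc g
    obtain ⟨d1, d2⟩ := hc g'
    ext i j
    fin_cases i <;> fin_cases j <;>
      simp [Matrix.mul_apply, Fin.sum_univ_three, a1, a2, a3, a4, a5, b1, b2, b3, b4, b5, c1, c2,
        d1, d2, add_comm]

theorem linear_of_Lm {g : Γ} (hg : Lm b hol g = 1) (v : E) : (hol g).linear v = v := by
  have h1 : ((hol g).linear : E →ₗ[ℝ] E) = LinearMap.id := by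
    apply (LinearMap.toMatrix b b).injective
    rw [LinearMap.toMatrix_id]
    exact hg
  exact LinearMap.congr_fun h1 v

theorem Blk.step_last (h : Blk b hol dd) : ∀ g ∈ h.Ku, ∀ g' ∈ h.Ku,
    g * g' * g⁻¹ * g'⁻¹ ∈ (Lm b hol).ker := fun _ hg _ hg' => comm_one _ (h.Lm_comm hg hg')

theorem Blk.vs_ss (h : Blk b hol dd) {N : M2} (hN : N.trace = 0) (hN0 : N ≠ 0)
    (hd : N.det ≠ 0) (hall : ∀ g, Nz N (h.Bm g)) : VS hol := by
  classical
  have hpm := fun g => nz_ss h.Bm hN hd (hall g)
  let H : Subgroup Γ :=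
    { carrier := {g | h.Bm g * N = N * h.Bm g}
      mul_mem' := by
        intro g g' hg hg'
        show h.Bm (g * g') * N = N * h.Bm (g * g')
        have h1 : h.Bm g * N = N * h.Bm g := hg
        have h2 : h.Bm g' * N = N * h.Bm g' := hg'
        rw [map_mul, mul_assoc, h2, ← mul_assoc, h1, mul_assoc]
      one_mem' := by
        show h.Bm 1 * N = N * h.Bm 1
        rw [map_one, one_mul, mul_one]
      inv_mem' := by
        intro g hg
        have h1 : h.Bm g * N = N * h.Bm g := hg
        show h.Bm g⁻¹ * N = N * h.Bm g⁻¹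
        calc h.Bm g⁻¹ * N = h.Bm g⁻¹ * (N * h.Bm g) * h.Bm g⁻¹ := by
              rw [mul_assoc, mul_assoc N, B_mul_inv, mul_one]
          _ = _ := by rw [← h1, ← mul_assoc, B_inv_mul, one_mul] }
  have hH : H.FiniteIndex := by
    by_cases hall : ∀ g, g ∈ H
    · have : H = ⊤ := (Subgroup.eq_top_iff' H).2 hall
      rw [this]; infer_instance
    · push Not at hall
      obtain ⟨a, ha⟩ := hall
      have ha' : h.Bm a * N = -(N * h.Bm a) := (hpm a).resolve_left ha
      have h2 : H.index = 2 := by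
        rw [Subgroup.index_eq_two_iff]
        refine ⟨a, fun g => ?_⟩
        rcases hpm g with hg | hg
        · right
          refine ⟨hg, fun hcon => ?_⟩
          have h3 : h.Bm (g * a) * N = N * h.Bm (g * a) := hcon
          rw [map_mul, mul_assoc, ha', mul_neg, ← mul_assoc, hg, mul_assoc] at h3
          have h4 : N * (h.Bm g * h.Bm a) = 0 := by
            have h5 : (2 : ℝ) • (N * (h.Bm g * h.Bm a)) = 0 := by
              rw [two_smul]
              nth_rewrite 1 [← h3]
              exact neg_add_cancel _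
            exact (smul_eq_zero.1 h5).resolve_left two_ne_zero
          apply hN0
          calc N = N * (h.Bm g * h.Bm a) * (h.Bm a⁻¹ * h.Bm g⁻¹) := by
                rw [mul_assoc, mul_assoc (h.Bm g), ← mul_assoc (h.Bm a), B_mul_inv, one_mul,
                  B_mul_inv, mul_one]
            _ = 0 := by rw [h4, zero_mul]
        · left
          refine ⟨?_, fun hcon => ?_⟩
          · show h.Bm (g * a) * N = N * h.Bm (g * a)
            rw [map_mul, mul_assoc, ha', mul_neg, ← mul_assoc, hg, neg_mul, neg_neg, mul_assoc]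
          · have h3 : h.Bm g * N = N * h.Bm g := hcon
            have h4 : N * h.Bm g = 0 := by
              have h5 : (2 : ℝ) • (N * h.Bm g) = 0 := by
                rw [two_smul]
                nth_rewrite 1 [← h3]
                rw [hg]
                exact neg_add_cancel _
              exact (smul_eq_zero.1 h5).resolve_left two_ne_zero
            apply hN0
            calc N = N * h.Bm g * h.Bm g⁻¹ := by rw [mul_assoc, B_mul_inv, mul_one]
              _ = 0 := by rw [h4, zero_mul]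
      exact ⟨by rw [h2]; norm_num⟩
  refine ⟨H, hH, ?_⟩
  let K : ℕ → Subgroup Γ := fun i => if i = 0 then H else if i = 1 then h.Ku else (Lm b hol).ker
  refine solv_of_chain hol H K 2 le_rfl ?_ ?_
  · intro i hi g hg g' hg'
    interval_cases i
    · have h1 : h.Bm g * N = N * h.Bm g := hg
      have h2 : h.Bm g' * N = N * h.Bm g' := hg'
      exact ⟨comm_one h.Bm (comm_comm hN hN0 h1 h2), chi_comm h.Ch g g'⟩
    · exact h.step_last g hg g' hg'
  · intro g hg v
    exact linear_of_Lm hg v

theorem Blk.vs_nil (h : Blk b hol dd) {N : M2} (hN : N.trace = 0) (hN0 : N ≠ 0)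
    (hd : N.det = 0) (hall : ∀ g, Nz N (h.Bm g)) : VS hol := by
  have had := fun g => nz_nil h.Bm hN hN0 hd (hall g)
  choose a d ha hd' using had
  let Kb : Subgroup Γ :=
    { carrier := {g | h.Bm g * N = N ∧ N * h.Bm g = N ∧ h.Ch g = 1}
      mul_mem' := by
        rintro g g' ⟨h1, h2, h3⟩ ⟨h4, h5, h6⟩
        refine ⟨?_, ?_, ?_⟩
        · rw [map_mul, mul_assoc, h4, h1]
        · rw [map_mul, ← mul_assoc, h2, h5]
        · rw [map_mul, h3, h6, one_mul]
      one_mem' := by
        refine ⟨?_, ?_, ?_⟩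
        · rw [map_one, one_mul]
        · rw [map_one, mul_one]
        · rw [map_one]
      inv_mem' := by
        rintro g ⟨h1, h2, h3⟩
        refine ⟨?_, ?_, ?_⟩
        · nth_rewrite 1 [← h1]
          rw [← mul_assoc, B_inv_mul, one_mul]
        · nth_rewrite 1 [← h2]
          rw [mul_assoc, B_mul_inv, mul_one]
        · have : h.Ch g * h.Ch g⁻¹ = 1 := by rw [← map_mul, mul_inv_cancel, map_one]
          rwa [h3, one_mul] at this }
  refine ⟨⊤, inferInstance, ?_⟩
  let K : ℕ → Subgroup Γ := fun i => if i = 0 then ⊤ else if i = 1 then Kb else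
    if i = 2 then h.Ku else (Lm b hol).ker
  refine solv_of_chain hol ⊤ K 3 le_rfl ?_ ?_
  · intro i hi g hg g' hg'
    interval_cases i
    · -- commutators
      show _ ∧ _ ∧ _
      refine ⟨?_, ?_, chi_comm h.Ch g g'⟩
      · have h1 : h.Bm (g * g') * N = (a g * a g') • N := by
          rw [map_mul, mul_assoc, ha, Matrix.mul_smul, ha, smul_smul, mul_comm]
        have h2 : h.Bm (g' * g) * N = (a g * a g') • N := by
          rw [map_mul, mul_assoc, ha, Matrix.mul_smul, ha, smul_smul]
        have h3 : a g * a g' ≠ 0 := by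
          intro h0
          rw [h0, zero_smul] at h2
          apply hN0
          calc N = h.Bm (g' * g)⁻¹ * (h.Bm (g' * g) * N) := by
                rw [← mul_assoc, B_inv_mul, one_mul]
            _ = 0 := by rw [h2, mul_zero]
        have h4 : (a g * a g') • (h.Bm (g * g' * g⁻¹ * g'⁻¹) * N) = (a g * a g') • N := by
          rw [← Matrix.mul_smul, ← h2, ← mul_assoc, ← map_mul, h2, ← h1]
          congr 2
          group
        exact smul_right_injective M2 h3 h4
      · have h1 : N * h.Bm (g * g') = (d g * d g') • N := by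
          rw [map_mul, ← mul_assoc, hd', Matrix.smul_mul, hd', smul_smul]
        have h2 : N * h.Bm (g' * g) = (d g * d g') • N := by
          rw [map_mul, ← mul_assoc, hd', Matrix.smul_mul, hd', smul_smul, mul_comm]
        have h3 : h.Bm (g * g' * g⁻¹ * g'⁻¹) = h.Bm (g * g') * h.Bm (g⁻¹ * g'⁻¹) := by
          rw [← map_mul]; congr 1; group
        rw [h3, ← mul_assoc, h1, ← h2, mul_assoc, ← map_mul]
        have h4 : g' * g * (g⁻¹ * g'⁻¹) = 1 := by group
        rw [h4, map_one, mul_one]
    · obtain ⟨h1, h2, h3⟩ := (show h.Bm g * N = N ∧ N * h.Bm g = N ∧ h.Ch g = 1 from hg)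
      obtain ⟨h1', h2', h3'⟩ := (show h.Bm g' * N = N ∧ N * h.Bm g' = N ∧ h.Ch g' = 1 from hg')
      exact ⟨comm_one h.Bm (comm_comm hN hN0 (h1.trans h2.symm) (h1'.trans h2'.symm)),
        chi_comm h.Ch g g'⟩
    · exact h.step_last g hg g' hg'
  · intro g hg v
    exact linear_of_Lm hg v

/-- no line of trace free matrices is normalized, if the linear holonomy is not virtually
solvable -/
theorem Blk.ns (h : Blk b hol dd) (hV : ¬ VS hol) (N : M2) (hN : N.trace = 0) (hN0 : N ≠ 0) :
    ∃ g, ¬ Nz N (h.Bm g) := by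
  by_contra hcon
  push Not at hcon
  by_cases hd : N.det = 0
  · exact hV (h.vs_nil hN hN0 hd hcon)
  · exact hV (h.vs_ss hN hN0 hd hcon)

end blk

section data
variable {X Γ E : Type} [TopologicalSpace X] [T2Space X] [SecondCountableTopology X] [Nonempty X]
  [Group Γ] [MulAction Γ X] [NormedAddCommGroup E] [NormedSpace ℝ E] [FiniteDimensional ℝ E]
  {dev : X → E} {hol : Γ →* (E ≃ᵃ[ℝ] E)}

theorem complete_of_VS (D : AffData X Γ E dev hol) (hinj : Function.Injective dev)
    (hV : VS hol) : IsHomeomorph dev := by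
  obtain ⟨H, hH, hs⟩ := hV
  exact Pool.Agent.Y449.MS.Wrap.main Pool.Agent.Y449.MS.All.finv X Γ E dev hol D hinj H hH hs

end data

end Pool.Agent.Helper23M
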