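import Pool.Agent.Helper23M.Solv

/-!
Existence of unipotent elements.
-/

set_option autoImplicit false

open Set Filter Topology Metric
open Pool.Agent.W689.Mk

namespace Pool.Agent.Helper23M

attribute [local instance] Matrix.normedAddCommGroup Matrix.normedSpace

section data
variable {X Γ E : Type} [TopologicalSpace X] [T2Space X] [SecondCountableTopology X] [Nonempty X]
  [Group Γ] [MulAction Γ X] [NormedAddCommGroup E] [NormedSpace ℝ E] [FiniteDimensional ℝ E]
  {dev : X → E} {hol : Γ →* (E ≃ᵃ[ℝ] E)}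

/-- there are finitely many elements which fix a given point of the domain -/
theorem finite_fix (D : AffData X Γ E dev hol) (hinj : Function.Injective dev) (x0 : X) :
    {γ : Γ | hol γ (dev x0) = dev x0}.Finite := by
  refine (D.pd {x0} isCompact_singleton).subset ?_
  intro γ hγ
  refine ⟨x0, rfl, ?_⟩
  apply hinj
  rw [D.equi]
  exact hγ

theorem no_fixed_point (D : AffData X Γ E dev hol) [Nontrivial E] (p : E)
    (hp : ∀ γ : Γ, hol γ p = p) : False := by
  have h1 : ({p} : Set E) = univ := by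
    refine star_univ D (mem_singleton p) (starConvex_singleton p) ?_
    rintro γ q rfl
    exact hp γ
  obtain ⟨q, hq⟩ := exists_ne p
  have : q ∈ ({p} : Set E) := by rw [h1]; trivial
  exact hq this

variable {b : Module.Basis (Fin 3) ℝ E} {dd : Fin 3 → ℕ}

omit [FiniteDimensional ℝ E] in
theorem finrank_three (b : Module.Basis (Fin 3) ℝ E) : Module.finrank ℝ E = 3 := by
  rw [Module.finrank_eq_card_basis b, Fintype.card_fin]

/-- the group has nontrivial unipotent elements -/
theorem Blk.exists_unip (h : Blk b hol dd) (D : AffData X Γ E dev hol)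
    (hinj : Function.Injective dev) (hV : ¬ VS hol) : ∃ n ∈ h.Ku, ∃ p, hol n p ≠ p := by
  classical
  by_contra hcon
  push Not at hcon
  obtain ⟨x0⟩ := (inferInstance : Nonempty X)
  have h3 := finrank_three b
  have : Nontrivial E := Module.nontrivial_of_finrank_pos (R := ℝ) (by omega)
  have hKfin : (h.Ku : Set Γ).Finite :=
    (finite_fix D hinj x0).subset fun n hn => hcon n hn (dev x0)
  -- the kernel of the projectivized block
  let N : Set Γ := {γ | bar h.Bm γ = 1}
  have hNinf : ¬ N.Finite := by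
    intro hN
    refine no_discrete D h.Bm ?_ (by omega)
    intro C
    have h1 := h.disc D hinj (h.ns hV) C
    have h2 : {γ : Γ | ‖bar h.Bm γ‖ ≤ C} ⊆ ⋃ P ∈ {P : M2 | (∃ γ, P = bar h.Bm γ) ∧ ‖P‖ ≤ C},
        {γ : Γ | bar h.Bm γ = P} := by
      intro γ hγ
      exact mem_iUnion₂.2 ⟨bar h.Bm γ, ⟨⟨γ, rfl⟩, hγ⟩, rfl⟩
    refine (h1.biUnion fun P hP => ?_).subset h2
    obtain ⟨⟨γ0, rfl⟩, -⟩ := hP
    refine (hN.image fun n => γ0 * n).subset ?_
    intro γ hγ
    refine ⟨γ0⁻¹ * γ, ?_, by group⟩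
    show bar h.Bm (γ0⁻¹ * γ) = 1
    have hγ' : bar h.Bm γ = bar h.Bm γ0 := hγ
    rw [map_mul, hγ', ← map_mul, inv_mul_cancel, map_one]
  -- scalar blocks
  have hsc : ∀ n ∈ N, h.Bm n = Real.sqrt |(h.Bm n).det| • 1 := by
    intro n hn
    have h1 : (Real.sqrt |(h.Bm n).det|)⁻¹ • h.Bm n = 1 := hn
    have h2 : Real.sqrt |(h.Bm n).det| ≠ 0 :=
      Real.sqrt_ne_zero'.2 (abs_pos.2 (detB_ne h.Bm n))
    rw [← h1, smul_smul, mul_inv_cancel₀ h2, one_smul]
  obtain ⟨n, hn, hs⟩ : ∃ n ∈ N, Real.sqrt |(h.Bm n).det| ≠ 1 := by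
    by_contra hall
    push Not at hall
    apply hNinf
    have hB : ∀ n ∈ N, h.Bm n = 1 := fun n hn => by
      rw [hsc n hn, hall n hn, one_smul]
    have hC : ∀ n ∈ N, h.Ch n = 1 ∨ h.Ch n = -1 := by
      intro n hn
      have h1 := h.det_one D n
      rw [hB n hn, Matrix.det_one, one_mul] at h1
      exact eq_or_eq_neg_of_abs_eq h1
    by_cases hneg : ∃ a ∈ N, h.Ch a = -1
    · obtain ⟨a, ha, ha'⟩ := hneg
      refine (hKfin.union (hKfin.image fun k => a * k)).subset ?_
      intro n hn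
      rcases hC n hn with h1 | h1
      · exact Or.inl ⟨hB n hn, h1⟩
      · right
        refine ⟨a⁻¹ * n, ⟨?_, ?_⟩, by group⟩
        · show h.Bm (a⁻¹ * n) = 1
          rw [map_mul, hB n hn, mul_one]
          have := B_inv_mul h.Bm a
          rwa [hB a ha, mul_one] at this
        · show h.Ch (a⁻¹ * n) = 1
          have h4 : h.Ch a⁻¹ * h.Ch a = 1 := by rw [← map_mul, inv_mul_cancel, map_one]
          rw [map_mul, h1]
          rw [ha'] at h4
          exact h4
    · push Not at hneg
      refine hKfin.subset fun n hn => ⟨hB n hn, (hC n hn).resolve_right (hneg n hn)⟩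
  set s := Real.sqrt |(h.Bm n).det| with hs_def
  have hs0 : 0 ≤ s := Real.sqrt_nonneg _
  have hBn : h.Bm n = s • 1 := hsc n hn
  have hdn : |s ^ 2 * h.Ch n| = 1 := by
    have h1 := h.det_one D n
    rwa [hBn, Matrix.det_smul, Matrix.det_one, Fintype.card_fin, mul_one] at h1
  have hch : h.Ch n ≠ 1 := by
    intro h1
    rw [h1, mul_one, abs_pow, abs_of_nonneg hs0] at hdn
    apply hs
    nlinarith
  -- the fixed point
  let T : E →ₗ[ℝ] E := ((hol n).linear : E →ₗ[ℝ] E) - LinearMap.id
  have hT : LinearMap.det T ≠ 0 := by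
    rw [← LinearMap.det_toMatrix b]
    have h1 : LinearMap.toMatrix b b T = Lm b hol n - 1 := by
      show LinearMap.toMatrix b b (((hol n).linear : E →ₗ[ℝ] E) - LinearMap.id) = _
      rw [map_sub, LinearMap.toMatrix_id]
      rfl
    rw [h1]
    have e : h.Bm n = !![Lm b hol n 0 0, Lm b hol n 0 1; Lm b hol n 1 0, Lm b hol n 1 1] := rfl
    rw [hBn] at e
    have g := fun i j => congrArg (fun A : M2 => A i j) e
    have g00 : Lm b hol n 0 0 = s := by simpa using (g 0 0).symm
    have g01 : Lm b hol n 0 1 = 0 := by simpa using (g 0 1).symm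
    have g10 : Lm b hol n 1 0 = 0 := by simpa using (g 1 0).symm
    have g11 : Lm b hol n 1 1 = s := by simpa using (g 1 1).symm
    have g22 : Lm b hol n 2 2 = h.Ch n := rfl
    have hs1 : s - 1 ≠ 0 := sub_ne_zero.2 hs
    have hc1 : h.Ch n - 1 ≠ 0 := sub_ne_zero.2 hch
    rw [Matrix.det_fin_three]
    simp only [Matrix.sub_apply, g00, g01, g10, g11, g22]
    have o00 : (1 : M3) 0 0 = 1 := rfl
    have o11 : (1 : M3) 1 1 = 1 := rfl
    have o22 : (1 : M3) 2 2 = 1 := rfl
    have o01 : (1 : M3) 0 1 = 0 := rfl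
    have o02 : (1 : M3) 0 2 = 0 := rfl
    have o10 : (1 : M3) 1 0 = 0 := rfl
    have o12 : (1 : M3) 1 2 = 0 := rfl
    have o20 : (1 : M3) 2 0 = 0 := rfl
    have o21 : (1 : M3) 2 1 = 0 := rfl
    have key : (s - 1) * (s - 1) * (h.Ch n - 1) ≠ 0 := mul_ne_zero (mul_ne_zero hs1 hs1) hc1
    intro h0
    apply key
    rw [← h0]
    rw [o00, o11, o22, o01, o02, o10, o12, o20, o21]
    rcases h.cases with hc | hc
    · obtain ⟨c1, c2⟩ := hc n
      rw [c1, c2]
      ring
    · obtain ⟨c1, c2⟩ := hc n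
      rw [c1, c2]
      ring
  let T' := LinearMap.equivOfDetNeZero T hT
  have hT' : ∀ v, T' v = T v := fun v => rfl
  obtain ⟨p, hp⟩ := T'.surjective (-(hol n 0))
  rw [hT'] at hp
  have hlin : ∀ q, hol n q = hol n 0 + (T q + q) := by
    intro q
    have h1 := hol_add (hol := hol) n 0 q
    rw [zero_add] at h1
    rw [h1]
    show hol n 0 + (hol n).linear q = hol n 0 + ((hol n).linear q - q + q)
    rw [sub_add_cancel]
  have hfix : hol n p = p := by
    rw [hlin, hp]; abel
  have huniq : ∀ q, hol n q = q → q = p := by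
    intro q hq
    have h1 : T q = T p := by
      have h2 := hlin q
      rw [hq] at h2
      have h4 : T q = -(hol n 0) := by
        have h5 : T q + hol n 0 = 0 := by
          have h6 : T q + hol n 0 = (hol n 0 + (T q + q)) - q := by abel
          rw [h6, ← h2, sub_self]
        exact eq_neg_of_add_eq_zero_left h5
      rw [h4, hp]
    exact T'.injective h1
  refine no_fixed_point D p fun m => huniq _ ?_
  have hc : m * n * m⁻¹ * n⁻¹ ∈ h.Ku := by
    refine ⟨?_, chi_comm h.Ch m n⟩
    refine comm_one h.Bm ?_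
    rw [hBn, Matrix.mul_smul, Matrix.smul_mul, mul_one, one_mul]
  have h5 := hcon _ hc (hol n (hol m p))
  have h6 : hol (m * n * m⁻¹ * n⁻¹) (hol n (hol m p)) = hol m (hol n p) := by
    have h7 : ∀ (g g' : Γ) (q : E), hol g (hol g' q) = hol (g * g') q := by
      intro g g' q; rw [map_mul]; rfl
    simp only [h7]
    congr 2
    group
  rw [h6, hfix] at h5
  exact h5.symm

end data

end Pool.Agent.Helper23M
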