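import Mathlib

/-!
Iterated commutators of small elements (Zassenhaus), and a graded version for groups of block
triangular matrices with small diagonal blocks.
-/

set_option autoImplicit false

open Set Filter Topology

namespace Pool.Agent.Helper23M

section group
variable {Γ : Type} [Group Γ]

/-- iterated commutators -/
def it (g h : Γ) : ℕ → Γ
  | 0 => h
  | k + 1 => g * it g h k * g⁻¹ * (it g h k)⁻¹

end group

section ring
variable {Γ A : Type} [Group Γ] [NormedRing A] [NormOneClass A]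

theorem inv_bound (M : Γ →* A) {g : Γ} (hg : ‖M g - 1‖ ≤ 1 / 4) : ‖M g⁻¹‖ ≤ 4 / 3 := by
  have h1 : M g⁻¹ = 1 - (M g - 1) * M g⁻¹ := by
    rw [sub_mul, ← map_mul, mul_inv_cancel, map_one, one_mul]
    abel
  have h2 : ‖M g⁻¹‖ ≤ 1 + 1 / 4 * ‖M g⁻¹‖ := by
    calc ‖M g⁻¹‖ = ‖1 - (M g - 1) * M g⁻¹‖ := by rw [← h1]
      _ ≤ ‖(1 : A)‖ + ‖(M g - 1) * M g⁻¹‖ := norm_sub_le _ _
      _ ≤ 1 + ‖M g - 1‖ * ‖M g⁻¹‖ := by
          rw [norm_one]
          gcongr
          exact norm_mul_le _ _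
      _ ≤ 1 + 1 / 4 * ‖M g⁻¹‖ := by gcongr
  linarith

theorem comm_bound (M : Γ →* A) {g h : Γ} (hg : ‖M g - 1‖ ≤ 1 / 16) (hh : ‖M h - 1‖ ≤ 1 / 4) :
    ‖M (g * h * g⁻¹ * h⁻¹) - 1‖ ≤ 1 / 2 * ‖M h - 1‖ := by
  have h1 := inv_bound M (g := g) (by linarith)
  have h2 := inv_bound M hh
  have h3 : M (g * h * g⁻¹ * h⁻¹) - 1 =
      ((M g - 1) * (M h - 1) - (M h - 1) * (M g - 1)) * (M g⁻¹ * M h⁻¹) := by
    have e1 : (M g - 1) * (M h - 1) - (M h - 1) * (M g - 1) = M g * M h - M h * M g := by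
      noncomm_ring
    have e2 : M h * M g * (M g⁻¹ * M h⁻¹) = 1 := by
      rw [mul_assoc, ← mul_assoc (M g), ← map_mul, mul_inv_cancel, map_one, one_mul, ← map_mul,
        mul_inv_cancel, map_one]
    rw [e1, sub_mul, e2, map_mul, map_mul, map_mul, mul_assoc (M g * M h)]
  rw [h3]
  calc ‖((M g - 1) * (M h - 1) - (M h - 1) * (M g - 1)) * (M g⁻¹ * M h⁻¹)‖
      ≤ ‖(M g - 1) * (M h - 1) - (M h - 1) * (M g - 1)‖ * ‖M g⁻¹ * M h⁻¹‖ := norm_mul_le _ _
    _ ≤ (‖M g - 1‖ * ‖M h - 1‖ + ‖M h - 1‖ * ‖M g - 1‖) * (‖M g⁻¹‖ * ‖M h⁻¹‖) := by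
        gcongr
        · exact (norm_sub_le _ _).trans (add_le_add (norm_mul_le _ _) (norm_mul_le _ _))
        · exact norm_mul_le _ _
    _ ≤ (1 / 16 * ‖M h - 1‖ + ‖M h - 1‖ * (1 / 16)) * (4 / 3 * (4 / 3)) := by gcongr
    _ ≤ 1 / 2 * ‖M h - 1‖ := by
        have := norm_nonneg (M h - 1)
        linarith

theorem it_bound (M : Γ →* A) {g h : Γ} (hg : ‖M g - 1‖ ≤ 1 / 16) (hh : ‖M h - 1‖ ≤ 1 / 4)
    (k : ℕ) : ‖M (it g h k) - 1‖ ≤ 1 / 4 * (1 / 2) ^ k := by
  induction k with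
  | zero => simpa [it] using hh
  | succ k ih =>
    have h1 : ‖M (it g h k) - 1‖ ≤ 1 / 4 := by
      refine ih.trans ?_
      have : ((1 : ℝ) / 2) ^ k ≤ 1 := pow_le_one₀ (by norm_num) (by norm_num)
      linarith
    have h2 := comm_bound M hg h1
    show ‖M (g * it g h k * g⁻¹ * (it g h k)⁻¹) - 1‖ ≤ _
    refine h2.trans ?_
    rw [pow_succ]
    linarith

end ring

section graded
variable {ι Γ : Type} [Fintype ι] [DecidableEq ι] [Group Γ]

attribute [local instance] Matrix.linftyOpNormedRing Matrix.linftyOpNormedAddCommGroup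

theorem entry_le (A : Matrix ι ι ℝ) (i j : ι) : |A i j| ≤ ‖A‖ := by
  rw [Matrix.linfty_opNorm_def]
  have h1 : ‖A i j‖₊ ≤ ∑ j, ‖A i j‖₊ :=
    Finset.single_le_sum (f := fun j => ‖A i j‖₊) (fun _ _ => bot_le) (Finset.mem_univ j)
  have h2 : ∑ j, ‖A i j‖₊ ≤ Finset.univ.sup fun i => ∑ j, ‖A i j‖₊ :=
    Finset.le_sup (f := fun i => ∑ j, ‖A i j‖₊) (Finset.mem_univ i)
  exact_mod_cast h1.trans h2

theorem norm_le_of_entries (A : Matrix ι ι ℝ) {c : ℝ} (hc : 0 ≤ c) (h : ∀ i j, |A i j| ≤ c) :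
    ‖A‖ ≤ Fintype.card ι * c := by
  rw [Matrix.linfty_opNorm_def]
  have h0 : (0 : ℝ) ≤ Fintype.card ι * c := by positivity
  have h1 : (Finset.univ.sup fun i => ∑ j, ‖A i j‖₊) ≤ (⟨Fintype.card ι * c, h0⟩ : NNReal) := by
    refine Finset.sup_le fun i _ => ?_
    have h2 : ((∑ j, ‖A i j‖₊ : NNReal) : ℝ) ≤ Fintype.card ι * c := by
      push_cast
      calc ∑ j, ‖A i j‖ ≤ ∑ _j : ι, c := Finset.sum_le_sum fun j _ => h i j
        _ = Fintype.card ι * c := by simp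
    exact h2
  exact_mod_cast h1

/-- conjugation by a diagonal matrix -/
noncomputable def conj (d : ι → ℕ) (s : ℝ) (hs : s ≠ 0) (M : Γ →* Matrix ι ι ℝ) :
    Γ →* Matrix ι ι ℝ where
  toFun γ := Matrix.diagonal (fun i => s ^ d i) * M γ * Matrix.diagonal (fun i => (s ^ d i)⁻¹)
  map_one' := by
    rw [map_one, mul_one, Matrix.diagonal_mul_diagonal]
    have : (fun i => s ^ d i * (s ^ d i)⁻¹) = fun _ => (1 : ℝ) := by
      funext i
      exact mul_inv_cancel₀ (pow_ne_zero _ hs)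
    rw [this, Matrix.diagonal_one]
  map_mul' γ δ := by
    have h1 : Matrix.diagonal (fun i => (s ^ d i)⁻¹) * Matrix.diagonal (fun i => s ^ d i) =
        (1 : Matrix ι ι ℝ) := by
      rw [Matrix.diagonal_mul_diagonal]
      have : (fun i => (s ^ d i)⁻¹ * s ^ d i) = fun _ => (1 : ℝ) := by
        funext i
        exact inv_mul_cancel₀ (pow_ne_zero _ hs)
      rw [this, Matrix.diagonal_one]
    rw [map_mul]
    calc _ = Matrix.diagonal (fun i => s ^ d i) * M γ * 1 * M δ *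
          Matrix.diagonal (fun i => (s ^ d i)⁻¹) := by simp only [mul_one, mul_assoc]
      _ = _ := by rw [← h1]; simp only [mul_assoc]

theorem conj_apply (d : ι → ℕ) (s : ℝ) (hs : s ≠ 0) (M : Γ →* Matrix ι ι ℝ) (γ : Γ) (i j : ι) :
    conj d s hs M γ i j = s ^ d i * M γ i j * (s ^ d j)⁻¹ := by
  show (Matrix.diagonal (fun i => s ^ d i) * M γ * Matrix.diagonal (fun i => (s ^ d i)⁻¹)) i j = _
  rw [Matrix.mul_diagonal, Matrix.diagonal_mul]

/-- iterated commutators of two elements with small diagonal blocks converge to the identity -/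
theorem graded_zassenhaus (d : ι → ℕ) (M : Γ →* Matrix ι ι ℝ)
    (hM : ∀ γ i j, d i < d j → M γ i j = 0) {ε : ℝ} (hε : 0 < ε)
    (hε' : Fintype.card ι * ε < 1 / 16) {g h : Γ}
    (hg : ∀ i j, d i = d j → |M g i j - (1 : Matrix ι ι ℝ) i j| < ε)
    (hh : ∀ i j, d i = d j → |M h i j - (1 : Matrix ι ι ℝ) i j| < ε) (i j : ι) :
    Tendsto (fun k => M (it g h k) i j) atTop (𝓝 ((1 : Matrix ι ι ℝ) i j)) := by
  have : Nonempty ι := ⟨i⟩
  have key : ∀ γ : Γ, (∀ i j, d i = d j → |M γ i j - (1 : Matrix ι ι ℝ) i j| < ε) →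
      ∀ i j, ∀ᶠ s : ℝ in 𝓝[>] 0, |s ^ d i * M γ i j * (s ^ d j)⁻¹ - (1 : Matrix ι ι ℝ) i j| < ε := by
    intro γ hγ i j
    rcases lt_trichotomy (d i) (d j) with h1 | h1 | h1
    · filter_upwards [self_mem_nhdsWithin] with s hs
      have hij : i ≠ j := by rintro rfl; exact lt_irrefl _ h1
      rw [hM γ i j h1, Matrix.one_apply_ne hij]
      simpa using hε
    · filter_upwards [self_mem_nhdsWithin] with s hs
      have hs0 : s ^ d j ≠ 0 := pow_ne_zero _ (ne_of_gt hs)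
      rw [h1]
      have : s ^ d j * M γ i j * (s ^ d j)⁻¹ = M γ i j := by field_simp
      rw [this]
      exact hγ i j h1
    · have hij : i ≠ j := by rintro rfl; exact lt_irrefl _ h1
      have h2 : Tendsto (fun s : ℝ => s ^ (d i - d j) * M γ i j) (𝓝[>] 0) (𝓝 0) := by
        have h3 : Tendsto (fun s : ℝ => s ^ (d i - d j) * M γ i j) (𝓝 0)
            (𝓝 ((0 : ℝ) ^ (d i - d j) * M γ i j)) :=
          ((continuous_pow (d i - d j)).tendsto 0).mul_const _
        rw [zero_pow (by omega), zero_mul] at h3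
        exact h3.mono_left nhdsWithin_le_nhds
      have h3 : ∀ᶠ s : ℝ in 𝓝[>] 0, |s ^ (d i - d j) * M γ i j| < ε := by
        have := h2.abs
        rw [abs_zero] at this
        exact this.eventually_lt_const hε
      filter_upwards [h3, self_mem_nhdsWithin] with s hs hs0
      have hs1 : s ^ d j ≠ 0 := pow_ne_zero _ (ne_of_gt hs0)
      rw [Matrix.one_apply_ne hij, sub_zero]
      have : s ^ d i * M γ i j * (s ^ d j)⁻¹ = s ^ (d i - d j) * M γ i j := by
        have h4 : s ^ d i = s ^ (d i - d j) * s ^ d j := by rw [← pow_add]; congr 1; omega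
        rw [h4]
        field_simp
      rwa [this]
  have ev1 : ∀ᶠ s : ℝ in 𝓝[>] 0, ∀ i j,
      |s ^ d i * M g i j * (s ^ d j)⁻¹ - (1 : Matrix ι ι ℝ) i j| < ε := by
    rw [eventually_all]; intro i; rw [eventually_all]; exact key g hg i
  have ev2 : ∀ᶠ s : ℝ in 𝓝[>] 0, ∀ i j,
      |s ^ d i * M h i j * (s ^ d j)⁻¹ - (1 : Matrix ι ι ℝ) i j| < ε := by
    rw [eventually_all]; intro i; rw [eventually_all]; exact key h hh i
  obtain ⟨s, ⟨hs1, hs2⟩, hs0⟩ := ((ev1.and ev2).and self_mem_nhdsWithin).exists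
  have hs : s ≠ 0 := ne_of_gt hs0
  have hb : ∀ γ : Γ, (∀ i j, |s ^ d i * M γ i j * (s ^ d j)⁻¹ - (1 : Matrix ι ι ℝ) i j| < ε) →
      ‖conj d s hs M γ - 1‖ ≤ 1 / 16 := by
    intro γ hγ
    refine (norm_le_of_entries _ hε.le fun i j => ?_).trans hε'.le
    rw [Matrix.sub_apply, conj_apply]
    exact (hγ i j).le
  have h1 := fun k => it_bound (conj d s hs M) (hb g hs1) ((hb h hs2).trans (by norm_num)) k
  have h2 : ∀ k, |conj d s hs M (it g h k) i j - (1 : Matrix ι ι ℝ) i j| ≤ 1 / 4 * (1 / 2) ^ k := by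
    intro k
    have := entry_le (conj d s hs M (it g h k) - 1) i j
    rw [Matrix.sub_apply] at this
    exact this.trans (h1 k)
  have h3 : Tendsto (fun k : ℕ => (1 : ℝ) / 4 * (1 / 2) ^ k) atTop (𝓝 0) := by
    have := (tendsto_pow_atTop_nhds_zero_of_lt_one (r := (1 / 2 : ℝ)) (by norm_num)
      (by norm_num)).const_mul (1 / 4)
    simpa using this
  have h4 : Tendsto (fun k => conj d s hs M (it g h k) i j) atTop (𝓝 ((1 : Matrix ι ι ℝ) i j)) := by
    rw [tendsto_iff_dist_tendsto_zero]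
    exact squeeze_zero (fun _ => dist_nonneg) (fun k => by rw [Real.dist_eq]; exact h2 k) h3
  have h5 : Tendsto (fun k => (s ^ d i)⁻¹ * conj d s hs M (it g h k) i j * s ^ d j) atTop
      (𝓝 ((s ^ d i)⁻¹ * (1 : Matrix ι ι ℝ) i j * s ^ d j)) := (h4.const_mul _).mul_const _
  have hi : s ^ d i ≠ 0 := pow_ne_zero _ hs
  have hj : s ^ d j ≠ 0 := pow_ne_zero _ hs
  have h6 : (s ^ d i)⁻¹ * (1 : Matrix ι ι ℝ) i j * s ^ d j = (1 : Matrix ι ι ℝ) i j := by
    by_cases hij : i = j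
    · subst hij
      rw [Matrix.one_apply_eq]
      field_simp
    · rw [Matrix.one_apply_ne hij]
      simp
  rw [h6] at h5
  refine h5.congr fun k => ?_
  rw [conj_apply]
  field_simp

end graded

end Pool.Agent.Helper23M
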